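import Pool.Agent.RHCB.StB

/-!
RHCB, module SMLC: the points near a centre (helper65).  Compare `RHKB/SML.lean`.
-/

set_option autoImplicit false

namespace Pool.Agent.RHCB

open scoped BigOperators
open Classical NumberField IsDedekindDomain
open Pool.Agent.RHP (Mon mono ev Sys Prim pd WB WW)
open Pool.Agent.RHK Pool.Agent.RHC
open Pool.Agent.RHKB (mI hh jj qv MK uu BadK)

/-- the norm of a natural number in the completion -/
theorem SMLC_nat (hW : RHKB.St_PLW) (K : Type) [Field K] [NumberField K] (v : InfinitePlace K)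
    (n : ℕ) : ‖(n : v.Completion)‖ = (n : ℝ) := by
  have h := (hW K v).2.2.2.1 (n : ℚ)
  rw [Rat.cast_natCast, Rat.cast_natCast, Nat.abs_cast] at h
  exact h

/-- the value of the scaled form at the scaled point -/
theorem SMLC_ev {K L : Type} [Field K] [NumberField K] [Field L] [Algebra K L] {s d : ℕ}
    (u c : L) (f : Mon s d → 𝓞 K) (x : Fin s → 𝓞 K) :
    ev (cemb u f) (fun l => c * jj L (x l)) = u * (c ^ d * jj L (ev f x)) := by
  have h1 : ev (cemb u f) (fun l => c * jj L (x l)) =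
      ev (fun m => u * jj L (f m)) (fun l => c * jj L (x l)) := rfl
  rw [h1, Pool.Agent.RHP.ev_smul, Pool.Agent.RHP.ev_smul_pt, Pool.Agent.RHP.ev_map]

/-- powers of near elements -/
theorem SMLC_pow {L : Type} [NormedField L] (D : ℝ) (hD : 1 ≤ D) (a b : L) (ha : ‖a‖ ≤ D)
    (hb : ‖b‖ ≤ D) (k : ℕ) : ‖a ^ k - b ^ k‖ ≤ k * D ^ k * ‖a - b‖ := by
  induction k with
  | zero =>
      rw [pow_zero, pow_zero, sub_self, norm_zero, Nat.cast_zero, zero_mul, zero_mul]
  | succ k ih =>
      have h1 : a ^ (k + 1) - b ^ (k + 1) = a * (a ^ k - b ^ k) + (a - b) * b ^ k := by ring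
      have hD0 : 0 ≤ D := by linarith
      rw [h1]
      refine (norm_add_le _ _).trans ?_
      rw [norm_mul, norm_mul, norm_pow]
      have h2 : ‖a‖ * ‖a ^ k - b ^ k‖ ≤ D * (k * D ^ k * ‖a - b‖) :=
        mul_le_mul ha ih (norm_nonneg _) hD0
      have h3 : ‖a - b‖ * ‖b‖ ^ k ≤ ‖a - b‖ * D ^ (k + 1) := by
        refine mul_le_mul_of_nonneg_left ?_ (norm_nonneg _)
        exact (pow_le_pow_left₀ (norm_nonneg _) hb k).trans (pow_le_pow_right₀ hD (by omega))
      refine (add_le_add h2 h3).trans (le_of_eq ?_)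
      push_cast
      ring

theorem thm_SMLC (hL : RHKB.St_LIPK) (h2 : RHKB.St_LAT2) (hW : RHKB.St_PLW) : St_SMLC := by
  intro K _ _ s k m hs B
  obtain ⟨C, hC, hCa⟩ := h2 K
  obtain ⟨N, hN⟩ : ∃ N : ℝ, N = (Fintype.card (Mon s (k * m)) : ℝ) * (MK K * 2 ^ k) *
    ((k * m : ℕ) : ℝ) + k * ((B : ℝ) + 1) ^ k := ⟨_, rfl⟩
  have hN0 : 0 ≤ N := by
    rw [hN]
    positivity
  refine ⟨C * N + 1, by positivity, ?_⟩
  intro V H X hV hX hVH hHV f hf θ hθ hθ1 y hy0 hy1 x w hx
  have hX0 : (0 : ℝ) < X := by exact_mod_cast hX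
  have hV0 : (0 : ℝ) < V := by exact_mod_cast hV
  obtain ⟨Q, hQ⟩ : ∃ Q : ℕ, Q = X ^ m * V := ⟨_, rfl⟩
  rw [← hQ] at hx ⊢
  have hQp : 0 < Q := by
    rw [hQ]
    positivity
  have hQ0 : (0 : ℝ) < Q := by exact_mod_cast hQp
  have hnn : ∀ (v : InfinitePlace K) (n : ℕ), ‖(n : v.Completion)‖ = (n : ℝ) :=
    fun v n => SMLC_nat hW K v n
  have hne : ∀ (v : InfinitePlace K) (n : ℕ), 0 < n → (n : v.Completion) ≠ 0 := fun v n hn h => by
    have h3 := hnn v n
    rw [h, norm_zero] at h3
    have h4 : (0 : ℝ) < n := by exact_mod_cast hn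
    exact h4.ne h3
  have hav : ∀ (v : InfinitePlace K) (a : 𝓞 K), ‖jj v.Completion a‖ = av v a :=
    fun v => (hW K v).2.2.1
  have hyl : ∀ (v : InfinitePlace K) (l : Fin s),
      ‖(X : v.Completion) * y v l.succ‖ ≤ 13 / 16 * X := by
    intro v l
    rw [norm_mul, hnn, mul_comm]
    exact mul_le_mul_of_nonneg_right
      ((norm_le_pi_norm (fun l : Fin s => y v l.succ) l).trans (hy1 v).2.1) hX0.le
  have hθX : θ * X ≤ 1 / 16 * X := mul_le_mul_of_nonneg_right hθ1 hX0.le
  have hθQ : θ * Q ≤ 1 / 16 * Q := mul_le_mul_of_nonneg_right hθ1 hQ0.le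
  have hup : ∀ (v : InfinitePlace K) (l : Fin s), ‖jj v.Completion (x l)‖ ≤ 7 / 8 * X := by
    intro v l
    have h3 : jj v.Completion (x l) =
        (jj v.Completion (x l) - (X : v.Completion) * y v l.succ) +
          (X : v.Completion) * y v l.succ := by ring
    rw [h3]
    refine (norm_add_le _ _).trans ?_
    have h4 := (hx v).1 l
    have h5 := hyl v l
    linarith
  have hwup : ∀ v : InfinitePlace K, ‖jj v.Completion w‖ ≤ ((B : ℝ) + 1) * Q := by
    intro v
    have h3 : jj v.Completion w =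
        (jj v.Completion w - (Q : v.Completion) * y v 0) + (Q : v.Completion) * y v 0 := by ring
    rw [h3]
    refine (norm_add_le _ _).trans ?_
    have h4 := (hx v).2
    have h5 : ‖(Q : v.Completion) * y v 0‖ ≤ ((B : ℝ) + 1 / 16) * Q := by
      rw [norm_mul, hnn, mul_comm]
      exact mul_le_mul_of_nonneg_right (hy1 v).2.2 hQ0.le
    nlinarith
  refine ⟨?_, ?_, ?_, ?_⟩
  · rw [Fintype.mem_piFinset]
    intro l
    rw [mem_pb]
    intro v
    rw [← hav]
    refine (hup v l).trans ?_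
    linarith
  · intro v
    obtain ⟨l, hl⟩ : ∃ l : Fin s, 11 / 16 ≤ ‖y v l.succ‖ := by
      by_contra hcon
      push Not at hcon
      have h3 : ‖fun l : Fin s => y v l.succ‖ < 11 / 16 := (pi_norm_lt_iff (by norm_num)).2 hcon
      exact absurd (hy1 v).1 (not_le.2 h3)
    have h3 : 11 / 16 * X ≤ ‖(X : v.Completion) * y v l.succ‖ := by
      rw [norm_mul, hnn, mul_comm]
      exact mul_le_mul_of_nonneg_left hl hX0.le
    have h4 : ‖(X : v.Completion) * y v l.succ‖ ≤ ‖jj v.Completion (x l)‖ +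
        ‖jj v.Completion (x l) - (X : v.Completion) * y v l.succ‖ := by
      have h5 : (X : v.Completion) * y v l.succ = jj v.Completion (x l) -
          (jj v.Completion (x l) - (X : v.Completion) * y v l.succ) := by ring
      conv_lhs => rw [h5]
      exact norm_sub_le _ _
    have h5 := (hx v).1 l
    have h6 : av v (x l) ≤ vs v x := by
      have h7 := norm_le_pi_norm (fun i => av v (x i)) l
      exact (Real.le_norm_self _).trans h7
    rw [← hav] at h6
    linarith
  · intro v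
    rw [← hav]
    exact hwup v
  · have key : ∀ v : InfinitePlace K, av v (ev f x - w ^ k) ≤ N * θ * H * (X : ℝ) ^ (k * m) := by
      intro v
      obtain ⟨x', hx'⟩ : ∃ x' : Fin s → v.Completion,
        x' = fun l => (X : v.Completion)⁻¹ * jj v.Completion (x l) := ⟨_, rfl⟩
      obtain ⟨w', hw'⟩ : ∃ w' : v.Completion,
        w' = (Q : v.Completion)⁻¹ * jj v.Completion w := ⟨_, rfl⟩
      have hVk : (0 : ℝ) < (V : ℝ) ^ k := by positivity
      have hB : ∀ μ, ‖cemb (uk v k V) f μ‖ ≤ MK K * 2 ^ k := by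
        intro μ
        have h3 : f μ ∈ cb K H := Fintype.mem_piFinset.1 hf μ
        have h4 := (hW K v).2.2.2.2.1 H _ h3
        show ‖((V ^ k : ℕ) : v.Completion)⁻¹ * jj v.Completion (f μ)‖ ≤ _
        rw [norm_mul, norm_inv, hnn, hav]
        push_cast
        rw [inv_mul_le_iff₀ hVk]
        refine h4.trans ?_
        have h5 : (H : ℝ) ≤ (2 * V : ℝ) ^ k := by
          have h6 : (H : ℝ) ≤ ((V : ℝ) + 1) ^ k := by exact_mod_cast hHV
          refine h6.trans (pow_le_pow_left₀ (by positivity) ?_ k)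
          have h7 : (1 : ℝ) ≤ V := by exact_mod_cast hV
          linarith
        calc (MK K : ℝ) * H ≤ MK K * (2 * V : ℝ) ^ k :=
              mul_le_mul_of_nonneg_left h5 (Nat.cast_nonneg _)
          _ = (V : ℝ) ^ k * (MK K * 2 ^ k) := by
              rw [mul_pow]
              ring
      have h3 : ‖x'‖ ≤ 1 := by
        rw [pi_norm_le_iff_of_nonneg (by norm_num)]
        intro l
        rw [hx']
        show ‖(X : v.Completion)⁻¹ * jj v.Completion (x l)‖ ≤ 1
        rw [norm_mul, norm_inv, hnn, inv_mul_le_iff₀ hX0]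
        have := hup v l
        linarith
      have h4 : ‖x' - fun l : Fin s => y v l.succ‖ ≤ θ := by
        rw [pi_norm_le_iff_of_nonneg hθ.le]
        intro l
        have h5 : (x' - fun l : Fin s => y v l.succ) l = (X : v.Completion)⁻¹ *
            (jj v.Completion (x l) - (X : v.Completion) * y v l.succ) := by
          rw [hx', Pi.sub_apply]
          have := hne v X hX
          field_simp
        rw [h5, norm_mul, norm_inv, hnn, inv_mul_le_iff₀ hX0, mul_comm (X : ℝ) θ]
        exact (hx v).1 l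
      have hw3 : ‖w'‖ ≤ (B : ℝ) + 1 := by
        rw [hw', norm_mul, norm_inv, hnn, inv_mul_le_iff₀ hQ0, mul_comm (Q : ℝ)]
        exact hwup v
      have hw4 : ‖w' - y v 0‖ ≤ θ := by
        have h5 : w' - y v 0 = (Q : v.Completion)⁻¹ *
            (jj v.Completion w - (Q : v.Completion) * y v 0) := by
          rw [hw']
          have := hne v Q hQp
          field_simp
        rw [h5, norm_mul, norm_inv, hnn, inv_mul_le_iff₀ hQ0, mul_comm (Q : ℝ) θ]
        exact (hx v).2
      have hy01 : ‖y v 0‖ ≤ (B : ℝ) + 1 := (hy1 v).2.2.trans (by linarith)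
      have h5 := (hL v.Completion s (k * m) (cemb (uk v k V) f) (MK K * 2 ^ k) hB x'
        (fun l : Fin s => y v l.succ) h3 ((hy1 v).2.1.trans (by norm_num))).2.1
      have h6 := SMLC_pow ((B : ℝ) + 1) (by linarith [Nat.cast_nonneg (α := ℝ) B]) w' (y v 0)
        hw3 hy01 k
      rw [hy0 v] at h5
      have h7 : ‖ev (cemb (uk v k V) f) x' - w' ^ k‖ ≤ N * θ := by
        have h8 : ev (cemb (uk v k V) f) x' - w' ^ k =
            (ev (cemb (uk v k V) f) x' - y v 0 ^ k) - (w' ^ k - y v 0 ^ k) := by ring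
        rw [h8]
        refine (norm_sub_le _ _).trans ?_
        have h9 : (Fintype.card (Mon s (k * m)) : ℝ) * (MK K * 2 ^ k) * ((k * m : ℕ) : ℝ) *
            ‖x' - fun l : Fin s => y v l.succ‖ ≤
            (Fintype.card (Mon s (k * m)) : ℝ) * (MK K * 2 ^ k) * ((k * m : ℕ) : ℝ) * θ :=
          mul_le_mul_of_nonneg_left h4 (by positivity)
        have h10 : (k : ℝ) * ((B : ℝ) + 1) ^ k * ‖w' - y v 0‖ ≤
            (k : ℝ) * ((B : ℝ) + 1) ^ k * θ :=
          mul_le_mul_of_nonneg_left hw4 (by positivity)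
        rw [hN, add_mul]
        exact add_le_add (h5.trans h9) (h6.trans h10)
      have h8 : ev (cemb (uk v k V) f) x' - w' ^ k =
          ((V ^ k * X ^ (k * m) : ℕ) : v.Completion)⁻¹ * jj v.Completion (ev f x - w ^ k) := by
        rw [hx', SMLC_ev, hw', map_sub, map_pow, mul_pow, hQ]
        unfold uk
        push_cast
        have h9 : (V : v.Completion) ≠ 0 := hne v V hV
        have h10 : (X : v.Completion) ≠ 0 := hne v X hX
        have h11 : (X : v.Completion) ^ (k * m) = ((X : v.Completion) ^ m) ^ k := by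
          rw [← pow_mul, mul_comm]
        rw [inv_pow, inv_pow, mul_pow, h11]
        field_simp
      rw [h8, norm_mul, norm_inv, hnn, hav] at h7
      push_cast at h7
      have h9 : (0 : ℝ) < (V : ℝ) ^ k * (X : ℝ) ^ (k * m) := by positivity
      rw [inv_mul_le_iff₀ h9] at h7
      refine h7.trans ?_
      have h10 : (V : ℝ) ^ k ≤ H := by exact_mod_cast hVH
      have h11 : (0 : ℝ) ≤ N * θ * (X : ℝ) ^ (k * m) := by positivity
      calc (V : ℝ) ^ k * (X : ℝ) ^ (k * m) * (N * θ) =
            (V : ℝ) ^ k * (N * θ * (X : ℝ) ^ (k * m)) := by ring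
        _ ≤ H * (N * θ * (X : ℝ) ^ (k * m)) := mul_le_mul_of_nonneg_right h10 h11
        _ = N * θ * H * (X : ℝ) ^ (k * m) := by ring
    have h3 := hCa (ev f x - w ^ k) _ key
    refine h3.trans ?_
    have h5 : (0 : ℝ) ≤ θ * H * (X : ℝ) ^ (k * m) := by positivity
    calc C * (N * θ * H * (X : ℝ) ^ (k * m)) = C * N * (θ * H * (X : ℝ) ^ (k * m)) := by ring
      _ ≤ (C * N + 1) * (θ * H * (X : ℝ) ^ (k * m)) := by
          refine mul_le_mul_of_nonneg_right ?_ h5
          linarith
      _ = (C * N + 1) * θ * H * (X : ℝ) ^ (k * m) := by ring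

end Pool.Agent.RHCB
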