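import Pool.Agent.RHCB.StB

/-!
RHCB, module UIFTC: uniform implicit function theorem for `w^k = f(x)` over a locally compact field
(helper77).  Statement and proof: see `St_UIFTC` in `Pool/Agent/RHCB/StB.lean`.
-/

set_option autoImplicit false

namespace Pool.Agent.RHCB

open scoped BigOperators
open Classical Filter Topology
open Pool.Agent.RHP (Mon mono ev Sys Prim pd WB WW)
open Pool.Agent.RHKB (BadK)

section

variable {L : Type} [NormedField L] {s d : ℕ}

theorem UIFTC_ev :
    Continuous fun x : (Mon s d → L) × (Fin s → L) => ev x.1 x.2 := by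
  unfold ev mono
  refine continuous_finsetSum _ fun m _ => Continuous.mul ?_
    (continuous_finsetProd _ fun l _ => Continuous.pow ?_ _)
  · exact (continuous_apply m).comp continuous_fst
  · exact (continuous_apply l).comp continuous_snd

theorem UIFTC_pd (t : Fin s) :
    Continuous fun x : (Mon s d → L) × (Fin s → L) => pd t x.1 x.2 := by
  unfold pd
  refine continuous_finsetSum _ fun m _ => Continuous.mul ?_ (Continuous.mul continuous_const
    (Continuous.mul (Continuous.pow ?_ _) (continuous_finsetProd _ fun l _ => Continuous.pow ?_ _)))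
  · exact (continuous_apply m).comp continuous_fst
  · exact (continuous_apply t).comp continuous_snd
  · exact (continuous_apply l).comp continuous_snd

/-- the forms with an almost singular zero are an open set -/
theorem UIFTC_open (τ : ℝ) : IsOpen {f : Mon s d → L | BadC τ f} := by
  rw [isOpen_iff_mem_nhds]
  rintro f ⟨z, lam, hz, hlam, h1, h2⟩
  have hc1 : ∀ i : Fin 1, ∀ᶠ f' : Mon s d → L in 𝓝 f, ‖ev f' z‖ < τ := by
    intro i
    have hc : Continuous fun f' : Mon s d → L => ‖ev f' z‖ :=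
      continuous_norm.comp (UIFTC_ev.comp (Continuous.prodMk continuous_id continuous_const))
    exact (hc.tendsto f).eventually (eventually_lt_nhds (h1 i))
  have hc2 : ∀ t, ∀ᶠ f' : Mon s d → L in 𝓝 f, ‖∑ i, lam i * pd t f' z‖ < τ := by
    intro t
    have hc : Continuous fun f' : Mon s d → L => ‖∑ i, lam i * pd t f' z‖ :=
      continuous_norm.comp (continuous_finsetSum _ fun i _ => Continuous.mul continuous_const
        ((UIFTC_pd t).comp (Continuous.prodMk continuous_id continuous_const)))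
    exact (hc.tendsto f).eventually (eventually_lt_nhds (h2 t))
  filter_upwards [eventually_all.2 hc1, eventually_all.2 hc2] with f' h3 h4
  exact ⟨z, lam, hz, hlam, h3, h4⟩

/-- an entry of maximal norm -/
theorem UIFTC_max {n : ℕ} (x : Fin n → L) (hx : x ≠ 0) : ∃ l, ‖x l‖ = ‖x‖ ∧ x l ≠ 0 := by
  obtain ⟨l0, hl0⟩ : ∃ l, x l ≠ 0 := by
    by_contra h
    push Not at h
    exact hx (funext h)
  have : Nonempty (Fin n) := ⟨l0⟩
  obtain ⟨l, hl⟩ := Finite.exists_max fun l => ‖x l‖
  have h1 : ‖x‖ = ‖x l‖ := by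
    apply le_antisymm
    · exact (pi_norm_le_iff_of_nonneg (norm_nonneg _)).2 hl
    · exact norm_le_pi_norm x l
  refine ⟨l, h1.symm, ?_⟩
  intro h0
  rw [h0, norm_zero] at h1
  exact hx (norm_eq_zero.1 h1)

theorem UIFTC_norm_smul {n : ℕ} (a : L) (x : Fin n → L) : ‖fun i => a * x i‖ = ‖a‖ * ‖x‖ := by
  have h4 : (fun i => a * x i) = a • x := rfl
  rw [h4, norm_smul]

end

theorem thm_UIFTC (hI : St_IFTC) (hL : Pool.Agent.RHKB.St_LIPK) : St_UIFTC := by
  intro L iL iP hL1 s k m hk hm hkL c hc hc1 B0 τ r hτ hr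
  let iN : NontriviallyNormedField L := { iL with non_trivial := hL1 }
  have hcs : CompleteSpace L := inferInstance
  have hIFT := @hI L iN hcs s k m (by omega) hm
  obtain ⟨B, hB⟩ : ∃ B : ℝ, B = Fintype.card (Mon s (k * m)) * B0 + 1 := ⟨_, rfl⟩
  rw [← hB]
  -- the compact space
  obtain ⟨T, hT⟩ : ∃ T : Set ((Mon s (k * m) → L) × (Fin (s + 1) → L)),
      ∀ x, x ∈ T ↔ (∀ μ, ‖x.1 μ‖ ≤ B0) ∧ ‖fun l : Fin s => x.2 l.succ‖ = ‖c‖ ∧ ‖x.2 0‖ ≤ B :=
    ⟨{x | _}, fun x => Iff.rfl⟩
  have hsucc : Continuous fun z : Fin (s + 1) → L => fun l : Fin s => z l.succ :=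
    continuous_pi fun l => continuous_apply _
  have hTc : IsCompact T := by
    have h1 : IsCompact ((Set.univ.pi fun _ : Mon s (k * m) =>
        Metric.closedBall (0 : L) (B0 : ℝ)) ×ˢ
        (Set.univ.pi fun _ : Fin (s + 1) => Metric.closedBall (0 : L) (max B ‖c‖))) := by
      refine IsCompact.prod ?_ ?_
      · exact isCompact_univ_pi fun m => isCompact_closedBall _ _
      · exact isCompact_univ_pi fun m => isCompact_closedBall _ _
    have h2 : IsClosed T := by
      have h3 : T = (⋂ μ, {x : (Mon s (k * m) → L) × (Fin (s + 1) → L) | ‖x.1 μ‖ ≤ B0}) ∩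
          ({x | ‖fun l : Fin s => x.2 l.succ‖ = ‖c‖} ∩ {x | ‖x.2 0‖ ≤ B}) := by
        ext x
        rw [hT, Set.mem_inter_iff, Set.mem_inter_iff, Set.mem_iInter]
        exact Iff.rfl
      rw [h3]
      refine IsClosed.inter (isClosed_iInter fun μ => ?_) (IsClosed.inter ?_ ?_)
      · exact isClosed_le (continuous_norm.comp ((continuous_apply μ).comp continuous_fst))
          continuous_const
      · exact isClosed_eq (continuous_norm.comp (hsucc.comp continuous_snd)) continuous_const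
      · exact isClosed_le (continuous_norm.comp ((continuous_apply 0).comp continuous_snd))
          continuous_const
    refine h1.of_isClosed_subset h2 ?_
    intro x hx
    obtain ⟨e1, e2, e3⟩ := (hT x).1 hx
    refine ⟨fun μ _ => ?_, fun l _ => ?_⟩
    · rw [mem_closedBall_zero_iff]
      exact e1 μ
    · rw [mem_closedBall_zero_iff]
      refine Fin.cases ?_ (fun l => ?_) l
      · exact e3.trans (le_max_left _ _)
      · refine le_trans ?_ (le_max_right _ _)
        rw [← e2]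
        exact norm_le_pi_norm (fun l : Fin s => x.2 l.succ) l
  have hc' : 0 < ‖c‖ := norm_pos_iff.2 hc
  -- the local statement
  have key : ∀ x : (Mon s (k * m) → L) × (Fin (s + 1) → L), ‖fun l : Fin s => x.2 l.succ‖ = ‖c‖ →
      ∃ U ∈ 𝓝 x, ∃ δ : ℝ, 0 < δ ∧
      ∀ (f : Mon s (k * m) → L) (z : Fin (s + 1) → L), (f, z) ∈ U →
        ‖fun l : Fin s => z l.succ‖ = ‖c‖ → ‖z 0‖ ≤ B → ev f (fun l => z l.succ) = z 0 ^ k →
        ¬ BadC τ f → NZC k f ‖c‖ B δ r := by
    rintro ⟨f₀, z₀⟩ hn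
    have hn' : ‖fun l : Fin s => z₀ l.succ‖ = ‖c‖ := hn
    by_cases h2 : ev f₀ (fun l => z₀ l.succ) = z₀ 0 ^ k
    · by_cases h3 : BadC τ f₀
      · exact ⟨{x | BadC τ x.1}, ((UIFTC_open τ).preimage continuous_fst).mem_nhds h3, 1,
          one_pos, fun f z h4 _ _ _ h5 => absurd h4 h5⟩
      · -- the good case
        have hj : ∃ j : Fin (s + 1), ((j = 0 ∧ (k : L) * z₀ 0 ^ (k - 1) ≠ 0) ∨
            ∃ l : Fin s, j = l.succ ∧ pd l f₀ (fun l => z₀ l.succ) ≠ 0) := by
          by_contra hcon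
          push Not at hcon
          have hz0 : z₀ 0 = 0 := by
            have h4 := (hcon 0).1 rfl
            have h5 := (mul_eq_zero.1 h4).resolve_left hkL
            exact pow_eq_zero_iff (by omega) |>.1 h5
          have hpd : ∀ l : Fin s, pd l f₀ (fun l => z₀ l.succ) = 0 :=
            fun l => (hcon l.succ).2 l rfl
          have hev : ev f₀ (fun l => z₀ l.succ) = 0 := by
            rw [h2, hz0, zero_pow (by omega)]
          apply h3
          refine ⟨fun l => c⁻¹ * z₀ l.succ, fun _ => 1, ?_, ?_, fun i => ?_, fun t => ?_⟩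
          · rw [UIFTC_norm_smul c⁻¹ (fun l : Fin s => z₀ l.succ), hn', norm_inv,
              inv_mul_cancel₀ hc'.ne']
          · apply le_antisymm
            · refine (pi_norm_le_iff_of_nonneg zero_le_one).2 fun i => ?_
              rw [norm_one]
            · have h5 := norm_le_pi_norm (fun _ : Fin 1 => (1 : L)) 0
              rwa [norm_one] at h5
          · rw [Pool.Agent.RHP.ev_smul_pt c⁻¹ f₀ (fun l : Fin s => z₀ l.succ), hev, mul_zero,
              norm_zero]
            exact hτ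
          · have h4 : ∑ i : Fin 1, (1 : L) * pd t f₀ (fun l => c⁻¹ * z₀ l.succ) = 0 := by
              refine Finset.sum_eq_zero fun i _ => ?_
              rw [Pool.Agent.RHP.pd_smul_pt c⁻¹ t f₀ (fun l : Fin s => z₀ l.succ), hpd t, mul_zero,
                mul_zero]
            show ‖∑ i : Fin 1, (1 : L) * pd t f₀ (fun l => c⁻¹ * z₀ l.succ)‖ < τ
            rw [h4, norm_zero]
            exact hτ
        obtain ⟨j, hj⟩ := hj
        obtain ⟨δ, hδ, h5⟩ := hIFT f₀ z₀ j h2 hj (r / 2) (half_pos hr)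
        have hev1 : ∀ᶠ x : (Mon s (k * m) → L) × (Fin (s + 1) → L) in 𝓝 (f₀, z₀), ∀ μ,
            ‖x.1 μ - f₀ μ‖ ≤ δ := by
          refine eventually_all.2 fun μ => ?_
          have hc0 : Continuous fun x : (Mon s (k * m) → L) × (Fin (s + 1) → L) => x.1 μ :=
            (continuous_apply μ).comp continuous_fst
          have hc : Continuous fun x : (Mon s (k * m) → L) × (Fin (s + 1) → L) =>
              ‖x.1 μ - f₀ μ‖ :=
            (hc0.sub continuous_const).norm
          have h6 : ‖(f₀, z₀).1 μ - f₀ μ‖ < δ := by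
            show ‖f₀ μ - f₀ μ‖ < δ
            rw [sub_self, norm_zero]
            exact hδ
          exact (hc.tendsto (f₀, z₀)).eventually (eventually_le_nhds h6)
        have hm : 0 < min (δ / 2) (r / 2) := lt_min (half_pos hδ) (half_pos hr)
        have hev2 : ∀ᶠ x : (Mon s (k * m) → L) × (Fin (s + 1) → L) in 𝓝 (f₀, z₀), ∀ l,
            ‖x.2 l - z₀ l‖ ≤ min (δ / 2) (r / 2) := by
          refine eventually_all.2 fun l => ?_
          have hc0 : Continuous fun x : (Mon s (k * m) → L) × (Fin (s + 1) → L) => x.2 l :=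
            (continuous_apply l).comp continuous_snd
          have hc : Continuous fun x : (Mon s (k * m) → L) × (Fin (s + 1) → L) =>
              ‖x.2 l - z₀ l‖ :=
            (hc0.sub continuous_const).norm
          have h6 : ‖(f₀, z₀).2 l - z₀ l‖ < min (δ / 2) (r / 2) := by
            show ‖z₀ l - z₀ l‖ < _
            rw [sub_self, norm_zero]
            exact hm
          exact (hc.tendsto (f₀, z₀)).eventually (eventually_le_nhds h6)
        refine ⟨_, hev1.and hev2, δ / 2, half_pos hδ, ?_⟩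
        rintro f z ⟨hF1, hF2⟩ hz hzB hz0 -
        refine ⟨z, j, hz, hzB, fun κ hκ => ?_⟩
        obtain ⟨z', h6, h7, h8⟩ := h5 f hF1 κ (fun l => by
          have e1 := hκ l
          have e2 : ‖z l - z₀ l‖ ≤ min (δ / 2) (r / 2) := hF2 l
          have e3 : ‖z l - z₀ l‖ ≤ δ / 2 := e2.trans (min_le_left _ _)
          calc ‖κ l - z₀ l‖ = ‖(κ l - z l) + (z l - z₀ l)‖ := by rw [sub_add_sub_cancel]
            _ ≤ ‖κ l - z l‖ + ‖z l - z₀ l‖ := norm_add_le _ _
            _ ≤ δ / 2 + δ / 2 := add_le_add e1 e3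
            _ = δ := add_halves δ)
        refine ⟨z', h6, fun l => ?_, h8⟩
        have e2 : ‖z l - z₀ l‖ ≤ min (δ / 2) (r / 2) := hF2 l
        have e3 : ‖z₀ l - z l‖ ≤ r / 2 := by
          rw [norm_sub_rev]
          exact e2.trans (min_le_right _ _)
        calc ‖z' l - z l‖ = ‖(z' l - z₀ l) + (z₀ l - z l)‖ := by rw [sub_add_sub_cancel]
          _ ≤ ‖z' l - z₀ l‖ + ‖z₀ l - z l‖ := norm_add_le _ _
          _ ≤ r / 2 + r / 2 := add_le_add (h7 l) e3
          _ = r := add_halves r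
    · have hcont : Continuous fun x : (Mon s (k * m) → L) × (Fin (s + 1) → L) =>
          ev x.1 (fun l => x.2 l.succ) - x.2 0 ^ k :=
        (UIFTC_ev.comp (Continuous.prodMk continuous_fst (hsucc.comp continuous_snd))).sub
          (((continuous_apply 0).comp continuous_snd).pow k)
      have h3 : (f₀, z₀) ∈ {x : (Mon s (k * m) → L) × (Fin (s + 1) → L) |
          ev x.1 (fun l => x.2 l.succ) - x.2 0 ^ k ≠ 0} := sub_ne_zero.2 h2
      refine ⟨_, (isOpen_ne.preimage hcont).mem_nhds h3, 1,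
        one_pos, fun f z h4 _ _ h5 _ => absurd (sub_eq_zero.2 h5) h4⟩
  -- the cover
  have key' : ∀ x : (Mon s (k * m) → L) × (Fin (s + 1) → L),
      ∃ U : Set ((Mon s (k * m) → L) × (Fin (s + 1) → L)),
      ∃ δ : ℝ, 0 < δ ∧ (x ∈ T → U ∈ 𝓝 x) ∧ (x ∈ T →
      ∀ (f : Mon s (k * m) → L) (z : Fin (s + 1) → L), (f, z) ∈ U →
        ‖fun l : Fin s => z l.succ‖ = ‖c‖ → ‖z 0‖ ≤ B → ev f (fun l => z l.succ) = z 0 ^ k →
        ¬ BadC τ f → NZC k f ‖c‖ B δ r) := by
    intro x
    by_cases hx : x ∈ T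
    · obtain ⟨U, hU, δ, hδ, h1⟩ := key x ((hT x).1 hx).2.1
      exact ⟨U, δ, hδ, fun _ => hU, fun _ => h1⟩
    · exact ⟨Set.univ, 1, one_pos, fun h => absurd h hx, fun h => absurd h hx⟩
  choose U δ hδ hU hNZ using key'
  obtain ⟨t, htT, ht⟩ := hTc.elim_nhds_subcover U fun x hx => hU x hx
  obtain ⟨δ0, hδ0, hmin⟩ : ∃ δ0 : ℝ, 0 < δ0 ∧ ∀ x ∈ t, δ0 ≤ δ x := by
    rcases t.eq_empty_or_nonempty with rfl | hne
    · exact ⟨1, one_pos, fun x hx => absurd hx (Finset.notMem_empty x)⟩
    · obtain ⟨y, hy, h1⟩ := Finset.exists_min_image t δ hne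
      exact ⟨δ y, hδ y, h1⟩
  refine ⟨δ0, hδ0, fun f hF hbad hz => ?_⟩
  obtain ⟨x, hx0, w, hw⟩ := hz
  obtain ⟨l, hl, hl'⟩ := UIFTC_max x hx0
  have hxn : ‖x‖ ≠ 0 := norm_ne_zero_iff.2 hx0
  obtain ⟨lam, hlam⟩ : ∃ lam : L, lam = c / x l := ⟨_, rfl⟩
  obtain ⟨z, hzz⟩ : ∃ z : Fin (s + 1) → L, z = Fin.cons (lam ^ m * w) (fun l => lam * x l) :=
    ⟨_, rfl⟩
  have hz0 : z 0 = lam ^ m * w := by
    rw [hzz, Fin.cons_zero]
  have hzs : (fun l : Fin s => z l.succ) = fun l => lam * x l := by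
    funext l
    rw [hzz, Fin.cons_succ]
  have h1 : ‖fun l : Fin s => z l.succ‖ = ‖c‖ := by
    rw [hzs, UIFTC_norm_smul, hlam, norm_div, hl, div_mul_cancel₀ _ hxn]
  have h2 : ev f (fun l => z l.succ) = z 0 ^ k := by
    rw [hzs, Pool.Agent.RHP.ev_smul_pt, hw, hz0, mul_pow, ← pow_mul, mul_comm k m]
  have h2' : ‖z 0‖ ≤ B := by
    have e1 := (hL L s (k * m) f (B0 : ℝ) hF (fun l : Fin s => z l.succ) (fun l : Fin s => z l.succ)
      (by rw [h1]; exact hc1) (by rw [h1]; exact hc1)).1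
    rw [h2, norm_pow] at e1
    by_contra hcon
    push Not at hcon
    have e2 : (1 : ℝ) ≤ B := by
      rw [hB]
      have : (0 : ℝ) ≤ Fintype.card (Mon s (k * m)) * B0 := by positivity
      linarith
    have e3 : ‖z 0‖ ≤ ‖z 0‖ ^ k := le_self_pow₀ (by linarith) (by omega)
    have e4 : (Fintype.card (Mon s (k * m)) : ℝ) * B0 < B := by
      rw [hB]
      linarith
    linarith
  have h3 : (f, z) ∈ T := (hT _).2 ⟨hF, h1, h2'⟩
  have h4 := ht h3
  rw [Set.mem_iUnion₂] at h4
  obtain ⟨y, hy, h5⟩ := h4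
  obtain ⟨z₀, J, e1, e2, e3⟩ := hNZ y (htT y hy) f _ h5 h1 h2' h2 hbad
  exact ⟨z₀, J, e1, e2, fun κ hκ => e3 κ fun l => (hκ l).trans (hmin y hy)⟩

end Pool.Agent.RHCB
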