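import Pool.Agent.RHCB.StB

/-!
RHCB [LLSC], [LLCB]: the local lower bound (helper43; port of RHKB/LLS.lean and RHKB/LL.lean).
-/

set_option autoImplicit false

namespace Pool.Agent.RHCB

open scoped BigOperators
open Classical NumberField IsDedekindDomain
open Pool.Agent.RHP (Mon mono ev Sys Prim pd WB WW ev_smul)
open Pool.Agent.RHK Pool.Agent.RHC
open Pool.Agent.RHKB (mI hh jj qv MK uu BadK)

theorem LLSC_mono {L : Type} [NormedField L] {s d k : ℕ} {f : Mon s d → L}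
    {ρ B δ δ' r : ℝ} (h : δ' ≤ δ) (hF : NZC k f ρ B δ r) : NZC k f ρ B δ' r := by
  obtain ⟨z, j, h1, h2, h3⟩ := hF
  exact ⟨z, j, h1, h2, fun κ hκ => h3 κ fun l => (hκ l).trans h⟩

theorem LLSC_pd {L : Type} [NormedField L] {s d : ℕ} (a : L) (f : Mon s d → L) (t : Fin s)
    (x : Fin s → L) : pd t (fun μ => a * f μ) x = a * pd t f x := by
  unfold pd
  rw [Finset.mul_sum]
  refine Finset.sum_congr rfl fun m _ => ?_
  ring

theorem LLSC_bad {L : Type} [NormedField L] {s d : ℕ} {τ : ℝ} {a : L} {f g : Mon s d → L}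
    (ha : 1 ≤ ‖a‖) (hg : g = fun μ => a * f μ) (h : BadC τ g) : BadC τ f := by
  obtain ⟨z, lam, h1, h2, h3, h4⟩ := h
  refine ⟨z, lam, h1, h2, fun i => ?_, fun t => ?_⟩
  · have h5 := h3 i
    rw [hg, ev_smul, norm_mul] at h5
    nlinarith [norm_nonneg (ev f z)]
  · have h5 := h4 t
    have h6 : ∑ i : Fin 1, lam i * pd t g z = a * ∑ i : Fin 1, lam i * pd t f z := by
      rw [Finset.mul_sum]
      refine Finset.sum_congr rfl fun i _ => ?_
      rw [hg, LLSC_pd]
      ring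
    rw [h6, norm_mul] at h5
    nlinarith [norm_nonneg (∑ i : Fin 1, lam i * pd t f z)]

theorem LLSC_H {k v t V H : ℕ} (hk : 1 ≤ k) (hv : 1 ≤ v) (h1 : 1 ≤ t) (h : CR k v t V H) :
    t ≤ H ∧ 1 ≤ V := by
  obtain ⟨h2, -, h3, -⟩ := h
  have h4 : t ≤ V := (Nat.le_self_pow (by omega) t).trans h2
  exact ⟨h4.trans ((Nat.le_self_pow (by omega) V).trans h3), h1.trans h4⟩

theorem thm_LLSC (hS : St_SIGLOWC) (hB : St_BADC) (hU : St_UIFTC) (hW : RHKB.St_PLW)
    (hD : St_DETC) : St_LLSC := by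
  intro K _ _ s k m hyp A c v hA hc hv ε hε
  have hs := hyp.hs
  have hk := hyp.hk
  have hm := hyp.hm
  obtain ⟨σ₀, hσ, S, m2, hS⟩ := hS K s k m hyp (ε / 2) (by positivity)
  set nv : ℕ := Fintype.card (InfinitePlace K) with hnv
  have hnv0 : 0 < nv := Fintype.card_pos
  have hnvr : (0 : ℝ) < nv := by exact_mod_cast hnv0
  have hkm : 1 ≤ k * m := Nat.mul_pos (by omega) (by omega)
  have hBv := (hB K s (k * m) (by omega) hkm (ε / (2 * nv)) (by positivity)).2
  choose τ hτ H1 hBv using hBv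
  set B0 : ℕ := MK K * 2 ^ k with hB0
  set B : ℕ := Fintype.card (Mon s (k * m)) * B0 + 1 with hBdef
  have hUv : ∀ v : InfinitePlace K, ∃ δ : ℝ, 0 < δ ∧ ∀ f : Mon s (k * m) → v.Completion,
      (∀ μ, ‖f μ‖ ≤ B0) → ¬ BadC (τ v) f →
        (∃ x : Fin s → v.Completion, x ≠ 0 ∧ ∃ w : v.Completion, ev f x = w ^ k) →
        NZC k f (3 / 4) B δ (1 / 16) := by
    intro v
    obtain ⟨h1, h2, h3, h4, h5, h6⟩ := hW K v
    have h7 : ‖((3 / 4 : ℚ) : v.Completion)‖ = 3 / 4 := by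
      rw [h4]
      push_cast
      rw [abs_of_nonneg (by norm_num)]
    have h8 : ((3 / 4 : ℚ) : v.Completion) ≠ 0 := by
      intro h9
      rw [h9, norm_zero] at h7
      norm_num at h7
    have h10 : (k : v.Completion) ≠ 0 := by
      intro h9
      have h11 := h4 (k : ℚ)
      push_cast at h11
      rw [h9, norm_zero] at h11
      have h12 : (0 : ℝ) < |(k : ℝ)| := by
        rw [abs_of_nonneg (Nat.cast_nonneg k)]
        exact_mod_cast (by omega : 0 < k)
      linarith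
    obtain ⟨δ, hδ, h9⟩ := hU v.Completion h2 s k m hk hm h10 _ h8 (by rw [h7]; norm_num) B0
      (τ v) (1 / 16) (hτ v) (by norm_num)
    rw [h7] at h9
    refine ⟨δ, hδ, fun f ha hb hc' => ?_⟩
    have h11 := h9 f ha hb hc'
    have h12 : ((B : ℕ) : ℝ) = (Fintype.card (Mon s (k * m)) * B0 + 1 : ℝ) := by
      rw [hBdef]
      push_cast
      ring
    rw [h12]
    exact h11
  choose δv hδv hUv using hUv
  obtain ⟨δ, hδ, hδle⟩ : ∃ δ : ℝ, 0 < δ ∧ ∀ v, δ ≤ δv v := by
    obtain ⟨v0, hv0⟩ := Finite.exists_min δv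
    exact ⟨δv v0, hδv v0, hv0⟩
  obtain ⟨γ, hγ, m3, hD⟩ := hD K s k m hyp A B c v (by omega) hc hv δ σ₀ hδ hσ
  refine ⟨γ, hγ, S, max m2 m3, fun m0 hm0 κ hκ => ?_⟩
  obtain ⟨H0, hS⟩ := hS m0 ((le_max_left _ _).trans hm0)
  obtain ⟨t1, hD⟩ := hD m0 ((le_max_right _ _).trans hm0) κ hκ
  refine ⟨max (max t1 1) (max H0 (Finset.univ.sup H1)), fun t ht V H hH => ?_⟩
  have ht1 : t1 ≤ t := ((le_max_left _ _).trans (le_max_left _ _)).trans ht
  have htone : 1 ≤ t := ((le_max_right _ _).trans (le_max_left _ _)).trans ht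
  have htH0 : H0 ≤ t := ((le_max_left _ _).trans (le_max_right _ _)).trans ht
  have htH1 : ∀ v, H1 v ≤ t := fun v => ((Finset.le_sup (Finset.mem_univ v)).trans
    (le_max_right _ _)).trans ((le_max_right _ _).trans ht)
  obtain ⟨htH, hV1⟩ := LLSC_H (by omega) hv htone hH
  have hS := hS H (htH0.trans htH)
  have hVr : (0 : ℝ) < (V : ℝ) ^ k := by positivity
  have hlow : (V : ℝ) ^ k ≤ MK K * H := by
    have h1 : (V : ℝ) ^ k ≤ H := by exact_mod_cast hH.2.2.1
    have h2 : (1 : ℝ) ≤ MK K := by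
      have h3 : 1 ≤ MK K := by
        unfold MK
        omega
      exact_mod_cast h3
    nlinarith [Nat.cast_nonneg (α := ℝ) H]
  have hupp : (MK K : ℝ) * H ≤ B0 * (V : ℝ) ^ k := by
    have h1 : H ≤ 2 ^ k * V ^ k := by
      refine hH.2.2.2.trans ?_
      rw [← mul_pow]
      exact Nat.pow_le_pow_left (by omega) k
    have h2 : (H : ℝ) ≤ 2 ^ k * (V : ℝ) ^ k := by exact_mod_cast h1
    have h3 : ((B0 : ℕ) : ℝ) = MK K * 2 ^ k := by
      rw [hB0]
      push_cast
      ring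
    rw [h3, mul_assoc]
    exact mul_le_mul_of_nonneg_left h2 (Nat.cast_nonneg _)
  have hHpos : (0 : ℝ) < (H : ℝ) := by
    exact_mod_cast (lt_of_lt_of_le (by omega : 0 < t) htH)
  set B1 := (box K s (k * m) H).filter fun f => (∀ v ∈ S, HasZeroC f (v.adicCompletion K)) ∧
        csig k (cred (Ideal.span {(WW m0 : 𝓞 K)}) f) < σ₀ with hB1
  set B2 : InfinitePlace K → Finset (Mon s (k * m) → 𝓞 K) := fun v =>
    (box K s (k * m) H).filter fun f => BadC (τ v) (cemb (uu v H) f) with hB2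
  have hsub : ((box K s (k * m) H).filter fun f =>
        (∀ v : InfinitePlace K, HasZeroC f v.Completion) ∧
        (∀ v ∈ S, HasZeroC f (v.adicCompletion K)) ∧
        NLC A c t V H κ (WW m0) f < γ * EC (dg K) s k m c t V H) ⊆
          B1 ∪ Finset.univ.biUnion B2 := by
    intro f hf
    rw [Finset.mem_filter] at hf
    obtain ⟨hf1, hf2, hf3, hf4⟩ := hf
    by_contra hcon
    rw [Finset.mem_union, not_or, hB1, Finset.mem_filter, Finset.mem_biUnion] at hcon
    obtain ⟨hc1, hc2⟩ := hcon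
    have h1 : σ₀ ≤ csig k (cred (Ideal.span {(WW m0 : 𝓞 K)}) f) := by
      by_contra h2
      exact hc1 ⟨hf1, hf3, not_le.1 h2⟩
    have h2 : ∀ v, ¬ BadC (τ v) (cemb (uu v H) f) := fun v h3 =>
      hc2 ⟨v, Finset.mem_univ v, by rw [hB2]; exact Finset.mem_filter.2 ⟨hf1, h3⟩⟩
    refine absurd hf4 (not_lt.2 (hD t ht1 V H hH f hf1 h1 fun v => ?_))
    obtain ⟨-, -, hjj, hq, hcb, -⟩ := hW K v
    have hnV : ‖((V ^ k : ℕ) : v.Completion)‖ = (V : ℝ) ^ k := by
      have h3 := hq ((V ^ k : ℕ) : ℚ)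
      rw [Rat.cast_natCast, Rat.cast_natCast] at h3
      rw [h3, abs_of_nonneg (Nat.cast_nonneg _)]
      push_cast
      ring
    have hnMH : ‖((MK K * H : ℕ) : v.Completion)‖ = MK K * H := by
      have h3 := hq ((MK K * H : ℕ) : ℚ)
      rw [Rat.cast_natCast, Rat.cast_natCast] at h3
      rw [h3, abs_of_nonneg (Nat.cast_nonneg _)]
      push_cast
      ring
    have hMH0 : ((MK K * H : ℕ) : v.Completion) ≠ 0 := by
      intro h3
      rw [h3, norm_zero] at hnMH
      linarith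
    have hV0 : ((V ^ k : ℕ) : v.Completion) ≠ 0 := by
      intro h3
      rw [h3, norm_zero] at hnV
      linarith
    refine LLSC_mono (hδle v) (hUv v _ (fun μ => ?_) (fun h3 => h2 v ?_) ?_)
    · have h3 : f μ ∈ cb K H := by
        have h4 := hf1
        unfold box at h4
        rw [Fintype.mem_piFinset] at h4
        exact h4 μ
      have h4 := hcb H _ h3
      show ‖uk v k V * jj v.Completion (f μ)‖ ≤ B0
      unfold uk
      rw [norm_mul, norm_inv, hnV, hjj, inv_mul_le_iff₀ hVr, mul_comm]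
      exact h4.trans hupp
    · refine LLSC_bad (a := ((MK K * H : ℕ) : v.Completion) * ((V ^ k : ℕ) : v.Completion)⁻¹) ?_
        ?_ h3
      · rw [norm_mul, norm_inv, hnV, hnMH, ← div_eq_mul_inv, le_div_iff₀ hVr, one_mul]
        exact hlow
      · funext μ
        show uk v k V * jj v.Completion (f μ) = _ * (uu v H * jj v.Completion (f μ))
        unfold uk uu
        field_simp
    · obtain ⟨x, hx0, w, hx⟩ := hf2 v
      refine ⟨x, hx0, (V : v.Completion)⁻¹ * w, ?_⟩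
      have h3 : ev (cemb (uk v k V) f) x =
          uk v k V * ev (fun μ => algebraMap K v.Completion (f μ : K)) x :=
        ev_smul (uk v k V) (fun μ => algebraMap K v.Completion (f μ : K)) x
      rw [h3, hx, mul_pow]
      unfold uk
      push_cast
      rw [inv_pow]
  have h1 : (((box K s (k * m) H).filter fun f =>
        (∀ v : InfinitePlace K, HasZeroC f v.Completion) ∧
        (∀ v ∈ S, HasZeroC f (v.adicCompletion K)) ∧
        NLC A c t V H κ (WW m0) f < γ * EC (dg K) s k m c t V H).card : ℝ) ≤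
      (B1.card : ℝ) + ∑ v, ((B2 v).card : ℝ) := by
    have h2 := ((Finset.card_le_card hsub).trans (Finset.card_union_le _ _)).trans
      (Nat.add_le_add_left Finset.card_biUnion_le _)
    exact_mod_cast h2
  have h2 : ∑ v, ((B2 v).card : ℝ) ≤ ε / 2 * ((box K s (k * m) H).card : ℝ) := by
    have h3 : ∀ v ∈ (Finset.univ : Finset (InfinitePlace K)), ((B2 v).card : ℝ) ≤
        ε / (2 * nv) * ((box K s (k * m) H).card : ℝ) := fun v _ =>
      hBv v H ((htH1 v).trans htH)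
    refine (Finset.sum_le_sum h3).trans (le_of_eq ?_)
    rw [Finset.sum_const, nsmul_eq_mul, Finset.card_univ, ← hnv]
    field_simp
  have h3 : (B1.card : ℝ) ≤ ε / 2 * ((box K s (k * m) H).card : ℝ) := hS
  linarith

theorem thm_LLCB (hL : St_LLSC) : St_LLCB := by
  intro K _ _ s k m hH A c v hA hc hv ε hε
  obtain ⟨γ, hγ, S, m2, h⟩ := hL K s k m hH A c v hA hc hv ε hε
  refine ⟨γ, hγ, m2, fun m0 hm0 κ hκ => ?_⟩
  obtain ⟨t0, h0⟩ := h m0 hm0 κ hκ
  refine ⟨t0, fun t ht V H hHR => ?_⟩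
  refine le_trans ?_ (h0 t ht V H hHR)
  refine Nat.cast_le.2 (Finset.card_le_card fun F hF => ?_)
  rw [Finset.mem_filter] at hF ⊢
  exact ⟨hF.1, hF.2.1.1, fun v _ => hF.2.1.2 v, hF.2.2⟩

end Pool.Agent.RHCB
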