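import Pool.Agent.RHCB.StB
import Pool.Agent.RHKB.LP

/-!
RHCB [LPCB]: positivity (port of RHKB/LP.lean).
-/

set_option autoImplicit false

namespace Pool.Agent.RHCB

open scoped BigOperators
open Classical NumberField IsDedekindDomain
open Pool.Agent.RHP (Mon mono ev Sys Prim pd WB WW)
open Pool.Agent.RHK Pool.Agent.RHC
open Pool.Agent.RHKB (mI hh jj qv MK uu BadK LP_near LP_one)

theorem LPCB_mono {L : Type} [NormedField L] {s d k : ℕ} {f : Mon s d → L} {ρ B B' δ δ' r : ℝ}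
    (hB : B ≤ B') (h : δ' ≤ δ) (hf : NZC k f ρ B δ r) : NZC k f ρ B' δ' r := by
  obtain ⟨z, j, h1, h2, h3⟩ := hf
  exact ⟨z, j, h1, h2.trans hB, fun κ hκ => h3 κ fun l => (hκ l).trans h⟩

theorem LPCB_map {A B : Type} [CommRing A] [CommRing B] (s d : ℕ) (φ : A →+* B) (μ : Mon s d) :
    φ (f00 A s d μ) = f00 B s d μ := by
  unfold f00
  split_ifs
  · exact map_one φ
  · exact map_zero φ

theorem LPCB_norm {L : Type} [NormedField L] (s d : ℕ) (μ : Mon s d) : ‖f00 L s d μ‖ ≤ 1 := by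
  unfold f00
  split_ifs
  · rw [norm_one]
  · rw [norm_zero]
    exact zero_le_one

theorem LPCB_pow (k : ℕ) (x : ℝ) (h0 : 0 ≤ x) (h1 : x ≤ 1) :
    (1 + x) ^ k ≤ 1 + (2 ^ k - 1) * x := by
  induction k with
  | zero => simp
  | succ n ih =>
    have h2 : (1 : ℝ) ≤ 2 ^ n := one_le_pow₀ (by norm_num)
    calc (1 + x) ^ (n + 1) = (1 + x) ^ n * (1 + x) := pow_succ _ _
      _ ≤ (1 + (2 ^ n - 1) * x) * (1 + x) := mul_le_mul_of_nonneg_right ih (by linarith)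
      _ ≤ 1 + (2 ^ (n + 1) - 1) * x := by
        have h3 : (2 ^ n - 1) * (x * x) ≤ (2 ^ n - 1) * x :=
          mul_le_mul_of_nonneg_left (mul_le_of_le_one_left h0 h1) (by linarith)
        rw [pow_succ]
        nlinarith

/-- `0 ≤ H / V^k - 1 ≤ 2^k / V` -/
theorem LPCB_quot {k V H : ℕ} (hV : 0 < V) (h1 : V ^ k ≤ H) (h2 : H ≤ (V + 1) ^ k) :
    |(H : ℝ) / (V : ℝ) ^ k - 1| ≤ 2 ^ k / (V : ℝ) ∧ (H : ℝ) / (V : ℝ) ^ k ≤ 2 ^ k := by
  have hV' : (0 : ℝ) < V := by exact_mod_cast hV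
  have hV1 : (1 : ℝ) ≤ V := by exact_mod_cast hV
  have h3 : (V : ℝ) ^ k ≤ H := by exact_mod_cast h1
  have h4 : (H : ℝ) ≤ ((V : ℝ) + 1) ^ k := by exact_mod_cast h2
  have h5 : (H : ℝ) / (V : ℝ) ^ k ≤ (1 + 1 / V) ^ k := by
    rw [div_le_iff₀ (by positivity), ← mul_pow]
    refine h4.trans (le_of_eq ?_)
    congr 1
    field_simp
  have h6 : 1 ≤ (H : ℝ) / (V : ℝ) ^ k := by
    rw [le_div_iff₀ (by positivity), one_mul]
    exact h3
  have h7 : (1 : ℝ) / V ≤ 1 := by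
    rw [div_le_one hV']
    exact hV1
  have h8 := LPCB_pow k (1 / V) (by positivity) h7
  have h9 : (1 : ℝ) ≤ 2 ^ k := one_le_pow₀ (by norm_num)
  refine ⟨?_, ?_⟩
  · rw [abs_of_nonneg (by linarith)]
    calc (H : ℝ) / (V : ℝ) ^ k - 1 ≤ (2 ^ k - 1) * (1 / V) := by linarith
      _ ≤ 2 ^ k * (1 / V) := mul_le_mul_of_nonneg_right (by linarith) (by positivity)
      _ = 2 ^ k / V := by rw [mul_one_div]
  · refine h5.trans (pow_le_pow_left₀ (by positivity) (by linarith) k)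

variable {K : Type} [Field K] [NumberField K]

/-- roots of natural numbers in the completion -/
theorem LPCB_root (v : InfinitePlace K) (k n : ℕ) (hk : k ≠ 0) (hn : 0 < n) :
    ∃ a : v.Completion, a ^ k * (n : v.Completion) = 1 := by
  have hn' : (0 : ℝ) < n := by exact_mod_cast hn
  obtain ⟨r, hr⟩ : ∃ r : ℝ, r ^ k * n = 1 := by
    refine ⟨((n : ℝ)⁻¹) ^ ((k : ℝ)⁻¹), ?_⟩
    rw [Real.rpow_inv_natCast_pow (by positivity) hk, inv_mul_cancel₀ hn'.ne']
  by_cases hv : v.IsReal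
  · let e := InfinitePlace.Completion.ringEquivRealOfIsReal hv
    refine ⟨e.symm r, e.injective ?_⟩
    rw [map_mul, map_pow, map_natCast, map_one, RingEquiv.apply_symm_apply, hr]
  · let e := InfinitePlace.Completion.ringEquivComplexOfIsComplex
      (InfinitePlace.not_isReal_iff_isComplex.1 hv)
    refine ⟨e.symm (r : ℂ), e.injective ?_⟩
    rw [map_mul, map_pow, map_natCast, map_one, RingEquiv.apply_symm_apply]
    exact_mod_cast hr

theorem LPCB_near (hW : RHKB.St_PLW) (v : InfinitePlace K) (s k d V H : ℕ) (hV : 0 < V)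
    (h1 : V ^ k ≤ H) (h2 : H ≤ (V + 1) ^ k) (f : Mon s d → 𝓞 K) (δ : ℝ) (hδ : 0 ≤ δ)
    (h : ∀ μ j, |(co (f μ) j : ℝ) / H - w00C K s d μ j| ≤ δ) (a : v.Completion)
    (ha : a ^ k * ((cz (1 : 𝓞 K) : ℕ) : v.Completion) = 1) (μ : Mon s d) :
    ‖cemb (uk v k V) f μ - a ^ k * f00 v.Completion s d μ‖ ≤ 2 ^ k * (δ * MK K) + 2 ^ k / V := by
  obtain ⟨-, -, h3, h4, -, -⟩ := hW K v
  have : CharZero v.Completion :=
    charZero_of_injective_algebraMap (algebraMap K v.Completion).injective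
  have hnat : ∀ n : ℕ, ‖(n : v.Completion)‖ = n := by
    intro n
    have h5 := h4 (n : ℚ)
    rw [Rat.cast_natCast, Rat.cast_natCast, abs_of_nonneg (Nat.cast_nonneg _)] at h5
    exact h5
  have hne : ∀ n : ℕ, 0 < n → (n : v.Completion) ≠ 0 := by
    intro n hn
    exact_mod_cast hn.ne'
  have hH : 0 < H := lt_of_lt_of_le (pow_pos hV k) h1
  have hMK : 0 < MK K := by unfold MK; omega
  have hc : 0 < cz (1 : 𝓞 K) := LP_one
  have hH' := hne H hH
  have hV' := hne V hV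
  have hM' := hne (MK K) hMK
  have hc' := hne (cz (1 : 𝓞 K)) hc
  have h8 := LP_near hW v H hH (f μ) (f00 (𝓞 K) s d μ) δ (h μ)
  have h9 : jj v.Completion (f00 (𝓞 K) s d μ) = f00 v.Completion s d μ :=
    LPCB_map s d (jj v.Completion) μ
  rw [h9] at h8
  obtain ⟨h10, h11⟩ := LPCB_quot hV h1 h2
  have ha' : a ^ k = ((cz (1 : 𝓞 K) : ℕ) : v.Completion)⁻¹ := eq_inv_of_mul_eq_one_left ha
  obtain ⟨g, hg⟩ : ∃ g, g = f00 v.Completion s d μ := ⟨_, rfl⟩
  have hg1 : ‖g‖ ≤ 1 := by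
    rw [hg]
    exact LPCB_norm s d μ
  rw [← hg] at h8 ⊢
  have h12 : cemb (uk v k V) f μ - a ^ k * g =
      (((H : ℚ) / ((V : ℚ) ^ k * (cz (1 : 𝓞 K) : ℚ)) : ℚ) : v.Completion) *
        (((MK K * cz (1 : 𝓞 K) : ℕ) : v.Completion) * (uu v H * jj v.Completion (f μ)) - g) +
      ((((H : ℚ) / (V : ℚ) ^ k - 1) * (cz (1 : 𝓞 K) : ℚ)⁻¹ : ℚ) : v.Completion) * g := by
    unfold cemb uk uu
    rw [ha']
    push_cast
    field_simp
    ring
  rw [h12]
  refine (norm_add_le _ _).trans (add_le_add ?_ ?_)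
  · rw [norm_mul, h4]
    push_cast
    rw [abs_of_nonneg (by positivity)]
    have hcr : (0 : ℝ) < cz (1 : 𝓞 K) := by exact_mod_cast hc
    calc (H : ℝ) / ((V : ℝ) ^ k * (cz (1 : 𝓞 K) : ℝ)) *
          ‖((MK K : v.Completion) * (cz (1 : 𝓞 K) : v.Completion)) *
            (uu v H * jj v.Completion (f μ)) - g‖
        ≤ (H : ℝ) / ((V : ℝ) ^ k * (cz (1 : 𝓞 K) : ℝ)) * (cz (1 : 𝓞 K) * (δ * MK K)) := by
          refine mul_le_mul_of_nonneg_left ?_ (by positivity)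
          refine le_trans (le_of_eq ?_) h8
          push_cast
          rfl
      _ = (H : ℝ) / (V : ℝ) ^ k * (δ * MK K) := by
          field_simp
      _ ≤ 2 ^ k * (δ * MK K) := mul_le_mul_of_nonneg_right h11 (by positivity)
  · rw [norm_mul, h4]
    push_cast
    rw [abs_mul, abs_inv, abs_of_nonneg (a := (cz (1 : 𝓞 K) : ℝ)) (by positivity)]
    have hcr : (1 : ℝ) ≤ cz (1 : 𝓞 K) := by exact_mod_cast hc
    calc |(H : ℝ) / (V : ℝ) ^ k - 1| * (cz (1 : 𝓞 K) : ℝ)⁻¹ * ‖g‖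
        ≤ (2 ^ k / V) * 1 * 1 := by
          refine mul_le_mul (mul_le_mul h10 (inv_le_one_of_one_le₀ hcr) (by positivity)
            (by positivity)) hg1 (norm_nonneg _) (by positivity)
      _ = 2 ^ k / V := by ring

theorem thm_LPCB (hS : St_SIGPOSC) (hN : St_NZ0C) (hW : RHKB.St_PLW) (hD : St_DETC) :
    St_LPCB := by
  intro K _ _ s k m hyp A c v hA hc hv
  have hk0 : k ≠ 0 := by have := hyp.hk; omega
  have hroot : ∀ v : InfinitePlace K, ∃ a : v.Completion,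
      a ^ k * ((cz (1 : 𝓞 K) : ℕ) : v.Completion) = 1 := fun v =>
    LPCB_root v k _ hk0 LP_one
  choose a ha using hroot
  have hv' : ∀ v : InfinitePlace K, ∃ δ : ℝ, 0 < δ ∧ ∀ f : Mon s (k * m) → v.Completion,
      (∀ μ, ‖f μ - a v ^ k * f00 v.Completion s (k * m) μ‖ ≤ δ) →
        NZC k f (3 / 4) 1 δ (1 / 16) := by
    intro v
    obtain ⟨h1, h2, h3, h4, h5, h6⟩ := hW K v
    have h7 : ‖((3 / 4 : ℚ) : v.Completion)‖ = 3 / 4 := by
      rw [h4]
      push_cast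
      rw [abs_of_nonneg (by norm_num)]
    have h8 : ((3 / 4 : ℚ) : v.Completion) ≠ 0 := by
      intro h9
      rw [h9, norm_zero] at h7
      norm_num at h7
    have : CharZero v.Completion :=
      charZero_of_injective_algebraMap (algebraMap K v.Completion).injective
    have hkne : (k : v.Completion) ≠ 0 := by exact_mod_cast hk0
    have ha0 : a v ≠ 0 := by
      intro h9
      have h10 := ha v
      rw [h9, zero_pow hk0, zero_mul] at h10
      exact zero_ne_one h10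
    have ha1 : ‖a v‖ ≤ 1 := by
      have h9 := congrArg norm (ha v)
      rw [norm_mul, norm_pow, norm_one] at h9
      have h10 : ‖((cz (1 : 𝓞 K) : ℕ) : v.Completion)‖ = (cz (1 : 𝓞 K) : ℝ) := by
        have h11 := h4 ((cz (1 : 𝓞 K) : ℕ) : ℚ)
        rw [Rat.cast_natCast, Rat.cast_natCast, abs_of_nonneg (Nat.cast_nonneg _)] at h11
        exact h11
      rw [h10] at h9
      have h11 : (1 : ℝ) ≤ cz (1 : 𝓞 K) := by exact_mod_cast LP_one (K := K)
      have h12 : ‖a v‖ ^ k ≤ 1 := by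
        calc ‖a v‖ ^ k = ‖a v‖ ^ k * 1 := (mul_one _).symm
          _ ≤ ‖a v‖ ^ k * (cz (1 : 𝓞 K) : ℝ) :=
              mul_le_mul_of_nonneg_left h11 (by positivity)
          _ = 1 := h9
      exact (pow_le_one_iff_of_nonneg (norm_nonneg _) hk0).1 h12
    obtain ⟨δ, hδ, h9⟩ := hN v.Completion h2 s k m (by have := hyp.hs; omega)
      (by have := hyp.hk; omega) hyp.hm hkne (a v) _ ha0 h8 (1 / 16) (by norm_num)
    rw [h7] at h9
    refine ⟨δ, hδ, fun f hf => LPCB_mono ?_ le_rfl (h9 f hf)⟩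
    calc ‖a v‖ * (3 / 4) ^ m ≤ 1 * 1 :=
          mul_le_mul ha1 (pow_le_one₀ (by norm_num) (by norm_num)) (by positivity) zero_le_one
      _ = 1 := one_mul 1
  choose δv hδv hNv using hv'
  obtain ⟨δ, hδ, hδle⟩ : ∃ δ : ℝ, 0 < δ ∧ ∀ v, δ ≤ δv v := by
    obtain ⟨v0, hv0⟩ := Finite.exists_min δv
    exact ⟨δv v0, hδv v0, hv0⟩
  obtain ⟨σ₀, hσ, m2, hS⟩ := hS K s k m hyp
  obtain ⟨γ, hγ, m3, hD⟩ := hD K s k m hyp A 1 c v (by omega) hc hv δ σ₀ hδ hσ
  have hMK : (0 : ℝ) < MK K := by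
    have h1 : 0 < MK K := by unfold MK; omega
    exact_mod_cast h1
  obtain ⟨c', hc', hS⟩ := hS (δ / (2 ^ (k + 1) * MK K)) (by positivity)
  refine ⟨γ, hγ, c', hc', max m2 m3, fun m0 hm0 κ hκ => ?_⟩
  obtain ⟨H0, hS⟩ := hS m0 ((le_max_left _ _).trans hm0)
  obtain ⟨t1, hD⟩ := hD m0 ((le_max_right _ _).trans hm0) κ hκ
  obtain ⟨t2, ht2⟩ := exists_nat_ge (2 ^ (k + 1) / δ)
  refine ⟨max (max t1 1) (max H0 t2), fun t ht V H hVH => ?_⟩
  have ht1 : t1 ≤ t := ((le_max_left _ _).trans (le_max_left _ _)).trans ht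
  have htone : 1 ≤ t := ((le_max_right _ _).trans (le_max_left _ _)).trans ht
  have htH0 : H0 ≤ t := ((le_max_left _ _).trans (le_max_right _ _)).trans ht
  have htt2 : t2 ≤ t := ((le_max_right _ _).trans (le_max_right _ _)).trans ht
  obtain ⟨hV1, hV2, hV3, hV4⟩ := hVH
  have htV : t ≤ V := (Nat.le_self_pow (by omega) t).trans hV1
  have hVH' : V ≤ H := (Nat.le_self_pow hk0 V).trans hV3
  have hV0 : 0 < V := by omega
  refine (hS H (by omega)).trans ?_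
  have hVr : 2 ^ k / (V : ℝ) ≤ δ / 2 := by
    have h1 : (t2 : ℝ) ≤ V := by exact_mod_cast htt2.trans htV
    have h2 : 2 ^ (k + 1) / δ ≤ (V : ℝ) := ht2.trans h1
    have h3 : (0 : ℝ) < V := by exact_mod_cast hV0
    rw [div_le_iff₀ hδ] at h2
    rw [div_le_iff₀ h3]
    rw [pow_succ] at h2
    linarith
  have hsub : ((box K s (k * m) H).filter fun f =>
      (∀ μ j, |(co (f μ) j : ℝ) / H - w00C K s (k * m) μ j| ≤ δ / (2 ^ (k + 1) * MK K)) ∧
        σ₀ ≤ csig k (cred (Ideal.span {(WW m0 : 𝓞 K)}) f)) ⊆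
      (box K s (k * m) H).filter fun f =>
        γ * EC (dg K) s k m c t V H ≤ NLC A c t V H κ (WW m0) f := by
    intro f hf
    rw [Finset.mem_filter] at hf
    obtain ⟨hf1, hf2, hf3⟩ := hf
    rw [Finset.mem_filter]
    refine ⟨hf1, hD t ht1 V H ⟨hV1, hV2, hV3, hV4⟩ f hf1 hf3 fun w => ?_⟩
    rw [Nat.cast_one]
    refine LPCB_mono le_rfl (hδle w) (hNv w _ fun μ => ?_)
    refine (LPCB_near hW w s k (k * m) V H hV0 hV3 hV4 f _ (by positivity) hf2 (a w) (ha w)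
      μ).trans (le_trans ?_ (hδle w))
    have h1 : 2 ^ k * (δ / (2 ^ (k + 1) * MK K) * (MK K : ℝ)) = δ / 2 := by
      rw [pow_succ]
      field_simp
    rw [h1]
    linarith
  exact_mod_cast Finset.card_le_card hsub

end Pool.Agent.RHCB
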