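import Pool.Agent.RHCB.StB

/-!
RHCB, [NPRC]: the points with nonprimitive `x` in a union of boxes (helper21).
-/

set_option autoImplicit false

namespace Pool.Agent.RHCB

open scoped BigOperators
open Classical NumberField IsDedekindDomain
open Pool.Agent.RHP (Mon mono ev Sys Prim pd WB WW)
open Pool.Agent.RHK Pool.Agent.RHC
open Pool.Agent.RHKB (mI hh jj qv MK uu BadK)

theorem NPRC_jj {K : Type} [Field K] [NumberField K] (v : InfinitePlace K) (a : 𝓞 K) :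
    ‖jj v.Completion a‖ = av v a :=
  InfinitePlace.Completion.norm_coe v _

/-- the number of the elements of a residue class in a ball -/
theorem NPRC_cnt (K : Type) [Field K] [NumberField K] (hC : Pool.Agent.RHKB.St_CUP) :
    ∃ C : ℝ, 1 ≤ C ∧ ∀ W : ℕ, 0 < W → ∀ T : ℝ, (W : ℝ) ≤ T →
      ∀ (y : (v : InfinitePlace K) → v.Completion) (r : 𝓞 K) (S : Finset (𝓞 K)),
      (∀ a ∈ S, (∀ v : InfinitePlace K, ‖jj v.Completion a - y v‖ ≤ T) ∧ (W : 𝓞 K) ∣ a - r) →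
      (S.card : ℝ) ≤ (C * (T / W)) ^ dg K := by
  obtain ⟨C0, hC0, h⟩ := hC K
  refine ⟨C0 + 1, by linarith, fun W hW T hT y r S hS => ?_⟩
  have hWr : (0 : ℝ) < W := by exact_mod_cast hW
  have hT0 : 0 ≤ T := hWr.le.trans hT
  have h2 := h (Ideal.span {(W : 𝓞 K)}) W hWr (by
    rw [Ideal.absNorm_span_natCast, RingOfIntegers.rank]
    push_cast
    exact le_rfl) T hT0 y r
  have h3 : (S.card : ℝ) ≤ ({a : 𝓞 K | (∀ v : InfinitePlace K, ‖jj v.Completion a - y v‖ ≤ T) ∧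
      a - r ∈ Ideal.span {(W : 𝓞 K)}}.ncard : ℝ) := by
    have h4 : (S : Set (𝓞 K)) ⊆ {a : 𝓞 K | (∀ v : InfinitePlace K,
        ‖jj v.Completion a - y v‖ ≤ T) ∧ a - r ∈ Ideal.span {(W : 𝓞 K)}} := by
      intro a ha
      exact ⟨(hS a ha).1, Ideal.mem_span_singleton.2 (hS a ha).2⟩
    have h5 := Set.ncard_le_ncard h4 h2.1
    rw [Set.ncard_coe_finset] at h5
    exact_mod_cast h5
  refine (h3.trans h2.2).trans (pow_le_pow_left₀ (by positivity) ?_ _)
  have h4 : 1 ≤ T / W := by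
    rw [le_div_iff₀ hWr, one_mul]
    exact hT
  calc C0 * T / W + 1 ≤ C0 * (T / W) + T / W := by
        rw [mul_div_assoc]
        linarith
    _ = _ := by ring

theorem NPRC_num (d s : ℕ) (hd : 1 ≤ d) (hs : 2 ≤ s) (C1 C3 c m0 W θ X Q A : ℝ) (hC1 : 0 < C1)
    (hC3 : 1 ≤ C3) (hW : 0 < W) (hθ : 0 < θ) (hX : 1 ≤ X) (hQ : 0 < Q)
    (hA : 0 < A) :
    C1 / m0 * (θ * X / W) ^ (d * s) * (c * (C3 * (θ * Q / W)) ^ d) +
      C1 * X ^ d * (X * W / (θ * X)) ^ (d * s) * (C3 * (A * Q / 1)) ^ d ≤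
    (C1 * C3 ^ d * (c / m0) * (θ / W) ^ (d * (s + 1)) +
      C1 * C3 ^ d * A ^ d / X * (W / θ) ^ (d * s)) * (X ^ s * Q) ^ d := by
  have hX0 : 0 < X := by linarith
  have e1 : X * W / (θ * X) = W / θ := by field_simp
  have e2 : θ * X / W = θ / W * X := by ring
  have e3 : θ * Q / W = θ / W * Q := by ring
  rw [e1, e2, e3, div_one, add_mul]
  refine add_le_add (le_of_eq ?_) ?_
  · rw [mul_pow, mul_pow, mul_pow, mul_pow, ← pow_mul, mul_comm s d, mul_add, mul_one, pow_add]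
    ring
  · have h1 : X ^ d * X ≤ X ^ (s * d) := by
      calc X ^ d * X = X ^ (d + 1) := (pow_succ X d).symm
        _ ≤ X ^ (s * d) := pow_le_pow_right₀ hX (by nlinarith)
    have h2 : X ^ d ≤ X ^ (s * d) / X := by rw [le_div_iff₀ hX0]; exact h1
    have h3 : 0 ≤ C1 * (W / θ) ^ (d * s) * (C3 * (A * Q)) ^ d := by positivity
    calc C1 * X ^ d * (W / θ) ^ (d * s) * (C3 * (A * Q)) ^ d
        = C1 * (W / θ) ^ (d * s) * (C3 * (A * Q)) ^ d * X ^ d := by ring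
      _ ≤ C1 * (W / θ) ^ (d * s) * (C3 * (A * Q)) ^ d * (X ^ (s * d) / X) :=
          mul_le_mul_of_nonneg_left h2 h3
      _ = _ := by
          rw [mul_pow C3, mul_pow A Q, mul_pow (X ^ s) Q, ← pow_mul]
          ring

theorem thm_NPRC (hN : Pool.Agent.RHKB.St_NPRB) (hC : Pool.Agent.RHKB.St_CUP) : St_NPRC := by
  intro K _ _ s hs
  obtain ⟨C1, hC1, hN1⟩ := hN K s hs
  obtain ⟨C3, hC3, hcnt⟩ := NPRC_cnt K hC
  have hdg : 1 ≤ dg K := Module.finrank_pos
  refine ⟨C1 * C3 ^ dg K, by positivity, ?_⟩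
  intro W m0 hW hm0 hcop ρ ω hρ A X Q θ hA hX hQ hθ0 hθ1 hWX hWQ ι _ y
  have hWr : (0 : ℝ) < W := by exact_mod_cast hW
  have hm0r : (0 : ℝ) < m0 := by exact_mod_cast hm0
  have hXr : (0 : ℝ) < X := by exact_mod_cast hX
  have hX1 : (1 : ℝ) ≤ X := by exact_mod_cast hX
  have hQr : (0 : ℝ) < Q := by exact_mod_cast hQ
  have hAr : (0 : ℝ) < A := by exact_mod_cast hA
  have hAQ : (1 : ℝ) ≤ A * Q := by
    have : 1 ≤ A * Q := Nat.mul_pos hA hQ
    exact_mod_cast this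
  -- the centres whose last disc contains `w`
  let I : 𝓞 K → ι → Prop := fun w i => ∀ v : InfinitePlace K,
    ‖jj v.Completion w - y i v 0‖ ≤ θ * Q
  obtain ⟨P, hP⟩ : ∃ P, P = (pb K ((A * Q : ℕ) : ℝ)).filter fun w => (W : 𝓞 K) ∣ w - ω :=
    ⟨_, rfl⟩
  obtain ⟨S, hS⟩ : ∃ S, S = (bx K s (X : ℝ) ×ˢ pb K ((A * Q : ℕ) : ℝ)).filter fun p =>
      p.1 ≠ 0 ∧ ¬ Prim p.1 ∧ (∀ l, (W : 𝓞 K) ∣ p.1 l - ρ l) ∧ (W : 𝓞 K) ∣ p.2 - ω ∧
        ∃ i, ∀ v : InfinitePlace K, (∀ l : Fin s,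
          ‖jj v.Completion (p.1 l) - y i v l.succ‖ ≤ θ * X) ∧
          ‖jj v.Completion p.2 - y i v 0‖ ≤ θ * Q := ⟨_, rfl⟩
  rw [← hS]
  -- one fibre
  have hfib : ∀ w ∈ P, ((S.filter fun p => p.2 = w).card : ℝ) ≤
      C1 / m0 * (θ * X / W) ^ (dg K * s) * ((Finset.univ.filter fun i => I w i).card : ℝ) +
        C1 * (X : ℝ) ^ dg K * ((X : ℝ) * W / (θ * X)) ^ (dg K * s) := by
    intro w _
    have h := hN1 W m0 hW hm0 hcop ρ hρ X (θ * X) (by positivity)
      (mul_le_of_le_one_left hXr.le hθ1) {i // I w i} (fun i v l => y i.1 v l.succ)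
    rw [Fintype.card_subtype] at h
    have h2 : (S.filter fun p => p.2 = w).card ≤
        ((bx K s (X : ℝ)).filter fun x => x ≠ 0 ∧ ¬ Prim x ∧ (∀ l, (W : 𝓞 K) ∣ x l - ρ l) ∧
          ∃ i : {i // I w i}, ∀ (v : InfinitePlace K) (l : Fin s),
            ‖jj v.Completion (x l) - y i.1 v l.succ‖ ≤ θ * X).card := by
      refine Finset.card_le_card_of_injOn (fun p => p.1) (fun p hp => ?_) fun p hp p' hp' hpp => ?_
      · rw [Finset.mem_coe, Finset.mem_filter, hS, Finset.mem_filter, Finset.mem_product] at hp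
        obtain ⟨⟨⟨h3, _⟩, h4, h5, h6, _, i, h7⟩, h8⟩ := hp
        rw [Finset.mem_coe, Finset.mem_filter]
        exact ⟨h3, h4, h5, h6, ⟨i, fun v => by rw [← h8]; exact (h7 v).2⟩, fun v l => (h7 v).1 l⟩
      · rw [Finset.mem_coe, Finset.mem_filter] at hp hp'
        exact Prod.ext hpp (hp.2.trans hp'.2.symm)
    have h3 : ((S.filter fun p => p.2 = w).card : ℝ) ≤
        (((bx K s (X : ℝ)).filter fun x => x ≠ 0 ∧ ¬ Prim x ∧ (∀ l, (W : 𝓞 K) ∣ x l - ρ l) ∧
          ∃ i : {i // I w i}, ∀ (v : InfinitePlace K) (l : Fin s),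
            ‖jj v.Completion (x l) - y i.1 v l.succ‖ ≤ θ * X).card : ℝ) := by
      exact_mod_cast h2
    exact (h3.trans h).trans (le_of_eq (by ring))
  -- the number of the `w`
  have hPc : (P.card : ℝ) ≤ (C3 * ((A : ℝ) * Q / 1)) ^ dg K := by
    have h := hcnt 1 one_pos (A * Q) (by rw [Nat.cast_one]; exact hAQ) (fun v => 0) 0 P (by
      intro a ha
      rw [hP, Finset.mem_filter] at ha
      refine ⟨fun v => ?_, ?_⟩
      · rw [sub_zero, NPRC_jj]
        have := mem_pb.1 ha.1 v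
        push_cast at this
        exact this
      · rw [Nat.cast_one]
        exact one_dvd _)
    rwa [Nat.cast_one] at h
  -- the double sum
  have hdbl : ∑ w ∈ P, ((Finset.univ.filter fun i => I w i).card : ℝ) ≤
      Fintype.card ι * (C3 * (θ * Q / W)) ^ dg K := by
    have h2 : ∑ w ∈ P, ((Finset.univ.filter fun i => I w i).card : ℝ) =
        ∑ i : ι, ((P.filter fun w => I w i).card : ℝ) := by
      have h3 : ∀ w ∈ P, ((Finset.univ.filter fun i => I w i).card : ℝ) =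
          ∑ i : ι, if I w i then (1 : ℝ) else 0 := by
        intro w _
        rw [Finset.card_filter]
        push_cast
        rfl
      rw [Finset.sum_congr rfl h3, Finset.sum_comm]
      refine Finset.sum_congr rfl fun i _ => ?_
      rw [Finset.card_filter]
      push_cast
      rfl
    rw [h2]
    have h4 : ∀ i ∈ (Finset.univ : Finset ι), ((P.filter fun w => I w i).card : ℝ) ≤
        (C3 * (θ * Q / W)) ^ dg K := by
      intro i _
      refine hcnt W hW (θ * Q) hWQ (fun v => y i v 0) ω _ fun a ha => ?_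
      rw [Finset.mem_filter, hP, Finset.mem_filter] at ha
      exact ⟨ha.2, ha.1.2⟩
    refine (Finset.sum_le_sum h4).trans ?_
    rw [Finset.sum_const, nsmul_eq_mul, Finset.card_univ]
  have hmaps : Set.MapsTo (fun p : (Fin s → 𝓞 K) × 𝓞 K => p.2) (S : Set ((Fin s → 𝓞 K) × 𝓞 K))
      (P : Set (𝓞 K)) := by
    intro p hp
    rw [Finset.mem_coe, hS, Finset.mem_filter, Finset.mem_product] at hp
    rw [Finset.mem_coe, hP, Finset.mem_filter]
    exact ⟨hp.1.2, hp.2.2.2.2.1⟩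
  have hcard : (S.card : ℝ) = ∑ w ∈ P, ((S.filter fun p => p.2 = w).card : ℝ) := by
    rw [Finset.card_eq_sum_card_fiberwise hmaps]
    push_cast
    rfl
  rw [hcard]
  refine (Finset.sum_le_sum hfib).trans ?_
  rw [Finset.sum_add_distrib, ← Finset.mul_sum, Finset.sum_const, nsmul_eq_mul,
    mul_comm (P.card : ℝ)]
  refine le_trans (add_le_add (mul_le_mul_of_nonneg_left hdbl (by positivity))
    (mul_le_mul_of_nonneg_left hPc (by positivity))) ?_
  exact NPRC_num (dg K) s hdg hs C1 C3 (Fintype.card ι) m0 W θ X Q A hC1 hC3 hWr hθ0 hX1 hQr hAr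

end Pool.Agent.RHCB
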