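import Pool.Agent.RHCB.StB
import Pool.Agent.RHP.F00

/-!
RHCB, module NZ0C: points of the covers near the explicit one (helper55).
Statement and proof: see `St_NZ0C` in `Pool/Agent/RHCB/StB.lean`.
-/

set_option autoImplicit false

namespace Pool.Agent.RHCB

open scoped BigOperators
open Classical NumberField IsDedekindDomain
open Pool.Agent.RHP (Mon mono ev Sys Prim pd WB WW)
open Pool.Agent.RHK Pool.Agent.RHC
open Pool.Agent.RHKB (mI hh jj qv MK uu BadK)

/-- the exponent vector of `x_last ^ d` -/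
def NZ0C_mon {s : ℕ} (hs : 0 < s) (d : ℕ) : Mon s d :=
  ⟨fun l => if l = RHP.lst hs then d else 0, by
    rw [Finset.Nat.mem_antidiagonalTuple, Finset.sum_ite_eq' Finset.univ (RHP.lst hs) fun _ => d,
      if_pos (Finset.mem_univ _)]⟩

theorem NZ0C_f00 {A : Type} [CommRing A] {s d : ℕ} (hs : 0 < s) (μ : Mon s d) :
    f00 A s d μ = if μ = NZ0C_mon hs d then 1 else 0 := by
  have hl : ∀ l : Fin s, l.1 = s - 1 ↔ l = RHP.lst hs := by
    intro l
    rw [Fin.ext_iff]
    rfl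
  unfold f00
  by_cases h : μ = NZ0C_mon hs d
  · rw [if_pos h, if_pos]
    intro l
    rw [h]
    unfold NZ0C_mon
    by_cases h1 : l = RHP.lst hs
    · rw [if_pos ((hl l).2 h1)]
      exact if_pos h1
    · rw [if_neg fun h2 => h1 ((hl l).1 h2)]
      exact if_neg h1
  · rw [if_neg h, if_neg]
    intro h2
    apply h
    apply Subtype.ext
    funext l
    rw [h2 l]
    unfold NZ0C_mon
    by_cases h1 : l = RHP.lst hs
    · rw [if_pos ((hl l).2 h1)]
      exact (if_pos h1).symm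
    · rw [if_neg fun h2 => h1 ((hl l).1 h2)]
      exact (if_neg h1).symm

theorem NZ0C_ev {A : Type} [CommRing A] {s d : ℕ} (hs : 0 < s) (b c : A) :
    ev (fun μ => b * f00 A s d μ) (RHP.eL A hs c) = b * c ^ d := by
  unfold ev
  rw [Finset.sum_eq_single (NZ0C_mon hs d)]
  · beta_reduce
    rw [NZ0C_f00 hs, if_pos rfl, mul_one]
    congr 1
    unfold mono
    rw [Finset.prod_eq_single (RHP.lst hs)]
    · unfold NZ0C_mon RHP.eL
      simp
    · intro l _ hl
      unfold NZ0C_mon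
      simp [hl]
    · intro h
      exact absurd (Finset.mem_univ _) h
  · intro μ _ hμ
    beta_reduce
    rw [NZ0C_f00 hs, if_neg hμ, mul_zero, zero_mul]
  · intro h
    exact absurd (Finset.mem_univ _) h

theorem NZ0C_norm {L : Type} [NormedField L] {s : ℕ} (hs : 0 < s) (c : L) :
    ‖RHP.eL L hs c‖ = ‖c‖ := by
  apply le_antisymm
  · rw [pi_norm_le_iff_of_nonneg (norm_nonneg c)]
    intro l
    unfold RHP.eL
    split_ifs
    · exact le_refl _
    · rw [norm_zero]
      exact norm_nonneg c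
  · have h1 := norm_le_pi_norm (RHP.eL L hs c) (RHP.lst hs)
    unfold RHP.eL at h1
    rwa [if_pos rfl] at h1

theorem thm_NZ0C (hI : St_IFTC) : St_NZ0C := by
  intro L _ _ hL s k m hs hk hm hk0 a c ha hc r hr
  let _ : NontriviallyNormedField L := { (inferInstance : NormedField L) with non_trivial := hL }
  have hs0 : 0 < s := hs
  obtain ⟨z₀, hz⟩ : ∃ z₀ : Fin (s + 1) → L, z₀ = Fin.cons (a * c ^ m) (RHP.eL L hs0 c) := ⟨_, rfl⟩
  have h0 : z₀ 0 = a * c ^ m := by rw [hz]; rfl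
  have h1 : (fun l : Fin s => z₀ l.succ) = RHP.eL L hs0 c := by
    rw [hz]
    rfl
  have hev : ev (fun μ : Mon s (k * m) => a ^ k * f00 L s (k * m) μ) (fun l => z₀ l.succ) =
      z₀ 0 ^ k := by
    rw [h1, h0, NZ0C_ev, mul_pow, ← pow_mul, Nat.mul_comm k m]
  have hder : (k : L) * z₀ 0 ^ (k - 1) ≠ 0 := by
    rw [h0]
    exact mul_ne_zero hk0 (pow_ne_zero _ (mul_ne_zero ha (pow_ne_zero _ hc)))
  obtain ⟨δ, hδ, h⟩ := hI L s k m hk hm (fun μ => a ^ k * f00 L s (k * m) μ) z₀ 0 hev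
    (Or.inl ⟨rfl, hder⟩) r hr
  refine ⟨δ, hδ, fun f hf => ⟨z₀, 0, ?_, ?_, fun κ hκ => h f hf κ hκ⟩⟩
  · rw [h1, NZ0C_norm]
  · rw [h0, norm_mul, norm_pow]

end Pool.Agent.RHCB
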