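import Pool.Agent.RHCB.StB

/-!
RHCB [EQUC] (helper25): counting forms in the box in residue classes, from the case `R = 1` for systems.
-/

set_option autoImplicit false

namespace Pool.Agent.RHCB

open scoped BigOperators
open Classical NumberField IsDedekindDomain
open Pool.Agent.RHP (Mon mono ev Sys Prim pd WB WW)
open Pool.Agent.RHK Pool.Agent.RHC
open Pool.Agent.RHKB (mI hh jj qv MK uu BadK)

/-- a form as a system of one form -/
theorem EQUC_sys {A : Type} {s d : ℕ} (F : Sys 1 s (fun _ => d) A) : (fun _ => F 0) = F := by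
  funext i
  rw [Subsingleton.elim i 0]

theorem EQUC_mem {K : Type} [Field K] [NumberField K] {s d H : ℕ} (f : Mon s d → 𝓞 K) :
    ((fun _ => f : Sys 1 s (fun _ => d) (𝓞 K)) ∈ Box K s (fun _ : Fin 1 => d) H) ↔
      f ∈ box K s d H := by
  unfold Box box
  rw [Fintype.mem_piFinset, Fintype.mem_piFinset]
  constructor
  · intro h μ
    exact (Fintype.mem_piFinset.1 (h 0)) μ
  · intro h _
    rw [Fintype.mem_piFinset]
    exact h

theorem EQUC_card {K : Type} [Field K] [NumberField K] {s d H : ℕ}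
    (Q : Sys 1 s (fun _ => d) (𝓞 K) → Prop) (P : (Mon s d → 𝓞 K) → Prop) [DecidablePred Q]
    [DecidablePred P] (h : ∀ f : Mon s d → 𝓞 K, Q (fun _ => f) ↔ P f) :
    ((Box K s (fun _ : Fin 1 => d) H).filter Q).card = ((box K s d H).filter P).card := by
  refine Finset.card_nbij' (fun F => F 0) (fun f _ => f) ?_ ?_ ?_ ?_
  · intro F hF
    rw [Finset.coe_filter, Set.mem_setOf_eq] at hF ⊢
    rw [← EQUC_sys F] at hF
    exact ⟨(EQUC_mem _).1 hF.1, (h _).1 hF.2⟩
  · intro f hf
    rw [Finset.coe_filter, Set.mem_setOf_eq] at hf ⊢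
    exact ⟨(EQUC_mem _).2 hf.1, (h _).2 hf.2⟩
  · intro F _
    exact EQUC_sys F
  · intro f _
    rfl

theorem EQUC_box {K : Type} [Field K] [NumberField K] {s d H : ℕ} :
    (Box K s (fun _ : Fin 1 => d) H).card = (box K s d H).card := by
  have h := EQUC_card (K := K) (s := s) (d := d) (H := H) (fun _ => True) (fun _ => True)
    (fun _ => Iff.rfl)
  rwa [Finset.filter_true, Finset.filter_true] at h

theorem EQUC_nat {A : Type} {s d : ℕ} :
    Nat.card (Sys 1 s (fun _ : Fin 1 => d) A) = Nat.card (Mon s d → A) :=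
  Nat.card_congr (Equiv.funUnique (Fin 1) (Mon s d → A))

theorem EQUC_ncard {A : Type} {s d : ℕ} (S : Set (Mon s d → A)) :
    ({F : Sys 1 s (fun _ : Fin 1 => d) A | F 0 ∈ S} : Set _).ncard = S.ncard := by
  have h1 : ({F : Sys 1 s (fun _ : Fin 1 => d) A | F 0 ∈ S} : Set _) =
      (fun (f : Mon s d → A) => (fun _ => f : Sys 1 s (fun _ : Fin 1 => d) A)) '' S := by
    ext F
    constructor
    · intro hF
      exact ⟨F 0, hF, EQUC_sys F⟩
    · rintro ⟨f, hf, rfl⟩
      exact hf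
  rw [h1]
  exact Set.ncard_image_of_injective S fun f g hfg => congrFun hfg 0

theorem thm_EQUC (hE : Pool.Agent.RHKB.St_EQU) : St_EQUC := by
  intro K _ _ s d I hI
  obtain ⟨H0, h⟩ := hE K 1 s (fun _ => d) I hI
  refine ⟨H0, fun H hH S => ?_⟩
  have h1 := h H hH {F | F 0 ∈ S}
  rw [EQUC_ncard, EQUC_nat, EQUC_box,
    EQUC_card (fun F => Pool.Agent.RHKB.red I F ∈ {F : Sys 1 s (fun _ => d) (𝓞 K ⧸ I) | F 0 ∈ S})
      (fun f => cred I f ∈ S) (fun f => Iff.rfl)] at h1
  exact h1

end Pool.Agent.RHCB
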