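import Pool.Agent.RHKB.Fin
import Pool.Agent.RHCB.EQUC

/-!
RHCB: the final theorem for polynomials, from `CMain` (helper7).
-/

set_option autoImplicit false

namespace Pool.Agent.RHCB

open scoped BigOperators
open Classical NumberField IsDedekindDomain
open Pool.Agent.RHP (Mon mono ev Sys Prim pd TR_poly ev_map)
open Pool.Agent.RHK Pool.Agent.RHC
open Pool.Agent.RHKB (jj SingL HBox TRK_pos TRK_zero TRK_boxpos TRK_ncard TRK_eval TRK_pderiv
  SK_count TR2_iff TR2_all)

section coef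

variable {K : Type} [Field K] [NumberField K] {s k m : ℕ}

theorem FinC_ext (f : Mon s (k * m) → 𝓞 K) (L : Type) [Field L] [Algebra K L]
    (h : HasZeroC f K) : HasZeroC f L := by
  obtain ⟨x, hx, w, h1⟩ := h
  refine ⟨fun l => algebraMap K L (x l), ?_, algebraMap K L w, ?_⟩
  · obtain ⟨l, hl⟩ := Function.ne_iff.1 hx
    refine Function.ne_iff.2 ⟨l, ?_⟩
    change algebraMap K L (x l) ≠ 0
    rw [Ne, map_eq_zero]
    exact hl
  · have h2 := ev_map (algebraMap K L) (fun μ => algebraMap K K (f μ : K)) x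
    rw [h1, map_pow] at h2
    exact h2

theorem FinC_els (f : Mon s (k * m) → 𝓞 K) (h : HasZeroC f K) : ELSC f :=
  ⟨fun v => FinC_ext f v.Completion h, fun v => FinC_ext f (v.adicCompletion K) h⟩

/-- the conclusion, in terms of coefficient vectors -/
theorem FinC_main (hkm : 1 ≤ k * m) (h : CMain K s k m) :
    (∃ c : ℝ, 0 < c ∧ ∃ H0 : ℕ, ∀ H ≥ H0,
      c * ((HBox K s (fun _ : Fin 1 => k * m) H).card : ℝ) ≤
      (((HBox K s (fun _ : Fin 1 => k * m) H).filter fun F =>
        ¬ SingL (AlgebraicClosure K) F ∧ HasZeroC (F 0) K).card : ℝ)) ∧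
    Filter.Tendsto (fun H : ℕ =>
      (((HBox K s (fun _ : Fin 1 => k * m) H).filter fun F =>
        ¬ SingL (AlgebraicClosure K) F ∧ HasZeroC (F 0) K).card : ℝ) /
      (((HBox K s (fun _ : Fin 1 => k * m) H).filter fun F =>
        ¬ SingL (AlgebraicClosure K) F ∧ ELSC (F 0)).card : ℝ))
      Filter.atTop (nhds 1) := by
  obtain ⟨hA, hB⟩ := h
  have h1' := TRK_pos (K := K) (s := s) (d := fun _ : Fin 1 => k * m)
    (fun F => HasZeroC (F 0) K) (by
      obtain ⟨γ, hγ, H0, hA⟩ := hA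
      refine ⟨γ, hγ, H0, fun H hH => ?_⟩
      rw [EQUC_box, EQUC_card (fun F => HasZeroC (F 0) K) (fun f => HasZeroC f K)
        (fun f => Iff.rfl)]
      exact hA H hH)
  have h2 := TRK_zero (K := K) (s := s) (d := fun _ : Fin 1 => k * m)
    (fun F => ELSC (F 0) ∧ ¬ HasZeroC (F 0) K) (by
      intro ε hε
      obtain ⟨H0, hB⟩ := hB ε hε
      refine ⟨H0, fun H hH => ?_⟩
      rw [EQUC_box, EQUC_card (fun F => ELSC (F 0) ∧ ¬ HasZeroC (F 0) K)
        (fun f => ELSC f ∧ ¬ HasZeroC f K) (fun f => Iff.rfl)]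
      exact hB H hH)
  obtain ⟨c, hc, H1, h1⟩ := h1'
  obtain ⟨H2, h3⟩ := TRK_zero _ (SK_count (K := K) (s := s) (d := fun _ : Fin 1 => k * m)
    (AlgebraicClosure K) (fun _ => hkm)) (c / 2) (by positivity)
  have key : ∀ H ≥ max H1 H2, c / 2 * ((HBox K s (fun _ : Fin 1 => k * m) H).card : ℝ) ≤
      (((HBox K s (fun _ : Fin 1 => k * m) H).filter fun F =>
        ¬ SingL (AlgebraicClosure K) F ∧ HasZeroC (F 0) K).card : ℝ) := by
    intro H hH
    have h4 := h1 H ((le_max_left _ _).trans hH)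
    have h5 := h3 H ((le_max_right _ _).trans hH)
    have h6 : ((HBox K s (fun _ : Fin 1 => k * m) H).filter fun F => HasZeroC (F 0) K) ⊆
        ((HBox K s (fun _ : Fin 1 => k * m) H).filter fun F =>
          ¬ SingL (AlgebraicClosure K) F ∧ HasZeroC (F 0) K) ∪
          ((HBox K s (fun _ : Fin 1 => k * m) H).filter fun F =>
            SingL (AlgebraicClosure K) F) := by
      intro F hF
      rw [Finset.mem_filter] at hF
      rw [Finset.mem_union, Finset.mem_filter, Finset.mem_filter]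
      by_cases h7 : SingL (AlgebraicClosure K) F
      · exact Or.inr ⟨hF.1, h7⟩
      · exact Or.inl ⟨hF.1, h7, hF.2⟩
    have h7 : (((HBox K s (fun _ : Fin 1 => k * m) H).filter fun F =>
        HasZeroC (F 0) K).card : ℝ) ≤
        (((HBox K s (fun _ : Fin 1 => k * m) H).filter fun F =>
          ¬ SingL (AlgebraicClosure K) F ∧ HasZeroC (F 0) K).card : ℝ) +
          (((HBox K s (fun _ : Fin 1 => k * m) H).filter fun F =>
            SingL (AlgebraicClosure K) F).card : ℝ) := by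
      have h8 := (Finset.card_le_card h6).trans (Finset.card_union_le _ _)
      exact_mod_cast h8
    linarith
  refine ⟨⟨c / 2, by positivity, max H1 H2, key⟩, ?_⟩
  rw [Metric.tendsto_atTop]
  intro ε hε
  obtain ⟨H3, h4⟩ := h2 (c / 4 * ε) (by positivity)
  refine ⟨max (max H1 H2) H3, fun H hH => ?_⟩
  have hk := key H ((le_max_left _ _).trans hH)
  have h5 := h4 H ((le_max_right _ _).trans hH)
  have hb : (0 : ℝ) < ((HBox K s (fun _ : Fin 1 => k * m) H).card : ℝ) := by
    exact_mod_cast TRK_boxpos H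
  set b : ℝ := ((HBox K s (fun _ : Fin 1 => k * m) H).card : ℝ) with hbdef
  set u : ℝ := (((HBox K s (fun _ : Fin 1 => k * m) H).filter fun F =>
    ¬ SingL (AlgebraicClosure K) F ∧ HasZeroC (F 0) K).card : ℝ) with hu
  set w : ℝ := (((HBox K s (fun _ : Fin 1 => k * m) H).filter fun F =>
    ¬ SingL (AlgebraicClosure K) F ∧ ELSC (F 0)).card : ℝ) with hw
  have huv : u ≤ w := by
    have h6 : ((HBox K s (fun _ : Fin 1 => k * m) H).filter fun F =>
        ¬ SingL (AlgebraicClosure K) F ∧ HasZeroC (F 0) K) ⊆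
        ((HBox K s (fun _ : Fin 1 => k * m) H).filter fun F =>
          ¬ SingL (AlgebraicClosure K) F ∧ ELSC (F 0)) := by
      intro F hF
      rw [Finset.mem_filter] at hF ⊢
      exact ⟨hF.1, hF.2.1, FinC_els (F 0) hF.2.2⟩
    rw [hu, hw]
    exact_mod_cast Finset.card_le_card h6
  have hvu : w ≤ u + c / 4 * ε * b := by
    have h6 : ((HBox K s (fun _ : Fin 1 => k * m) H).filter fun F =>
        ¬ SingL (AlgebraicClosure K) F ∧ ELSC (F 0)) ⊆
        ((HBox K s (fun _ : Fin 1 => k * m) H).filter fun F =>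
          ¬ SingL (AlgebraicClosure K) F ∧ HasZeroC (F 0) K) ∪
          ((HBox K s (fun _ : Fin 1 => k * m) H).filter fun F =>
            ELSC (F 0) ∧ ¬ HasZeroC (F 0) K) := by
      intro F hF
      rw [Finset.mem_filter] at hF
      rw [Finset.mem_union, Finset.mem_filter, Finset.mem_filter]
      by_cases h7 : HasZeroC (F 0) K
      · exact Or.inl ⟨hF.1, hF.2.1, h7⟩
      · exact Or.inr ⟨hF.1, hF.2.2, h7⟩
    have h7 : w ≤ u + (((HBox K s (fun _ : Fin 1 => k * m) H).filter fun F =>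
        ELSC (F 0) ∧ ¬ HasZeroC (F 0) K).card : ℝ) := by
      have h8 := (Finset.card_le_card h6).trans (Finset.card_union_le _ _)
      rw [hu, hw]
      exact_mod_cast h8
    linarith
  have hu0 : 0 < u := lt_of_lt_of_le (by positivity) hk
  have hv0 : 0 < w := lt_of_lt_of_le hu0 huv
  rw [Real.dist_eq, abs_sub_comm, abs_of_nonneg]
  · have h6 : 1 - u / w = (w - u) / w := by
      field_simp
    rw [h6, div_lt_iff₀ hv0]
    have h7 : w - u ≤ c / 4 * ε * b := by linarith
    have h8 : ε * (c / 2 * b) ≤ ε * w := mul_le_mul_of_nonneg_left (hk.trans huv) hε.le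
    have h9 : 0 < ε * (c / 4 * b) := by positivity
    linarith
  · rw [sub_nonneg, div_le_one hv0]
    exact huv

end coef

/-! ### Polynomials -/

section

variable {K : Type} [Field K] {n : ℕ}

/-- homogeneous of degree `D`, with bounded coefficients -/
def InC (D H : ℕ) (f : MvPolynomial (Fin (n + 1)) (𝓞 K)) : Prop :=
  f.IsHomogeneous D ∧ ∀ e, ∀ σ : K →+* ℂ, ‖σ ((f.coeff e : 𝓞 K) : K)‖ ≤ H

/-- the value -/
noncomputable def valC {L : Type} [Field L] [Algebra K L] (x : Fin (n + 1) → L)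
    (f : MvPolynomial (Fin (n + 1)) (𝓞 K)) : L :=
  MvPolynomial.eval₂ ((algebraMap K L).comp (algebraMap (𝓞 K) K)) x f

/-- smooth -/
def SmoC (k : ℕ) (f : MvPolynomial (Fin (n + 1)) (𝓞 K)) : Prop :=
  ∀ (x : Fin (n + 1) → AlgebraicClosure K) (w : AlgebraicClosure K), (x, w) ≠ 0 →
    w ^ k = valC x f → (k : AlgebraicClosure K) * w ^ (k - 1) ≠ 0 ∨
      ∃ t, valC x (MvPolynomial.pderiv t f) ≠ 0

/-- a point over `L` -/
def PtC (k : ℕ) (f : MvPolynomial (Fin (n + 1)) (𝓞 K)) (L : Type) [Field L] [Algebra K L] :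
    Prop :=
  ∃ (x : Fin (n + 1) → L) (w : L), (x, w) ≠ 0 ∧ w ^ k = valC x f

end

/-- points over all completions -/
def LocC {K : Type} [Field K] [NumberField K] {n : ℕ} (k : ℕ)
    (f : MvPolynomial (Fin (n + 1)) (𝓞 K)) : Prop :=
  (∀ v : InfinitePlace K, PtC k f v.Completion) ∧
    ∀ v : HeightOneSpectrum (𝓞 K), PtC k f (v.adicCompletion K)

section

variable {K : Type} [Field K] {n k m : ℕ}

theorem FinC_eval0 {L : Type} [Field L] {s d : ℕ} (hd : 1 ≤ d) (f : Mon s d → L) :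
    ev f (0 : Fin s → L) = 0 := by
  unfold ev mono
  refine Finset.sum_eq_zero fun μ _ => ?_
  have h1 : ∑ i, μ.1 i = d := Finset.Nat.mem_antidiagonalTuple.1 μ.2
  obtain ⟨i, -, hi⟩ : ∃ i ∈ Finset.univ, μ.1 i ≠ 0 := by
    apply Finset.exists_ne_zero_of_sum_ne_zero
    omega
  have h2 : ∏ j, (0 : Fin s → L) j ^ μ.1 j = 0 :=
    Finset.prod_eq_zero (Finset.mem_univ i) (by rw [Pi.zero_apply, zero_pow hi])
  rw [h2, mul_zero]

theorem FinC_pt (hk : 1 ≤ k) (hkm : 1 ≤ k * m) (f : Mon (n + 1) (k * m) → 𝓞 K) (L : Type)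
    [Field L] [Algebra K L] : PtC k (TR_poly f) L ↔ HasZeroC f L := by
  have h1 : ∀ x : Fin (n + 1) → L, valC x (TR_poly f) =
      ev (fun μ => algebraMap K L (f μ : K)) x := fun x => TRK_eval L f x
  unfold PtC HasZeroC
  simp only [h1]
  constructor
  · rintro ⟨x, w, hxw, h⟩
    refine ⟨x, ?_, w, h.symm⟩
    rintro rfl
    rw [FinC_eval0 hkm] at h
    have h2 : w = 0 := (pow_eq_zero_iff (by omega)).1 h
    exact hxw (by rw [h2]; rfl)
  · rintro ⟨x, hx, w, h⟩
    exact ⟨x, w, fun h0 => hx (congrArg Prod.fst h0), h.symm⟩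

theorem FinC_sing [NumberField K] (hk : 2 ≤ k) (hkm : 1 ≤ k * m)
    (G : Sys 1 (n + 1) (fun _ : Fin 1 => k * m) (𝓞 K)) :
    SmoC k (TR_poly (G 0)) ↔ ¬ SingL (AlgebraicClosure K) G := by
  have e1 : ∀ x : Fin (n + 1) → AlgebraicClosure K, valC x (TR_poly (G 0)) =
      ev (fun m => jj (AlgebraicClosure K) (G 0 m)) x :=
    fun x => TRK_eval (AlgebraicClosure K) (G 0) x
  have e2 : ∀ (x : Fin (n + 1) → AlgebraicClosure K) (t : Fin (n + 1)),
      valC x (MvPolynomial.pderiv t (TR_poly (G 0))) =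
      pd t (fun m => jj (AlgebraicClosure K) (G 0 m)) x :=
    fun x t => TRK_pderiv (AlgebraicClosure K) (G 0) x t
  unfold SmoC SingL
  simp only [e1, e2]
  constructor
  · rintro h ⟨x, lam, hx, hlam, h1, h2⟩
    have hlam0 : lam 0 ≠ 0 := by
      intro h0
      apply hlam
      funext i
      rw [Subsingleton.elim i 0]
      exact h0
    have h3 := h x 0 (fun h0 => hx (congrArg Prod.fst h0))
      (by rw [zero_pow (by omega : k ≠ 0), h1 0])
    rcases h3 with h3 | ⟨t, ht⟩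
    · rw [zero_pow (by omega : k - 1 ≠ 0), mul_zero] at h3
      exact h3 rfl
    · have h4 := h2 t
      rw [Fin.sum_univ_one] at h4
      rcases mul_eq_zero.1 h4 with h5 | h5
      · exact hlam0 h5
      · exact ht h5
  · intro h x w hxw h1
    by_contra hcon
    push Not at hcon
    obtain ⟨h2, h3⟩ := hcon
    have hk0 : (k : AlgebraicClosure K) ≠ 0 := by
      have h4 : CharZero (AlgebraicClosure K) :=
        charZero_of_injective_algebraMap (algebraMap K (AlgebraicClosure K)).injective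
      exact Nat.cast_ne_zero.2 (by omega)
    have hw : w = 0 := by
      rcases mul_eq_zero.1 h2 with h4 | h4
      · exact absurd h4 hk0
      · exact (pow_eq_zero_iff (by omega)).1 h4
    rw [hw, zero_pow (by omega : k ≠ 0)] at h1
    apply h
    refine ⟨x, fun _ => 1, ?_, ?_, ?_, ?_⟩
    · rintro rfl
      exact hxw (by rw [hw]; rfl)
    · intro h0
      exact one_ne_zero (congrFun h0 0)
    · intro i
      rw [Subsingleton.elim i 0]
      exact h1.symm
    · intro t
      rw [Fin.sum_univ_one, one_mul]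
      exact h3 t

theorem FinC_ncard [NumberField K] (D H : ℕ) (P : MvPolynomial (Fin (n + 1)) (𝓞 K) → Prop) :
    ({f | InC D H f ∧ P f} : Set (MvPolynomial (Fin (n + 1)) (𝓞 K))).ncard =
    ((HBox K (n + 1) (fun _ : Fin 1 => D) H).filter fun G => P (TR_poly (G 0))).card := by
  have h1 := TRK_ncard (K := K) (s := n + 1) (d := fun _ : Fin 1 => D) H (fun F => P (F 0))
  rw [← h1]
  have h2 : ({F | (∀ i, (F i).IsHomogeneous ((fun _ : Fin 1 => D) i) ∧ ∀ m, ∀ σ : K →+* ℂ,
      ‖σ (((F i).coeff m : 𝓞 K) : K)‖ ≤ H) ∧ P (F 0)} :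
      Set (Fin 1 → MvPolynomial (Fin (n + 1)) (𝓞 K))) =
      (fun (f : MvPolynomial (Fin (n + 1)) (𝓞 K)) => (fun _ : Fin 1 => f)) ''
        {f | InC D H f ∧ P f} := by
    ext F
    constructor
    · rintro ⟨h3, h4⟩
      refine ⟨F 0, ⟨h3 0, h4⟩, ?_⟩
      funext i
      rw [Subsingleton.elim i 0]
    · rintro ⟨f, ⟨h3, h4⟩, rfl⟩
      exact ⟨fun _ => h3, h4⟩
  rw [h2]
  exact (Set.ncard_image_of_injective _ fun f g hfg => congrFun hfg 0).symm

end

/-- the final theorem, from the statement for coefficient vectors -/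
theorem finC_poly (K : Type) [Field K] [NumberField K] (n k m : ℕ) (hk : 2 ≤ k) (hm : 1 ≤ m)
    (hmain : CMain K (n + 1) k m) :
    (∃ c : ℝ, 0 < c ∧ ∀ᶠ H : ℕ in Filter.atTop,
      c * (({f | InC (k * m) H f} : Set (MvPolynomial (Fin (n + 1)) (𝓞 K))).ncard : ℝ) ≤
      (({f | InC (k * m) H f ∧ (SmoC k f ∧ LocC k f)} :
        Set (MvPolynomial (Fin (n + 1)) (𝓞 K))).ncard : ℝ)) ∧
    Filter.Tendsto (fun H : ℕ =>
      (({f | InC (k * m) H f ∧ (SmoC k f ∧ PtC k f K)} :
        Set (MvPolynomial (Fin (n + 1)) (𝓞 K))).ncard : ℝ) /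
      (({f | InC (k * m) H f ∧ (SmoC k f ∧ LocC k f)} :
        Set (MvPolynomial (Fin (n + 1)) (𝓞 K))).ncard : ℝ)) Filter.atTop (nhds 1) := by
  have hkm : 1 ≤ k * m := Nat.one_le_iff_ne_zero.2 (Nat.mul_ne_zero (by omega) (by omega))
  obtain ⟨⟨c, hc, H0, h1⟩, h2⟩ := FinC_main hkm hmain
  have hall : ∀ H : ℕ, ({f | InC (k * m) H f} :
      Set (MvPolynomial (Fin (n + 1)) (𝓞 K))).ncard =
      (HBox K (n + 1) (fun _ : Fin 1 => k * m) H).card := by
    intro H
    have h3 := FinC_ncard (K := K) (n := n) (k * m) H fun _ => True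
    have h5 : ({f | InC (k * m) H f ∧ True} :
        Set (MvPolynomial (Fin (n + 1)) (𝓞 K))).ncard =
        (HBox K (n + 1) (fun _ : Fin 1 => k * m) H).card :=
      h3.trans (TR2_all _ _ fun _ => trivial)
    rw [← h5]
    congr 1
    ext F
    exact ⟨fun h => ⟨h, trivial⟩, fun h => h.1⟩
  have hrat : ∀ H : ℕ, ({f | InC (k * m) H f ∧ (SmoC k f ∧ PtC k f K)} :
      Set (MvPolynomial (Fin (n + 1)) (𝓞 K))).ncard =
      ((HBox K (n + 1) (fun _ : Fin 1 => k * m) H).filter fun F =>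
        ¬ SingL (AlgebraicClosure K) F ∧ HasZeroC (F 0) K).card := by
    intro H
    have h3 := FinC_ncard (K := K) (n := n) (k * m) H fun f => SmoC k f ∧ PtC k f K
    exact h3.trans (TR2_iff _ _ _ fun G => and_congr (FinC_sing hk hkm G)
      (FinC_pt (by omega) hkm (G 0) K))
  have hels : ∀ H : ℕ, ({f | InC (k * m) H f ∧ (SmoC k f ∧ LocC k f)} :
      Set (MvPolynomial (Fin (n + 1)) (𝓞 K))).ncard =
      ((HBox K (n + 1) (fun _ : Fin 1 => k * m) H).filter fun F =>
        ¬ SingL (AlgebraicClosure K) F ∧ ELSC (F 0)).card := by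
    intro H
    have h3 := FinC_ncard (K := K) (n := n) (k * m) H fun f => SmoC k f ∧ LocC k f
    exact h3.trans (TR2_iff _ _ _ fun G => and_congr (FinC_sing hk hkm G)
      (and_congr (forall_congr' fun v => FinC_pt (by omega) hkm (G 0) v.Completion)
        (forall_congr' fun v => FinC_pt (by omega) hkm (G 0) (v.adicCompletion K))))
  simp only [hall, hrat, hels]
  refine ⟨⟨c, hc, ?_⟩, h2⟩
  rw [Filter.eventually_atTop]
  refine ⟨H0, fun H hH => (h1 H hH).trans ?_⟩
  have h3 : ((HBox K (n + 1) (fun _ : Fin 1 => k * m) H).filter fun F =>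
      ¬ SingL (AlgebraicClosure K) F ∧ HasZeroC (F 0) K) ⊆
      ((HBox K (n + 1) (fun _ : Fin 1 => k * m) H).filter fun F =>
        ¬ SingL (AlgebraicClosure K) F ∧ ELSC (F 0)) := by
    intro F hF
    rw [Finset.mem_filter] at hF ⊢
    exact ⟨hF.1, hF.2.1, FinC_els (F 0) hF.2.2⟩
  exact_mod_cast Finset.card_le_card h3

end Pool.Agent.RHCB
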