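import Pool.Agent.RHCB.StB

/-!
RHCB, module SIGC: the variance of the number of the points of `w^k = f(x)` in a finite ring
(helper92; compare `RHKB/SIG.lean`).
-/

set_option autoImplicit false

namespace Pool.Agent.RHCB

open scoped BigOperators
open Classical NumberField IsDedekindDomain
open Pool.Agent.RHP (Mon mono ev Sys Prim pd WB WW)
open Pool.Agent.RHK Pool.Agent.RHC
open Pool.Agent.RHKB (mI hh jj qv MK uu BadK)

theorem SIGC_card {α : Type} [Fintype α] (a : α → Prop) [DecidablePred a] :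
    (Nat.card {x // a x} : ℝ) = ∑ x : α, if a x then (1 : ℝ) else 0 := by
  rw [Nat.card_eq_fintype_card, Fintype.card_subtype, Finset.sum_boole]

/-- lifts of a set of classes modulo `J` -/
theorem SIGC_lift {A : Type} [CommRing A] [Finite A] (J : Ideal A) (T : A ⧸ J → Prop) :
    Nat.card {x : A // T (Ideal.Quotient.mk J x)} * Nat.card (A ⧸ J) ≤
      Nat.card {y : A ⧸ J // T y} * Nat.card A := by
  let π : A →+* A ⧸ J := Ideal.Quotient.mk J
  have hsurj : Function.Surjective π := Ideal.Quotient.mk_surjective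
  let σ : A ⧸ J → A := Function.surjInv hsurj
  have hlift : ∀ w : A ⧸ J, π (σ w) = w := Function.surjInv_eq hsurj
  have hfin : Finite (A ⧸ J) := Finite.of_surjective π hsurj
  let f : {x : A // T (Ideal.Quotient.mk J x)} × (A ⧸ J) → {y : A ⧸ J // T y} × A := fun p =>
    (⟨π p.1.1, p.1.2⟩, p.1.1 + σ p.2)
  have hf : Function.Injective f := by
    rintro ⟨⟨x, hx⟩, w⟩ ⟨⟨x', hx'⟩, w'⟩ he
    have h1 : π x = π x' := congrArg (fun z => (Prod.fst z).1) he
    have h2 : x + σ w = x' + σ w' := congrArg Prod.snd he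
    have h3 : w = w' := by
      have h4 := congrArg π h2
      rw [map_add, map_add, hlift, hlift, h1] at h4
      exact add_left_cancel h4
    subst h3
    have h5 : x = x' := add_right_cancel h2
    subst h5
    rfl
  have h1 := Nat.card_le_card_of_injective f hf
  rw [Nat.card_prod, Nat.card_prod] at h1
  exact h1

theorem SIGC_uni (hU : RHKB.St_UNI) {A : Type} [CommRing A] [Finite A] {s d : ℕ} {ρ : Fin s → A}
    (hρ : Prim ρ) (a : A) : Nat.card {f : Mon s d → A // ev f ρ = a} * Nat.card A =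
      Nat.card A ^ Fintype.card (Mon s d) := by
  obtain ⟨g, hg⟩ := hρ.exists_one d
  rw [← hU A s d ρ hρ]
  congr 1
  refine Nat.card_congr
    { toFun := fun f => ⟨fun m => f.1 m - a * g m, ?_⟩
      invFun := fun f => ⟨fun m => f.1 m + a * g m, ?_⟩
      left_inv := ?_
      right_inv := ?_ }
  · rw [Pool.Agent.RHP.ev_sub, Pool.Agent.RHP.ev_smul, f.2, hg, mul_one, sub_self]
  · rw [Pool.Agent.RHP.ev_add, Pool.Agent.RHP.ev_smul, f.2, hg, mul_one, zero_add]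
  · intro f
    apply Subtype.ext
    funext m
    exact sub_add_cancel _ _
  · intro f
    apply Subtype.ext
    funext m
    exact add_sub_cancel_right _ _

/-- modulo the ideal of the minors the values at `ρ'` are determined by those at `ρ` -/
theorem SIGC_key {A : Type} [CommRing A] {s : ℕ} {ρ : Fin s → A} (hρ : Prim ρ) (ρ' : Fin s → A) :
    ∃ μ : A ⧸ mI ρ ρ', ∀ (d : ℕ) (f : Mon s d → A), Ideal.Quotient.mk (mI ρ ρ') (ev f ρ') =
      μ ^ d * Ideal.Quotient.mk (mI ρ ρ') (ev f ρ) := by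
  obtain ⟨c, hc⟩ := hρ
  let π : A →+* A ⧸ mI ρ ρ' := Ideal.Quotient.mk (mI ρ ρ')
  have key : ∀ j, π (ρ' j) = π (∑ i, c i * ρ' i) * π (ρ j) := by
    intro j
    have h1 : ∀ i, π (ρ i) * π (ρ' j) = π (ρ j) * π (ρ' i) := by
      intro i
      have h2 : mn ρ ρ' (i, j) ∈ mI ρ ρ' := Ideal.subset_span ⟨(i, j), rfl⟩
      have h3 : π (ρ i * ρ' j - ρ j * ρ' i) = 0 := Ideal.Quotient.eq_zero_iff_mem.2 h2
      rw [map_sub, map_mul, map_mul, sub_eq_zero] at h3
      exact h3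
    calc π (ρ' j) = π ((∑ i, c i * ρ i) * ρ' j) := by rw [hc, one_mul]
      _ = ∑ i, π (c i) * (π (ρ i) * π (ρ' j)) := by
        rw [Finset.sum_mul, map_sum]
        refine Finset.sum_congr rfl fun i _ => ?_
        rw [map_mul, map_mul, mul_assoc]
      _ = ∑ i, π (c i) * (π (ρ j) * π (ρ' i)) := Finset.sum_congr rfl fun i _ => by rw [h1]
      _ = π (∑ i, c i * ρ' i) * π (ρ j) := by
        rw [map_sum, Finset.sum_mul]
        refine Finset.sum_congr rfl fun i _ => ?_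
        rw [map_mul]
        ring
  refine ⟨π (∑ i, c i * ρ' i), fun d f => ?_⟩
  change π (ev f ρ') = _ * π (ev f ρ)
  rw [← Pool.Agent.RHP.ev_map π f ρ', ← Pool.Agent.RHP.ev_map π f ρ,
    ← Pool.Agent.RHP.ev_smul_pt]
  congr 1
  funext j
  exact key j

/-- the weight of an ideal -/
noncomputable def SIGC_c {A : Type} [CommRing A] (C : ℝ) (M : ℕ) (J : Ideal A) : ℝ :=
  if J = ⊤ then 1 else C * (Nat.card (A ⧸ J) : ℝ) ^ ((1 : ℝ) - 1 / M)

theorem SIGC_pair (hP : St_PAIRC) {A : Type} [CommRing A] [Fintype A] {s k d : ℕ} (hd : 1 ≤ d)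
    {ρ ρ' : Fin s → A} (hρ : Prim ρ) (hρ' : Prim ρ') {C : ℝ} {M : ℕ}
    (hV : ∀ (J : Ideal A) (a : A ⧸ J), (Nat.card {ω : A ⧸ J // ω ^ k = a} : ℝ) *
      (Nat.card (A ⧸ J) : ℝ) ^ ((1 : ℝ) / M) ≤ C * (Nat.card (A ⧸ J) : ℝ)) :
    ∑ ω : A, ∑ ω' : A, (Nat.card {f : Mon s d → A // ev f ρ = ω ^ k ∧ ev f ρ' = ω' ^ k} : ℝ) ≤
      SIGC_c C M (mI ρ ρ') * (Nat.card A : ℝ) ^ Fintype.card (Mon s d) := by
  obtain ⟨μ, hμ⟩ := SIGC_key hρ ρ'
  obtain ⟨J, hJ⟩ : ∃ J, J = mI ρ ρ' := ⟨_, rfl⟩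
  have hfin : Finite (A ⧸ mI ρ ρ') := Finite.of_surjective _ Ideal.Quotient.mk_surjective
  set q : ℝ := (Nat.card A : ℝ) with hq
  set x : ℝ := (Nat.card (A ⧸ mI ρ ρ') : ℝ) with hx
  set Q : ℝ := q ^ Fintype.card (Mon s d) with hQ
  have hq0 : 0 < q := by
    rw [hq]
    exact_mod_cast Nat.card_pos
  have hx1 : 1 ≤ x := by
    rw [hx]
    exact_mod_cast Nat.card_pos
  have hx0 : 0 < x := by linarith
  have hn : ∀ a b : A, (Nat.card {f : Mon s d → A // ev f ρ = a ∧ ev f ρ' = b} : ℝ) ≤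
      x * Q / q ^ 2 := by
    intro a b
    rw [le_div_iff₀ (by positivity)]
    have h1 : ((Nat.card {f : Mon s d → A // ev f ρ = a ∧ ev f ρ' = b} * Nat.card A ^ 2 : ℕ) : ℝ) ≤
        ((Nat.card (A ⧸ mI ρ ρ') * Nat.card A ^ Fintype.card (Mon s d) : ℕ) : ℝ) :=
      Nat.cast_le.2 (hP A s d hd ρ ρ' hρ hρ' a b)
    rw [Nat.cast_mul, Nat.cast_mul, Nat.cast_pow, Nat.cast_pow] at h1
    exact h1
  have hz : ∀ ω ω' : A, ¬ (Ideal.Quotient.mk (mI ρ ρ') ω' ^ k =
      μ ^ d * Ideal.Quotient.mk (mI ρ ρ') ω ^ k) →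
      Nat.card {f : Mon s d → A // ev f ρ = ω ^ k ∧ ev f ρ' = ω' ^ k} = 0 := by
    intro ω ω' h
    rw [Nat.card_eq_zero]
    left
    refine ⟨fun f => h ?_⟩
    have h1 := hμ d f.1
    rw [f.2.1, f.2.2, map_pow, map_pow] at h1
    exact h1
  have hcnt : ∀ a : A ⧸ mI ρ ρ', (Nat.card {ω' : A // Ideal.Quotient.mk (mI ρ ρ') ω' ^ k = a} : ℝ) * x ≤
      SIGC_c C M (mI ρ ρ') * q := by
    intro a
    have h1 := SIGC_lift (mI ρ ρ') (fun y => y ^ k = a)
    have h2 : (Nat.card {ω' : A // Ideal.Quotient.mk (mI ρ ρ') ω' ^ k = a} : ℝ) * x ≤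
        (Nat.card {y : A ⧸ mI ρ ρ' // y ^ k = a} : ℝ) * q := by
      have h2 := (Nat.cast_le (α := ℝ)).2 h1
      rw [Nat.cast_mul, Nat.cast_mul] at h2
      exact h2
    refine h2.trans (mul_le_mul_of_nonneg_right ?_ hq0.le)
    unfold SIGC_c
    split_ifs with h3
    · have h4 : Nat.card {y : A ⧸ mI ρ ρ' // y ^ k = a} ≤ Nat.card (A ⧸ mI ρ ρ') :=
        Nat.card_le_card_of_injective _ Subtype.val_injective
      have h5 : Subsingleton (A ⧸ mI ρ ρ') := Ideal.Quotient.subsingleton_iff.2 h3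
      rw [Nat.card_of_subsingleton (0 : A ⧸ mI ρ ρ')] at h4
      exact_mod_cast h4
    · have h4 := hV (mI ρ ρ') a
      have h5 : 0 < x ^ ((1 : ℝ) / M) := Real.rpow_pos_of_pos hx0 _
      rw [← hx, ← le_div_iff₀ h5] at h4
      refine h4.trans (le_of_eq ?_)
      rw [Real.rpow_sub hx0, Real.rpow_one, mul_div_assoc]
  have hin : ∀ ω : A, ∑ ω' : A,
      (Nat.card {f : Mon s d → A // ev f ρ = ω ^ k ∧ ev f ρ' = ω' ^ k} : ℝ) ≤
      SIGC_c C M (mI ρ ρ') * Q / q := by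
    intro ω
    calc ∑ ω' : A, (Nat.card {f : Mon s d → A // ev f ρ = ω ^ k ∧ ev f ρ' = ω' ^ k} : ℝ) ≤
        ∑ ω' : A, (if Ideal.Quotient.mk (mI ρ ρ') ω' ^ k =
          μ ^ d * Ideal.Quotient.mk (mI ρ ρ') ω ^ k then (1 : ℝ) else 0) * (x * Q / q ^ 2) := by
          refine Finset.sum_le_sum fun ω' _ => ?_
          split_ifs with h
          · rw [one_mul]
            exact hn _ _
          · rw [hz ω ω' h]
            simp
      _ = (Nat.card {ω' : A // Ideal.Quotient.mk (mI ρ ρ') ω' ^ k =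
          μ ^ d * Ideal.Quotient.mk (mI ρ ρ') ω ^ k} : ℝ) * (x * Q / q ^ 2) := by
          rw [← Finset.sum_mul, ← SIGC_card]
      _ = (Nat.card {ω' : A // Ideal.Quotient.mk (mI ρ ρ') ω' ^ k =
          μ ^ d * Ideal.Quotient.mk (mI ρ ρ') ω ^ k} : ℝ) * x * (Q / q ^ 2) := by ring
      _ ≤ SIGC_c C M (mI ρ ρ') * q * (Q / q ^ 2) :=
          mul_le_mul_of_nonneg_right (hcnt _) (by positivity)
      _ = SIGC_c C M (mI ρ ρ') * Q / q := by
          field_simp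
  refine (Finset.sum_le_sum fun ω _ => hin ω).trans (le_of_eq ?_)
  rw [Finset.sum_const, nsmul_eq_mul, Finset.card_univ, ← Nat.card_eq_fintype_card, ← hq]
  field_simp

theorem SIGC_cnt {A : Type} [CommRing A] [Fintype A] {s k d : ℕ} (f : Mon s d → A) :
    (ccnt k f : ℝ) = ∑ ρ ∈ Finset.univ.filter (fun ρ : Fin s → A => Prim ρ),
      ∑ ω : A, if ev f ρ = ω ^ k then (1 : ℝ) else 0 := by
  unfold ccnt
  rw [SIGC_card, Fintype.sum_prod_type, Finset.sum_filter]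
  refine Finset.sum_congr rfl fun ρ _ => ?_
  by_cases h : Prim ρ
  · simp [h]
  · simp [h]

theorem SIGC_main (hU : RHKB.St_UNI) (hP : St_PAIRC) (hC : RHKB.St_CNTH) (hR : RHKB.St_PRM)
    {A : Type} [CommRing A] [Finite A] {s k d : ℕ} (hs : 3 ≤ s) (hd : 1 ≤ d) {C : ℝ}
    (hC0 : 0 < C) {M : ℕ}
    (hV : ∀ (J : Ideal A) (a : A ⧸ J), (Nat.card {ω : A ⧸ J // ω ^ k = a} : ℝ) *
      (Nat.card (A ⧸ J) : ℝ) ^ ((1 : ℝ) / M) ≤ C * (Nat.card (A ⧸ J) : ℝ)) :
    (Nat.card {f : Mon s d → A // csig k f < 1 / 2} : ℝ) ≤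
      (8 + 4 * C) * (hh A + hM A M) * (Nat.card (Mon s d → A) : ℝ) := by
  let _ : Fintype A := Fintype.ofFinite A
  have hfi : Finite (Ideal A) :=
    Finite.of_injective (fun J : Ideal A => (J : Set A)) SetLike.coe_injective
  let _ : Fintype (Ideal A) := Fintype.ofFinite (Ideal A)
  obtain ⟨q, hqdef⟩ : ∃ q : ℕ, q = Nat.card A := ⟨_, rfl⟩
  have hq : 0 < q := hqdef ▸ Nat.card_pos
  have hq0 : (0 : ℝ) < q := by exact_mod_cast hq
  obtain ⟨Q, hQ⟩ : ∃ Q : ℝ, Q = (Nat.card (Mon s d → A) : ℝ) := ⟨_, rfl⟩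
  obtain ⟨P, hPdef⟩ : ∃ P : Finset (Fin s → A),
    P = Finset.univ.filter (fun ρ : Fin s → A => Prim ρ) := ⟨_, rfl⟩
  obtain ⟨h, hh_def⟩ : ∃ h : ℝ, h = hh A := ⟨_, rfl⟩
  obtain ⟨g, hg_def⟩ : ∃ g : ℝ, g = hM A M := ⟨_, rfl⟩
  have hQ0 : 0 ≤ Q := hQ ▸ Nat.cast_nonneg _
  have hQeq : Q = (q : ℝ) ^ Fintype.card (Mon s d) := by
    rw [hQ, hqdef, Nat.card_fun, Nat.card_eq_fintype_card (α := Mon s d)]
    push_cast
    rfl
  have hmem : ∀ ρ, ρ ∈ P → Prim ρ := fun ρ h => by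
    rw [hPdef] at h
    exact (Finset.mem_filter.1 h).2
  have hPc : (Nat.card {ρ : Fin s → A // Prim ρ} : ℝ) = (P.card : ℝ) := by
    rw [Nat.card_eq_fintype_card, Fintype.card_subtype, hPdef]
  have hPle : (P.card : ℝ) ≤ (q : ℝ) ^ s := by
    have h1 : P.card ≤ q ^ s := by
      refine (Finset.card_le_univ _).trans (le_of_eq ?_)
      rw [Fintype.card_fun, hqdef, Nat.card_eq_fintype_card, Fintype.card_fin]
    exact_mod_cast h1
  -- the sum over the ideals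
  have hN1 : ∀ J : Ideal A, (1 : ℝ) ≤ (Nat.card (A ⧸ J) : ℝ) := fun J => by
    exact_mod_cast Nat.card_pos (α := A ⧸ J)
  have hcard1 : ∀ J : Ideal A, J = ⊤ → (Nat.card (A ⧸ J) : ℝ) = 1 := by
    intro J hJ
    have : Subsingleton (A ⧸ J) := Ideal.Quotient.subsingleton_iff.2 hJ
    rw [Nat.card_of_subsingleton (0 : A ⧸ J), Nat.cast_one]
  have hsum : ∑ J : Ideal A, SIGC_c C M J * ((Nat.card (A ⧸ J) : ℝ) ^ 2)⁻¹ = 1 + C * g := by
    rw [hg_def]
    unfold hM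
    rw [finsum_eq_sum_of_fintype, Fintype.sum_eq_add_sum_subtype_ne _ (⊤ : Ideal A), Finset.mul_sum]
    congr 1
    · unfold SIGC_c
      rw [if_pos rfl, hcard1 ⊤ rfl]
      norm_num
    · refine Finset.sum_congr rfl fun J _ => ?_
      have h1 := hN1 J.1
      unfold SIGC_c
      rw [if_neg J.2]
      generalize (Nat.card (A ⧸ J.1) : ℝ) = x at h1 ⊢
      have h0 : 0 < x := by linarith
      rw [mul_assoc]
      congr 1
      rw [← Real.rpow_natCast x 2, ← Real.rpow_neg h0.le, ← Real.rpow_add h0]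
      congr 1
      push_cast
      ring
  have hc0 : ∀ J : Ideal A, 0 ≤ SIGC_c C M J := by
    intro J
    unfold SIGC_c
    split_ifs
    · exact zero_le_one
    · positivity
  have hh0 : 0 ≤ h := by
    rw [hh_def]
    unfold hh
    exact finsum_nonneg fun J => by positivity
  have hg0 : 0 ≤ g := by
    rw [hg_def]
    unfold hM
    exact finsum_nonneg fun J => by positivity
  -- the first moment
  have m1 : ∑ f : Mon s d → A, (ccnt k f : ℝ) = P.card * Q := by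
    simp only [SIGC_cnt]
    rw [← hPdef, Finset.sum_comm]
    have h1 : ∀ ρ ∈ P, ∑ f : Mon s d → A,
        ∑ ω : A, (if ev f ρ = ω ^ k then (1 : ℝ) else 0) = Q := by
      intro ρ hρ
      rw [Finset.sum_comm]
      have h2 : ∀ ω : A, ∑ f : Mon s d → A, (if ev f ρ = ω ^ k then (1 : ℝ) else 0) = Q / q := by
        intro ω
        rw [← SIGC_card (fun f : Mon s d → A => ev f ρ = ω ^ k), eq_div_iff hq0.ne', hQeq]
        have h3 := SIGC_uni hU (d := d) (hmem ρ hρ) (ω ^ k)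
        rw [← hqdef] at h3
        exact_mod_cast h3
      rw [Finset.sum_congr rfl fun ω _ => h2 ω, Finset.sum_const, nsmul_eq_mul, Finset.card_univ,
        ← Nat.card_eq_fintype_card, ← hqdef]
      field_simp
    rw [Finset.sum_congr rfl h1, Finset.sum_const, nsmul_eq_mul]
  -- the second moment
  have m2 : ∑ f : Mon s d → A, (ccnt k f : ℝ) ^ 2 ≤
      Q * ∑ ρ ∈ P, ∑ ρ' ∈ P, SIGC_c C M (mI ρ ρ') := by
    have h1 : ∀ f : Mon s d → A, (ccnt k f : ℝ) ^ 2 = ∑ ρ ∈ P, ∑ ρ' ∈ P, ∑ ω : A, ∑ ω' : A,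
        if ev f ρ = ω ^ k ∧ ev f ρ' = ω' ^ k then (1 : ℝ) else 0 := by
      intro f
      rw [sq, SIGC_cnt, Finset.sum_mul_sum, ← hPdef]
      refine Finset.sum_congr rfl fun ρ _ => Finset.sum_congr rfl fun ρ' _ => ?_
      rw [Finset.sum_mul_sum]
      refine Finset.sum_congr rfl fun ω _ => Finset.sum_congr rfl fun ω' _ => ?_
      by_cases h2 : ev f ρ = ω ^ k
      · by_cases h3 : ev f ρ' = ω' ^ k
        · rw [if_pos h2, if_pos h3, if_pos ⟨h2, h3⟩, one_mul]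
        · have h4 : ¬ (ev f ρ = ω ^ k ∧ ev f ρ' = ω' ^ k) := fun h => h3 h.2
          rw [if_neg h3, if_neg h4, mul_zero]
      · have h4 : ¬ (ev f ρ = ω ^ k ∧ ev f ρ' = ω' ^ k) := fun h => h2 h.1
        rw [if_neg h2, if_neg h4, zero_mul]
    simp only [h1]
    rw [Finset.sum_comm, Finset.mul_sum]
    refine Finset.sum_le_sum fun ρ hρ => ?_
    rw [Finset.sum_comm, Finset.mul_sum]
    refine Finset.sum_le_sum fun ρ' hρ' => ?_
    have h2 : ∑ f : Mon s d → A, ∑ ω : A, ∑ ω' : A,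
        (if ev f ρ = ω ^ k ∧ ev f ρ' = ω' ^ k then (1 : ℝ) else 0) =
        ∑ ω : A, ∑ ω' : A,
          (Nat.card {f : Mon s d → A // ev f ρ = ω ^ k ∧ ev f ρ' = ω' ^ k} : ℝ) := by
      rw [Finset.sum_comm]
      refine Finset.sum_congr rfl fun ω _ => ?_
      rw [Finset.sum_comm]
      refine Finset.sum_congr rfl fun ω' _ => ?_
      rw [SIGC_card]
    rw [h2, hQeq, mul_comm, hqdef]
    exact SIGC_pair hP hd (hmem ρ hρ) (hmem ρ' hρ') hV
  -- the sum of the weights of the ideals of minors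
  have m3 : ∀ ρ ∈ P, ∑ ρ' ∈ P, SIGC_c C M (mI ρ ρ') ≤ (q : ℝ) ^ s * (1 + C * g) := by
    intro ρ hρ
    have h1 : ∀ ρ' : Fin s → A, SIGC_c C M (mI ρ ρ') ≤
        ∑ J : Ideal A, SIGC_c C M J * (if mI ρ ρ' ≤ J then 1 else 0) := by
      intro ρ'
      have h2 := Finset.single_le_sum (f := fun J : Ideal A =>
        SIGC_c C M J * (if mI ρ ρ' ≤ J then (1 : ℝ) else 0)) (s := Finset.univ)
        (fun J _ => mul_nonneg (hc0 J) (by split_ifs <;> positivity)) (Finset.mem_univ (mI ρ ρ'))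
      beta_reduce at h2
      rw [if_pos le_rfl, mul_one] at h2
      exact h2
    have h2 : ∑ ρ' ∈ P, SIGC_c C M (mI ρ ρ') ≤ ∑ ρ', ∑ J : Ideal A,
        SIGC_c C M J * (if mI ρ ρ' ≤ J then 1 else 0) := by
      refine (Finset.sum_le_sum fun ρ' _ => h1 ρ').trans ?_
      refine Finset.sum_le_sum_of_subset_of_nonneg (Finset.subset_univ _) fun ρ' _ _ => ?_
      exact Finset.sum_nonneg fun J _ => mul_nonneg (hc0 J) (by split_ifs <;> positivity)
    refine h2.trans ?_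
    rw [Finset.sum_comm]
    have h3 : ∀ J : Ideal A, ∑ ρ', SIGC_c C M J * (if mI ρ ρ' ≤ J then (1 : ℝ) else 0) ≤
        (q : ℝ) ^ s * (SIGC_c C M J * ((Nat.card (A ⧸ J) : ℝ) ^ 2)⁻¹) := by
      intro J
      have hJ1 := hN1 J
      have h4 := hC A s J ρ (hmem ρ hρ)
      rw [← hqdef] at h4
      rw [← Finset.mul_sum, ← SIGC_card (fun ρ' => mI ρ ρ' ≤ J)]
      have h5 : (Nat.card {ρ' : Fin s → A // mI ρ ρ' ≤ J} : ℝ) * (Nat.card (A ⧸ J) : ℝ) ^ s ≤
          Nat.card (A ⧸ J) * (q : ℝ) ^ s := by exact_mod_cast h4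
      have hw := hc0 J
      generalize SIGC_c C M J = w at hw ⊢
      generalize (Nat.card (A ⧸ J) : ℝ) = x at hJ1 h5 ⊢
      have hx0 : 0 < x := by linarith
      have h8 : (0 : ℝ) ≤ (Nat.card {ρ' : Fin s → A // mI ρ ρ' ≤ J} : ℝ) :=
        Nat.cast_nonneg _
      generalize (Nat.card {ρ' : Fin s → A // mI ρ ρ' ≤ J} : ℝ) = y at h5 h8 ⊢
      have h6 : x ^ s = x ^ 3 * x ^ (s - 3) := by
        rw [← pow_add]
        congr 1
        omega
      have h7 : (1 : ℝ) ≤ x ^ (s - 3) := one_le_pow₀ hJ1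
      have h9 : y * x ^ 3 ≤ x * (q : ℝ) ^ s := by
        refine le_trans ?_ h5
        rw [h6, ← mul_assoc]
        exact le_mul_of_one_le_right (by positivity) h7
      have h10 : y ≤ (q : ℝ) ^ s * (x ^ 2)⁻¹ := by
        rw [le_mul_inv_iff₀ (by positivity)]
        refine le_of_mul_le_mul_right ?_ hx0
        calc y * x ^ 2 * x = y * x ^ 3 := by ring
          _ ≤ x * (q : ℝ) ^ s := h9
          _ = (q : ℝ) ^ s * x := mul_comm _ _
      calc w * y ≤ w * ((q : ℝ) ^ s * (x ^ 2)⁻¹) := mul_le_mul_of_nonneg_left h10 hw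
        _ = (q : ℝ) ^ s * (w * (x ^ 2)⁻¹) := by ring
    refine (Finset.sum_le_sum fun J _ => h3 J).trans ?_
    rw [← Finset.mul_sum, hsum]
  -- the variance
  have hprm : (1 - h) * (q : ℝ) ^ s ≤ (P.card : ℝ) := by
    rw [← hPc, hh_def, hqdef]
    exact hR A s (by omega)
  have hqs : (0 : ℝ) < (q : ℝ) ^ s := by positivity
  have hsig : ∀ f : Mon s d → A, csig k f = (ccnt k f : ℝ) / (q : ℝ) ^ s := by
    intro f
    rw [hqdef]
    rfl
  have s1 : ∑ f : Mon s d → A, csig k f = P.card * Q / (q : ℝ) ^ s := by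
    simp only [hsig]
    rw [← Finset.sum_div, m1]
  have s2 : ∑ f : Mon s d → A, csig k f ^ 2 ≤ Q * (1 + C * g) := by
    have h1 : ∀ f : Mon s d → A, csig k f ^ 2 = (ccnt k f : ℝ) ^ 2 / ((q : ℝ) ^ s) ^ 2 := by
      intro f
      rw [hsig, div_pow]
    simp only [h1]
    rw [← Finset.sum_div, div_le_iff₀ (by positivity)]
    refine m2.trans ?_
    rw [mul_assoc]
    refine mul_le_mul_of_nonneg_left ?_ hQ0
    refine (Finset.sum_le_sum m3).trans ?_
    rw [Finset.sum_const, nsmul_eq_mul]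
    have h2 : (0 : ℝ) ≤ (q : ℝ) ^ s * (1 + C * g) := by positivity
    calc (P.card : ℝ) * ((q : ℝ) ^ s * (1 + C * g)) ≤
          (q : ℝ) ^ s * ((q : ℝ) ^ s * (1 + C * g)) := mul_le_mul_of_nonneg_right hPle h2
      _ = (1 + C * g) * ((q : ℝ) ^ s) ^ 2 := by ring
  have s3 : (1 - h) * Q ≤ ∑ f : Mon s d → A, csig k f := by
    rw [s1, le_div_iff₀ hqs]
    calc (1 - h) * Q * (q : ℝ) ^ s = (1 - h) * (q : ℝ) ^ s * Q := by ring
      _ ≤ _ := mul_le_mul_of_nonneg_right hprm hQ0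
  have s4 : ∑ f : Mon s d → A, (csig k f - 1) ^ 2 ≤ (C * g + 2 * h) * Q := by
    have h1 : ∑ f : Mon s d → A, (csig k f - 1) ^ 2 =
        ∑ f : Mon s d → A, csig k f ^ 2 - 2 * ∑ f : Mon s d → A, csig k f + Q := by
      have h2 : ∑ _f : Mon s d → A, (1 : ℝ) = Q := by
        rw [Finset.sum_const, nsmul_eq_mul, mul_one, Finset.card_univ, hQ,
          Nat.card_eq_fintype_card]
      rw [← h2, Finset.mul_sum, ← Finset.sum_sub_distrib, ← Finset.sum_add_distrib]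
      exact Finset.sum_congr rfl fun f _ => by ring
    rw [h1]
    nlinarith
  have s5 : (Nat.card {f : Mon s d → A // csig k f < 1 / 2} : ℝ) * (1 / 4) ≤
      ∑ f : Mon s d → A, (csig k f - 1) ^ 2 := by
    rw [SIGC_card, Finset.sum_mul]
    refine Finset.sum_le_sum fun f _ => ?_
    split_ifs with h
    · nlinarith
    · rw [zero_mul]
      positivity
  rw [← hQ, ← hh_def, ← hg_def]
  have h6 : (Nat.card {f : Mon s d → A // csig k f < 1 / 2} : ℝ) ≤ 4 * ((C * g + 2 * h) * Q) := by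
    linarith
  refine h6.trans ?_
  have h7 : 0 ≤ (8 * g + 4 * C * h) * Q := by positivity
  have h8 : (8 + 4 * C) * (h + g) * Q = 4 * ((C * g + 2 * h) * Q) + (8 * g + 4 * C * h) * Q := by
    ring
  rw [h8]
  linarith

theorem thm_SIGC (hU : RHKB.St_UNI) (hP : St_PAIRC) (hC : RHKB.St_CNTH) (hR : RHKB.St_PRM)
    (hV : St_VDQ) : St_SIGC := by
  intro K _ _ s k d hs hk hd
  obtain ⟨C, hC0, hV⟩ := hV K k hk
  refine ⟨8 + 4 * C, by positivity, fun q hq => ?_⟩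
  have hbot : Ideal.span {(q : 𝓞 K)} ≠ ⊥ := by
    rw [Ne, Ideal.span_singleton_eq_bot, Nat.cast_eq_zero]
    omega
  have hfin : Finite (𝓞 K ⧸ Ideal.span {(q : 𝓞 K)}) := Ideal.finiteQuotientOfFreeOfNeBot _ hbot
  refine SIGC_main hU hP hC hR hs hd hC0 fun J a => ?_
  have hfin2 : Finite ((𝓞 K ⧸ Ideal.span {(q : 𝓞 K)}) ⧸ J) :=
    Finite.of_surjective _ Ideal.Quotient.mk_surjective
  exact hV _ ((Ideal.Quotient.mk J).comp (Ideal.Quotient.mk (Ideal.span {(q : 𝓞 K)})))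
    (Ideal.Quotient.mk_surjective.comp Ideal.Quotient.mk_surjective) a

end Pool.Agent.RHCB
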