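import Pool.Agent.RHCB.StB
import Pool.Agent.RHKB.LAT3
import Pool.Agent.RHKB.PLW

/-!
RHCB, block B, module VDQ: the number of the solutions of `ω^k = a` in a finite quotient of the ring
of integers (Vandermonde determinants).
-/

set_option autoImplicit false

namespace Pool.Agent.RHCB

open scoped BigOperators
open Classical NumberField IsDedekindDomain
open Pool.Agent.RHK Pool.Agent.RHC
open Pool.Agent.RHKB (MK)

/-- the number of the pairs `i < j` in `Fin (k + 1)` -/
theorem VDQ_pairs (k : ℕ) : ∑ i : Fin (k + 1), (Finset.Ioi i).card = MM k := by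
  unfold MM
  have h1 : ∀ i : Fin (k + 1), (Finset.Ioi i).card = k - i := by
    intro i
    rw [Fin.card_Ioi]
    omega
  rw [Finset.sum_congr rfl fun i _ => h1 i]
  rw [Fin.sum_univ_eq_sum_range (fun i => k - i) (k + 1)]
  rw [← Finset.sum_range_reflect]
  have h2 : ∀ j ∈ Finset.range (k + 1), k - (k + 1 - 1 - j) = j := by
    intro j hj
    have := Finset.mem_range.1 hj
    omega
  rw [Finset.sum_congr rfl h2, Finset.sum_range_id]
  congr 1
  rw [Nat.add_sub_cancel, mul_comm]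

/-- the Vandermonde determinant lies in the kernel -/
theorem VDQ_ker {A B : Type} [CommRing A] [CommRing B] (φ : A →+* B) (k : ℕ) (hk : 1 ≤ k) (a : B)
    (w : Fin (k + 1) → A) (hw : ∀ i, φ (w i) ^ k = a) : φ (Matrix.vandermonde w).det = 0 := by
  rw [RingHom.map_det]
  have h0 : (0 : Fin (k + 1)) ≠ Fin.last k := by
    intro h
    have := congrArg Fin.val h
    simp at this
    omega
  have h1 : φ.mapMatrix (Matrix.vandermonde w) =
      (φ.mapMatrix (Matrix.vandermonde w)).updateCol (Fin.last k) (a • fun _ => (1 : B)) := by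
    ext i j
    rw [Matrix.updateCol_apply]
    split_ifs with hj
    · subst hj
      simp [Matrix.vandermonde_apply, hw i]
    · rfl
  rw [h1, Matrix.det_updateCol_smul]
  have h2 : ((φ.mapMatrix (Matrix.vandermonde w)).updateCol (Fin.last k) fun _ => (1 : B)).det = 0 := by
    refine Matrix.det_zero_of_column_eq h0 fun i => ?_
    rw [Matrix.updateCol_self, Matrix.updateCol_ne h0]
    simp [Matrix.vandermonde_apply]
  rw [h2, mul_zero]

section

variable {K : Type} [Field K] [NumberField K]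

/-- the integer with given coordinates -/
noncomputable def VDQ_u (e : IX K → ℤ) : 𝓞 K := (RingOfIntegers.basis K).equivFun.symm e

theorem VDQ_u_inj : Function.Injective (VDQ_u (K := K)) :=
  (RingOfIntegers.basis K).equivFun.symm.injective

theorem VDQ_co (e : IX K → ℤ) (j : IX K) : co (VDQ_u e) j = e j := by
  unfold co VDQ_u
  have h := congrFun ((RingOfIntegers.basis K).equivFun.apply_symm_apply e) j
  rwa [Module.Basis.equivFun_apply] at h

theorem VDQ_sub (e e' : IX K → ℤ) : VDQ_u e - VDQ_u e' = VDQ_u (e - e') := by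
  unfold VDQ_u
  rw [map_sub]

theorem VDQ_cz (n : ℕ) (e : IX K → ℤ) (he : ∀ j, |e j| ≤ n) : VDQ_u e ∈ cb K n := by
  rw [mem_cb]
  unfold cz
  rw [Finset.sup_le_iff]
  intro j _
  rw [VDQ_co]
  have := abs_le.1 (he j)
  omega

variable (K) in
/-- the cube of side `n` -/
noncomputable def VDQ_E (n : ℕ) : Finset (IX K → ℤ) :=
  Fintype.piFinset fun _ : IX K => Finset.Ico (0 : ℤ) (n : ℤ)

theorem VDQ_cardE (n : ℕ) : (VDQ_E K n).card = n ^ dg K := by
  unfold VDQ_E
  rw [Fintype.card_piFinset, Finset.prod_const, Finset.card_univ, card_IX, Int.card_Ico]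
  congr 1

theorem VDQ_av_sub (n : ℕ) (v : InfinitePlace K) {e e' : IX K → ℤ} (he : e ∈ VDQ_E K n)
    (he' : e' ∈ VDQ_E K n) : av v (VDQ_u e - VDQ_u e') ≤ MK K * n := by
  rw [VDQ_sub]
  refine Pool.Agent.RHKB.PLW_av v n _ (VDQ_cz n _ fun j => ?_)
  unfold VDQ_E at he he'
  have h1 := Finset.mem_Ico.1 (Fintype.mem_piFinset.1 he j)
  have h2 := Finset.mem_Ico.1 (Fintype.mem_piFinset.1 he' j)
  rw [Pi.sub_apply, abs_le]
  omega

omit [NumberField K] in
theorem VDQ_av_prod (v : InfinitePlace K) {ι : Type} (s : Finset ι) (f : ι → 𝓞 K) :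
    av v (∏ i ∈ s, f i) = ∏ i ∈ s, av v (f i) := by
  unfold av
  have h : ((∏ i ∈ s, f i : 𝓞 K) : K) = ∏ i ∈ s, ((f i : 𝓞 K) : K) :=
    map_prod (algebraMap (𝓞 K) K) f s
  rw [h, map_prod]

omit [NumberField K] in
theorem VDQ_av_nonneg (v : InfinitePlace K) (a : 𝓞 K) : 0 ≤ av v a := by
  unfold av
  exact apply_nonneg v _

/-- at most `k` solutions in a small cube -/
theorem VDQ_few (k : ℕ) (hk : 1 ≤ k) (B : Type) [CommRing B] [Finite B] (φ : 𝓞 K →+* B)
    (hφ : Function.Surjective φ) (a : B) (n : ℕ)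
    (hn : ((MK K * n : ℕ) : ℝ) ^ (dg K * MM k) < (Nat.card B : ℝ)) (t : B) :
    ((VDQ_E K n).filter fun e => (t + φ (VDQ_u e)) ^ k = a).card ≤ k := by
  by_contra hcon
  rw [not_le] at hcon
  obtain ⟨t', rfl⟩ := hφ t
  have h1 : Fintype.card (Fin (k + 1)) ≤
      Fintype.card ((VDQ_E K n).filter fun e => (φ t' + φ (VDQ_u e)) ^ k = a) := by
    rw [Fintype.card_fin, Fintype.card_coe]
    exact hcon
  obtain ⟨g⟩ := Function.Embedding.nonempty_of_card_le h1
  obtain ⟨e, he⟩ : ∃ e : Fin (k + 1) → IX K → ℤ, ∀ i, e i = (g i).1 := ⟨_, fun _ => rfl⟩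
  have heE : ∀ i, e i ∈ VDQ_E K n := fun i => by
    rw [he]
    exact (Finset.mem_filter.1 (g i).2).1
  have hea : ∀ i, (φ t' + φ (VDQ_u (e i))) ^ k = a := fun i => by
    rw [he]
    exact (Finset.mem_filter.1 (g i).2).2
  have heinj : Function.Injective e := by
    intro i j hij
    rw [he, he] at hij
    exact g.injective (Subtype.ext hij)
  obtain ⟨w, hw⟩ : ∃ w : Fin (k + 1) → 𝓞 K, ∀ i, w i = t' + VDQ_u (e i) := ⟨_, fun _ => rfl⟩
  have hwinj : Function.Injective w := by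
    intro i j hij
    rw [hw, hw] at hij
    exact heinj (VDQ_u_inj (add_left_cancel hij))
  have hker : φ (Matrix.vandermonde w).det = 0 :=
    VDQ_ker φ k hk a w fun i => by rw [hw, map_add]; exact hea i
  have hne : (Matrix.vandermonde w).det ≠ 0 := Matrix.det_vandermonde_ne_zero_iff.2 hwinj
  have hN : (Ideal.absNorm (RingHom.ker φ) : ℝ) = Nat.card B := by
    rw [Ideal.absNorm_apply, Submodule.cardQuot_apply]
    congr 1
    exact Nat.card_congr (RingHom.quotientKerEquivOfSurjective hφ).toEquiv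
  have hr : dg K ≠ 0 := Module.finrank_pos.ne'
  have hB : (0 : ℝ) ≤ Nat.card B := Nat.cast_nonneg _
  obtain ⟨v, hv⟩ := Pool.Agent.RHKB.thm_LAT3 K (RingHom.ker φ) _ (RingHom.mem_ker.2 hker) hne
    ((Nat.card B : ℝ) ^ ((1 : ℝ) / dg K)) (Real.rpow_nonneg hB _) (by
      rw [hN, one_div, Real.rpow_inv_natCast_pow hB hr])
  have hdet : av v (Matrix.vandermonde w).det ≤ ((MK K * n : ℕ) : ℝ) ^ MM k := by
    rw [Matrix.det_vandermonde, VDQ_av_prod]
    calc ∏ i : Fin (k + 1), av v (∏ j ∈ Finset.Ioi i, (w j - w i))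
        ≤ ∏ i : Fin (k + 1), ((MK K * n : ℕ) : ℝ) ^ (Finset.Ioi i).card := by
          refine Finset.prod_le_prod (fun i _ => VDQ_av_nonneg v _) fun i _ => ?_
          rw [VDQ_av_prod, ← Finset.prod_const]
          refine Finset.prod_le_prod (fun j _ => VDQ_av_nonneg v _) fun j _ => ?_
          rw [hw, hw, add_sub_add_left_eq_sub]
          have := VDQ_av_sub n v (heE j) (heE i)
          push_cast
          exact this
      _ = ((MK K * n : ℕ) : ℝ) ^ MM k := by
          rw [Finset.prod_pow_eq_pow_sum, VDQ_pairs]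
  have h2 : (Nat.card B : ℝ) ≤ ((MK K * n : ℕ) : ℝ) ^ (dg K * MM k) := by
    calc (Nat.card B : ℝ) = ((Nat.card B : ℝ) ^ ((1 : ℝ) / dg K)) ^ dg K := by
          rw [one_div, Real.rpow_inv_natCast_pow hB hr]
      _ ≤ (((MK K * n : ℕ) : ℝ) ^ MM k) ^ dg K :=
          pow_le_pow_left₀ (Real.rpow_nonneg hB _) (hv.trans hdet) _
      _ = _ := by rw [← pow_mul, mul_comm (MM k)]
  exact absurd hn (not_lt.2 h2)

/-- the count with a cube -/
theorem VDQ_count (k : ℕ) (hk : 1 ≤ k) (B : Type) [CommRing B] [Finite B] (φ : 𝓞 K →+* B)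
    (hφ : Function.Surjective φ) (a : B) (n : ℕ)
    (hn : ((MK K * n : ℕ) : ℝ) ^ (dg K * MM k) < (Nat.card B : ℝ)) :
    n ^ dg K * Nat.card {ω : B // ω ^ k = a} ≤ k * Nat.card B := by
  have : Fintype B := Fintype.ofFinite B
  have h1 : ∑ t : B, ((VDQ_E K n).filter fun e => (t + φ (VDQ_u e)) ^ k = a).card ≤
      k * Nat.card B := by
    refine (Finset.sum_le_sum fun t _ => VDQ_few k hk B φ hφ a n hn t).trans ?_
    rw [Finset.sum_const, Finset.card_univ, smul_eq_mul, Nat.card_eq_fintype_card, mul_comm]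
  have h2 : ∑ t : B, ((VDQ_E K n).filter fun e => (t + φ (VDQ_u e)) ^ k = a).card =
      ∑ e ∈ VDQ_E K n, ((Finset.univ : Finset B).filter fun t => (t + φ (VDQ_u e)) ^ k = a).card := by
    simp only [Finset.card_filter]
    rw [Finset.sum_comm]
  have h3 : ∀ e ∈ VDQ_E K n,
      ((Finset.univ : Finset B).filter fun t => (t + φ (VDQ_u e)) ^ k = a).card =
        Nat.card {ω : B // ω ^ k = a} := by
    intro e _
    rw [Nat.card_eq_fintype_card, Fintype.card_subtype]
    refine Finset.card_bij (fun t _ => t + φ (VDQ_u e)) (fun t ht => ?_) (fun t _ t' _ h => ?_)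
      (fun ω hω => ⟨ω - φ (VDQ_u e), ?_, ?_⟩)
    · rw [Finset.mem_filter] at ht ⊢
      exact ⟨Finset.mem_univ _, ht.2⟩
    · exact add_right_cancel h
    · rw [Finset.mem_filter] at hω ⊢
      refine ⟨Finset.mem_univ _, ?_⟩
      rw [sub_add_cancel]
      exact hω.2
    · rw [sub_add_cancel]
  rw [h2, Finset.sum_congr rfl h3, Finset.sum_const, VDQ_cardE, smul_eq_mul] at h1
  exact h1

end

theorem thm_VDQ : St_VDQ := by
  intro K _ _ k hk
  have hMK : (1 : ℝ) ≤ MK K := by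
    have : 1 ≤ MK K := by
      unfold MK
      omega
    exact_mod_cast this
  have hk1 : (1 : ℝ) ≤ k := by exact_mod_cast hk
  refine ⟨k * (2 * MK K) ^ dg K, by positivity, ?_⟩
  intro B _ _ φ hφ a
  have hr : dg K ≠ 0 := Module.finrank_pos.ne'
  have hM : MM k ≠ 0 := by
    unfold MM
    have h1 : 2 ≤ k * (k + 1) := by nlinarith
    have := Nat.div_le_div_right (c := 2) h1
    omega
  have hrM : dg K * MM k ≠ 0 := Nat.mul_ne_zero hr hM
  have : Nonempty B := ⟨0⟩
  have hBpos : 0 < Nat.card B := Nat.card_pos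
  have hB : (0 : ℝ) < Nat.card B := by exact_mod_cast hBpos
  obtain ⟨x, hx⟩ : ∃ x : ℝ, x = (Nat.card B : ℝ) ^ ((1 : ℝ) / (dg K * MM k : ℕ)) / MK K := ⟨_, rfl⟩
  have hx0 : 0 < x := by
    rw [hx]
    positivity
  have hMx : MK K * x = (Nat.card B : ℝ) ^ ((1 : ℝ) / (dg K * MM k : ℕ)) := by
    rw [hx]
    field_simp
  have hpow : (MK K * x) ^ (dg K * MM k) = Nat.card B := by
    rw [hMx, one_div, Real.rpow_inv_natCast_pow hB.le hrM]
  have hpowr : (MK K * x) ^ dg K = (Nat.card B : ℝ) ^ ((1 : ℝ) / MM k) := by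
    rw [hMx, ← Real.rpow_natCast, ← Real.rpow_mul hB.le]
    congr 1
    have h1 : (dg K : ℝ) ≠ 0 := by exact_mod_cast hr
    have h2 : (MM k : ℝ) ≠ 0 := by exact_mod_cast hM
    push_cast
    field_simp
  rw [← hpowr]
  have hS : (Nat.card {ω : B // ω ^ k = a} : ℝ) ≤ Nat.card B := by
    exact_mod_cast Nat.card_le_card_of_injective _ Subtype.val_injective
  obtain ⟨n, hn⟩ : ∃ n : ℕ, n = ⌈x⌉₊ - 1 := ⟨_, rfl⟩
  have hceil : 0 < ⌈x⌉₊ := Nat.ceil_pos.2 hx0
  have hn1 : ⌈x⌉₊ = n + 1 := by omega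
  have hxle : x ≤ n + 1 := by
    have := Nat.le_ceil x
    rw [hn1] at this
    exact_mod_cast this
  have hlt : (n : ℝ) < x := by
    have h1 : n < ⌈x⌉₊ := by omega
    exact Nat.lt_ceil.1 h1
  rcases Nat.eq_zero_or_pos n with h0 | hpos
  · rw [h0, Nat.cast_zero, zero_add] at hxle
    have h1 : (MK K * x) ^ dg K ≤ (2 * MK K) ^ dg K :=
      pow_le_pow_left₀ (by positivity) (by nlinarith) _
    calc (Nat.card {ω : B // ω ^ k = a} : ℝ) * (MK K * x) ^ dg K
        ≤ (Nat.card B : ℝ) * (2 * MK K) ^ dg K :=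
          mul_le_mul hS h1 (by positivity) hB.le
      _ = 1 * (2 * MK K) ^ dg K * (Nat.card B : ℝ) := by ring
      _ ≤ k * (2 * MK K) ^ dg K * (Nat.card B : ℝ) := by gcongr
  · have hn0 : (1 : ℝ) ≤ n := by exact_mod_cast hpos
    have hcond : ((MK K * n : ℕ) : ℝ) ^ (dg K * MM k) < (Nat.card B : ℝ) := by
      rw [← hpow]
      refine pow_lt_pow_left₀ ?_ (by positivity) hrM
      push_cast
      exact mul_lt_mul_of_pos_left hlt (by linarith)
    have h1 := VDQ_count k hk B φ hφ a n hcond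
    have h2 : (n : ℝ) ^ dg K * (Nat.card {ω : B // ω ^ k = a} : ℝ) ≤ k * Nat.card B := by
      exact_mod_cast h1
    have h3 : (MK K * x) ^ dg K ≤ (2 * MK K) ^ dg K * (n : ℝ) ^ dg K := by
      rw [← mul_pow]
      refine pow_le_pow_left₀ (by positivity) ?_ _
      nlinarith
    calc (Nat.card {ω : B // ω ^ k = a} : ℝ) * (MK K * x) ^ dg K
        ≤ (Nat.card {ω : B // ω ^ k = a} : ℝ) * ((2 * MK K) ^ dg K * (n : ℝ) ^ dg K) := by gcongr
      _ = (2 * MK K) ^ dg K * ((n : ℝ) ^ dg K * (Nat.card {ω : B // ω ^ k = a} : ℝ)) := by ring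
      _ ≤ (2 * MK K) ^ dg K * (k * Nat.card B) := by gcongr
      _ = k * (2 * MK K) ^ dg K * (Nat.card B : ℝ) := by ring

end Pool.Agent.RHCB
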