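import Pool.Agent.RHCB.EQUC

/-!
RHCB [BADC] (helper25): forms with an almost singular zero are rare.
-/

set_option autoImplicit false

namespace Pool.Agent.RHCB

open scoped BigOperators
open Classical NumberField IsDedekindDomain
open Pool.Agent.RHP (Mon mono ev Sys Prim pd WB WW)
open Pool.Agent.RHK Pool.Agent.RHC
open Pool.Agent.RHKB (mI hh jj qv MK uu BadK)

theorem thm_BADC (hB : Pool.Agent.RHKB.St_BADVW) : St_BADC := by
  intro K _ _ s d hs hd ε hε
  obtain ⟨h1, h2⟩ := hB K 1 s (fun _ => d) le_rfl hs (fun _ => hd) ε hε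
  refine ⟨fun v => ?_, fun v => ?_⟩
  · obtain ⟨τ, hτ, H0, h⟩ := h1 v
    refine ⟨τ, hτ, H0, fun H hH => ?_⟩
    have h3 := h H hH
    rw [EQUC_box, EQUC_card
      (fun F => BadK τ (Pool.Agent.RHKB.emb (1 : v.adicCompletion K) F))
      (fun f => BadC τ (cemb (1 : v.adicCompletion K) f)) (fun f => Iff.rfl)] at h3
    exact h3
  · obtain ⟨τ, hτ, H0, h⟩ := h2 v
    refine ⟨τ, hτ, H0, fun H hH => ?_⟩
    have h3 := h H hH
    rw [EQUC_box, EQUC_card
      (fun F => BadK τ (Pool.Agent.RHKB.emb (uu v H) F))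
      (fun f => BadC τ (cemb (uu v H) f)) (fun f => Iff.rfl)] at h3
    exact h3

end Pool.Agent.RHCB
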