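import Pool.Agent.RHCB.StB

/-!
RHCB, module CENC: the centres (helper94, adapting `RHKB/CEN.lean` of helper40).
-/

set_option autoImplicit false

namespace Pool.Agent.RHCB

open scoped BigOperators
open Classical NumberField IsDedekindDomain
open Pool.Agent.RHP (Mon mono ev Sys Prim pd WB WW)
open Pool.Agent.RHK Pool.Agent.RHC
open Pool.Agent.RHKB (mI hh jj qv MK uu BadK)

theorem thm_CENC (hS : Pool.Agent.RHKB.St_SEP) : St_CENC := by
  intro K _ _ s k d δ hδ
  choose c hc hsep using hS K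
  refine ⟨δ, ∏ v : InfinitePlace K, (c v * δ ^ v.mult) ^ s, hδ,
    Finset.prod_pos fun v _ => pow_pos (mul_pos (hc v) (pow_pos hδ _)) _,
    fun F B hF θ hθ hθ' => ?_⟩
  choose z₀ J hz₀ hB hz using hF
  choose T hT1 hT2 hT3 using
    fun (v : InfinitePlace K) (l : Fin (s + 1)) => hsep v θ δ hθ hθ' (z₀ v l)
  let ι : Type := (v : InfinitePlace K) → (l : {l : Fin (s + 1) // l ≠ J v}) →
    {x : v.Completion // x ∈ T v l.1}
  let κ : ι → (v : InfinitePlace K) → Fin (s + 1) → v.Completion := fun i v l =>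
    if h : l ≠ J v then (i v ⟨l, h⟩).1 else z₀ v l
  have hκ : ∀ i v l, ‖κ i v l - z₀ v l‖ ≤ δ := by
    intro i v l
    by_cases h : l ≠ J v
    · have h1 : κ i v l = (i v ⟨l, h⟩).1 := dif_pos h
      rw [h1]
      exact hT1 v l _ (i v ⟨l, h⟩).2
    · have h1 : κ i v l = z₀ v l := dif_neg h
      rw [h1, sub_self, norm_zero]
      exact hδ.le
  choose y hy1 hy2 hy3 using fun (i : ι) (v : InfinitePlace K) => hz v (κ i v) (hκ i v)
  have hyk : ∀ i v (l : {l : Fin (s + 1) // l ≠ J v}), y i v l.1 = (i v l).1 := by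
    intro i v l
    rw [hy1 i v l.1 l.2]
    exact dif_pos l.2
  refine ⟨ι, inferInstance, y, fun i v => hy3 i v, fun i v => ?_, fun i i' hii => ?_, ?_⟩
  · have h1 : ‖(fun l : Fin s => y i v l.succ) - (fun l : Fin s => z₀ v l.succ)‖ ≤ 1 / 16 :=
      (pi_norm_le_iff_of_nonneg (by norm_num)).2 fun l => hy2 i v l.succ
    have h2 := hz₀ v
    have h3 := norm_sub_norm_le (fun l : Fin s => z₀ v l.succ) (fun l : Fin s => y i v l.succ)
    have h4 := norm_sub_norm_le (fun l : Fin s => y i v l.succ) (fun l : Fin s => z₀ v l.succ)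
    have h5 := norm_sub_norm_le (y i v 0) (z₀ v 0)
    have h6 := hy2 i v 0
    have h7 := hB v
    rw [norm_sub_rev] at h3
    refine ⟨?_, ?_, ?_⟩ <;> linarith
  · have h1 : ∃ v, ∃ l, i v l ≠ i' v l := by
      by_contra h
      push Not at h
      exact hii (funext fun v => funext fun l => h v l)
    obtain ⟨v, l, h2⟩ := h1
    refine ⟨v, l.1, ?_⟩
    rw [hyk, hyk]
    exact hT2 v l.1 _ (i v l).2 _ (i' v l).2 fun h => h2 (Subtype.ext h)
  · have hcard : Fintype.card ι = ∏ v : InfinitePlace K,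
        ∏ l : {l : Fin (s + 1) // l ≠ J v}, (T v l.1).card := by
      show Fintype.card ((v : InfinitePlace K) → (l : {l : Fin (s + 1) // l ≠ J v}) →
        {x : v.Completion // x ∈ T v l.1}) = _
      rw [Fintype.card_pi]
      refine Finset.prod_congr rfl fun v _ => ?_
      rw [Fintype.card_pi]
      refine Finset.prod_congr rfl fun l _ => ?_
      rw [Fintype.card_coe]
    have hrange : ∀ v, Fintype.card {l : Fin (s + 1) // l ≠ J v} = s := by
      intro v
      rw [Fintype.card_subtype_compl, Fintype.card_fin, Fintype.card_subtype_eq]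
      omega
    rw [hcard, Nat.cast_prod]
    have h1 : (∏ v : InfinitePlace K, (c v * δ ^ v.mult) ^ s) *
        (1 / θ) ^ (dg K * s) = ∏ v : InfinitePlace K, (c v * (δ / θ) ^ v.mult) ^ s := by
      have h2 : (1 / θ) ^ (dg K * s) =
          ∏ v : InfinitePlace K, ((1 / θ) ^ v.mult) ^ s := by
        rw [Finset.prod_pow, Finset.prod_pow_eq_pow_sum, InfinitePlace.sum_mult_eq, pow_mul]
      rw [h2, ← Finset.prod_mul_distrib]
      refine Finset.prod_congr rfl fun v _ => ?_
      rw [← mul_pow, mul_assoc, ← mul_pow, mul_one_div]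
    rw [h1]
    refine Finset.prod_le_prod (fun v _ => pow_nonneg (mul_nonneg (hc v).le
      (pow_nonneg (div_nonneg hδ.le hθ.le) _)) _) fun v _ => ?_
    rw [Nat.cast_prod]
    calc (c v * (δ / θ) ^ v.mult) ^ s =
        ∏ _l : {l : Fin (s + 1) // l ≠ J v}, (c v * (δ / θ) ^ v.mult) := by
          rw [Finset.prod_const, Finset.card_univ, hrange]
      _ ≤ ∏ l : {l : Fin (s + 1) // l ≠ J v}, ((T v l.1).card : ℝ) :=
          Finset.prod_le_prod (fun l _ => mul_nonneg (hc v).le
            (pow_nonneg (div_nonneg hδ.le hθ.le) _)) fun l _ => hT3 v l.1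

end Pool.Agent.RHCB
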