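import Pool.Agent.RHCB.StB

/-!
RHCB, module CRTC: counting points of the cyclic cover modulo a product of coprime ideals (helper67).
-/

set_option autoImplicit false

namespace Pool.Agent.RHCB

open scoped BigOperators
open Classical NumberField IsDedekindDomain
open Pool.Agent.RHP (Mon mono ev Sys Prim pd WB WW)
open Pool.Agent.RHK Pool.Agent.RHC
open Pool.Agent.RHKB (mI hh jj qv MK uu BadK)

theorem CRTC_cnt {K : Type} [Field K] [NumberField K] {s k d : ℕ}
    (f : Mon s d → 𝓞 K) {I J : Ideal (𝓞 K)} (h : IsCoprime I J) :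
    ccnt k (cred (I * J) f) = ccnt k (cred I f) * ccnt k (cred J f) := by
  let e : 𝓞 K ⧸ I * J ≃+* (𝓞 K ⧸ I) × (𝓞 K ⧸ J) := Ideal.quotientMulEquivQuotientProd I J h
  let φ : 𝓞 K ⧸ I * J →+* 𝓞 K ⧸ I := (RingHom.fst _ _).comp e.toRingHom
  let ψ : 𝓞 K ⧸ I * J →+* 𝓞 K ⧸ J := (RingHom.snd _ _).comp e.toRingHom
  have hφ : ∀ x, φ x = (e x).1 := fun _ => rfl
  have hψ : ∀ x, ψ x = (e x).2 := fun _ => rfl
  have h1 : ∀ (ρ : Fin s → 𝓞 K ⧸ I * J),
      ev (cred I f) (fun l => φ (ρ l)) = φ (ev (cred (I * J) f) ρ) := by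
    intro ρ
    rw [← Pool.Agent.RHP.ev_map]
    rfl
  have h2 : ∀ (ρ : Fin s → 𝓞 K ⧸ I * J),
      ev (cred J f) (fun l => ψ (ρ l)) = ψ (ev (cred (I * J) f) ρ) := by
    intro ρ
    rw [← Pool.Agent.RHP.ev_map]
    rfl
  have h3 : ∀ p : (Fin s → 𝓞 K ⧸ I * J) × (𝓞 K ⧸ I * J),
      (Prim p.1 ∧ ev (cred (I * J) f) p.1 = p.2 ^ k) ↔
      (Prim (fun l => φ (p.1 l)) ∧ ev (cred I f) (fun l => φ (p.1 l)) = φ p.2 ^ k) ∧
        (Prim (fun l => ψ (p.1 l)) ∧ ev (cred J f) (fun l => ψ (p.1 l)) = ψ p.2 ^ k) := by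
    rintro ⟨ρ, ω⟩
    constructor
    · rintro ⟨hp, hz⟩
      refine ⟨⟨Pool.Agent.RHP.Prim.map φ hp, ?_⟩, ⟨Pool.Agent.RHP.Prim.map ψ hp, ?_⟩⟩
      · show ev (cred I f) (fun l => φ (ρ l)) = φ ω ^ k
        rw [h1, show ev (cred (I * J) f) ρ = ω ^ k from hz, map_pow]
      · show ev (cred J f) (fun l => ψ (ρ l)) = ψ ω ^ k
        rw [h2, show ev (cred (I * J) f) ρ = ω ^ k from hz, map_pow]
    · rintro ⟨⟨⟨c, hc⟩, hz⟩, ⟨⟨c', hc'⟩, hz'⟩⟩
      refine ⟨⟨fun l => e.symm (c l, c' l), ?_⟩, ?_⟩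
      · apply e.injective
        apply Prod.ext
        · rw [← hφ, map_sum, map_one, Prod.fst_one, ← hc]
          refine Finset.sum_congr rfl fun l _ => ?_
          rw [map_mul, hφ (e.symm _), e.apply_symm_apply]
        · rw [← hψ, map_sum, map_one, Prod.snd_one, ← hc']
          refine Finset.sum_congr rfl fun l _ => ?_
          rw [map_mul, hψ (e.symm _), e.apply_symm_apply]
      · show ev (cred (I * J) f) ρ = ω ^ k
        apply e.injective
        apply Prod.ext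
        · rw [← hφ, ← hφ, ← h1, map_pow]
          exact hz
        · rw [← hψ, ← hψ, ← h2, map_pow]
          exact hz'
  unfold ccnt
  rw [← Nat.card_prod]
  refine Nat.card_congr
    { toFun := fun x => (⟨(fun l => φ (x.1.1 l), φ x.1.2), ((h3 x.1).1 x.2).1⟩,
        ⟨(fun l => ψ (x.1.1 l), ψ x.1.2), ((h3 x.1).1 x.2).2⟩)
      invFun := fun y => ⟨(fun l => e.symm (y.1.1.1 l, y.2.1.1 l), e.symm (y.1.1.2, y.2.1.2)),
        (h3 _).2 ?_⟩
      left_inv := ?_
      right_inv := ?_ }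
  · have e1 : (fun l => φ (e.symm (y.1.1.1 l, y.2.1.1 l))) = y.1.1.1 := by
      funext l
      rw [hφ, e.apply_symm_apply]
    have e2 : (fun l => ψ (e.symm (y.1.1.1 l, y.2.1.1 l))) = y.2.1.1 := by
      funext l
      rw [hψ, e.apply_symm_apply]
    have e3 : φ (e.symm (y.1.1.2, y.2.1.2)) = y.1.1.2 := by
      rw [hφ, e.apply_symm_apply]
    have e4 : ψ (e.symm (y.1.1.2, y.2.1.2)) = y.2.1.2 := by
      rw [hψ, e.apply_symm_apply]
    rw [e1, e2, e3, e4]
    exact ⟨y.1.2, y.2.2⟩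
  · intro x
    apply Subtype.ext
    apply Prod.ext
    · funext l
      exact e.symm_apply_apply (x.1.1 l)
    · exact e.symm_apply_apply x.1.2
  · intro y
    apply Prod.ext
    · apply Subtype.ext
      apply Prod.ext
      · funext l
        show φ (e.symm (y.1.1.1 l, y.2.1.1 l)) = y.1.1.1 l
        rw [hφ, e.apply_symm_apply]
      · show φ (e.symm (y.1.1.2, y.2.1.2)) = y.1.1.2
        rw [hφ, e.apply_symm_apply]
    · apply Subtype.ext
      apply Prod.ext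
      · funext l
        show ψ (e.symm (y.1.1.1 l, y.2.1.1 l)) = y.2.1.1 l
        rw [hψ, e.apply_symm_apply]
      · show ψ (e.symm (y.1.1.2, y.2.1.2)) = y.2.1.2
        rw [hψ, e.apply_symm_apply]

theorem thm_CRTC : St_CRTC := by
  intro K _ _ I J _ _ h s k d f
  unfold csig
  rw [CRTC_cnt f h, Nat.card_congr (Ideal.quotientMulEquivQuotientProd I J h).toEquiv,
    Nat.card_prod]
  push_cast
  rw [mul_pow, div_mul_div_comm]

end Pool.Agent.RHCB
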