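import Pool.Agent.RHCB.StB

/-!
RHCB [DETC]: the local lower bound for individual forms (helper2).
-/

set_option autoImplicit false

namespace Pool.Agent.RHCB

open scoped BigOperators
open Classical NumberField IsDedekindDomain
open Pool.Agent.RHP (Mon mono ev Sys Prim pd WB WW WW_pos WW_cop)
open Pool.Agent.RHK Pool.Agent.RHC
open Pool.Agent.RHKB (mI hh jj qv MK uu BadK)

theorem DETC_XX (s c t : ℕ) : t ≤ XC s c t := by
  unfold XC
  exact Nat.le_self_pow (by omega) t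

theorem thm_DETC (hR : St_RCC) (hN : St_NLOWC) : St_DETC := by
  intro K _ _ s k m hyp A B c v hBA hc1 hv1 δ σ₀ hδ hσ
  have hs := hyp.hs
  have hk2 := hyp.hk
  obtain ⟨c₁, C', hc, hC', hR⟩ := hR K s k m (by omega) (by omega) A B hBA δ hδ
  refine ⟨σ₀ * (c₁ / 2) / (2 * 3 ^ dg K), by positivity, max 1 ⌈2 * C' / c₁⌉₊, ?_⟩
  intro m0 hm0 κ hκ
  have hm1 : 1 ≤ m0 := (le_max_left _ _).trans hm0
  have hm3 : ⌈2 * C' / c₁⌉₊ ≤ m0 := (le_max_right _ _).trans hm0
  have hm0r : (0 : ℝ) < m0 := by exact_mod_cast hm1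
  have hcC : c₁ / 2 ≤ c₁ - C' / m0 := by
    have h1 : 2 * C' / c₁ ≤ m0 := (Nat.le_ceil _).trans (by exact_mod_cast hm3)
    have h2 : C' / m0 ≤ c₁ / 2 := by
      rw [div_le_div_iff₀ hm0r (by norm_num)]
      rw [div_le_iff₀ hc] at h1
      linarith
    linarith
  have hW := WW_pos m0
  obtain ⟨X0, hR⟩ := hR (WW m0) κ m0 hW hκ hm1 (WW_cop m0)
  obtain ⟨t1, hN⟩ := hN K s k m hyp A c v (by omega) hc1 hv1 (c₁ / 2) σ₀ (by positivity) hσ κ
    (WW m0) hκ hW
  refine ⟨max (max X0 t1) 1, fun t ht V H hH f hf hs hZ => ?_⟩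
  have ht1 : 1 ≤ t := (le_max_right _ _).trans ht
  have htX0 : X0 ≤ t := ((le_max_left _ _).trans (le_max_left _ _)).trans ht
  have htt1 : t1 ≤ t := ((le_max_right _ _).trans (le_max_left _ _)).trans ht
  have htV : t ≤ V := (Nat.le_self_pow (by omega) t).trans hH.1
  have htX := DETC_XX s c t
  refine hN t htt1 V H hH f hs fun ρ ω hr => ?_
  refine le_trans ?_ (hR (XC s c t) V H (htX0.trans htX) (htX0.trans htV) hH.2.2.1 hH.2.2.2 f hf
    hZ ρ ω hr)
  refine div_le_div_of_nonneg_right ?_ (by positivity)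
  exact mul_le_mul_of_nonneg_right hcC (by positivity)

end Pool.Agent.RHCB
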