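import Pool.Agent.RHCB.EQUC

/-!
RHCB [EQLC] (helper25): lower bounds for the number of forms near a given form in residue classes.
-/

set_option autoImplicit false

namespace Pool.Agent.RHCB

open scoped BigOperators
open Classical NumberField IsDedekindDomain
open Pool.Agent.RHP (Mon mono ev Sys Prim pd WB WW)
open Pool.Agent.RHK Pool.Agent.RHC
open Pool.Agent.RHKB (mI hh jj qv MK uu BadK)

theorem thm_EQLC (hE : Pool.Agent.RHKB.St_EQL) : St_EQLC := by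
  intro K _ _ s d δ hδ
  obtain ⟨η, hη, h⟩ := hE K 1 s (fun _ => d) δ hδ
  refine ⟨η, hη, fun φ₀ hφ I hI => ?_⟩
  obtain ⟨H0, h'⟩ := h (fun _ => φ₀) (fun _ => hφ) I hI
  refine ⟨H0, fun H hH S => ?_⟩
  have h1 := h' H hH {F | F 0 ∈ S}
  rw [EQUC_ncard, EQUC_nat, EQUC_box,
    EQUC_card (fun F => (∀ i μ j, |(co (F i μ) j : ℝ) / H - φ₀ μ j| ≤ δ) ∧
        Pool.Agent.RHKB.red I F ∈ {F : Sys 1 s (fun _ => d) (𝓞 K ⧸ I) | F 0 ∈ S})
      (fun f => (∀ μ j, |(co (f μ) j : ℝ) / H - φ₀ μ j| ≤ δ) ∧ cred I f ∈ S)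
      (fun f => and_congr ⟨fun h => h 0, fun h _ => h⟩ Iff.rfl)] at h1
  exact h1

end Pool.Agent.RHCB
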