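import Pool.Agent.RHCB.StB

/-!
RHCB, HMQ: the sum over the proper ideals of `O/(q)`.
-/

set_option autoImplicit false

namespace Pool.Agent.RHCB

open NumberField

section
variable {K : Type} [Field K] [NumberField K]

theorem HMQ_card (I : Ideal (𝓞 K)) (J : Ideal (𝓞 K ⧸ I)) :
    Nat.card ((𝓞 K ⧸ I) ⧸ J) = Ideal.absNorm (J.comap (Ideal.Quotient.mk I)) := by
  let f : 𝓞 K →+* (𝓞 K ⧸ I) ⧸ J := (Ideal.Quotient.mk J).comp (Ideal.Quotient.mk I)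
  have hf : Function.Surjective f :=
    Ideal.Quotient.mk_surjective.comp Ideal.Quotient.mk_surjective
  have hk : RingHom.ker f = J.comap (Ideal.Quotient.mk I) := by
    ext x
    rw [RingHom.mem_ker, Ideal.mem_comap]
    exact Ideal.Quotient.eq_zero_iff_mem
  rw [← hk, Ideal.absNorm_apply, Submodule.cardQuot_apply]
  exact (Nat.card_congr (RingHom.quotientKerEquivOfSurjective hf).toEquiv).symm

/-- the norm of a proper ideal containing `q` is large -/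
theorem HMQ_norm {p0 q : ℕ} (hp0 : 1 ≤ p0) (hq : 0 < q)
    (hpq : ∀ p : ℕ, p.Prime → p ∣ q → p0 < p) (J : Ideal (𝓞 K)) (hJ : J ≠ ⊤)
    (hqJ : (q : 𝓞 K) ∈ J) : p0 < Ideal.absNorm J := by
  by_contra hc
  push Not at hc
  have hJ0 : J ≠ ⊥ := by
    rintro rfl
    have h2 : (q : 𝓞 K) = 0 := hqJ
    rw [Nat.cast_eq_zero] at h2
    omega
  have hN0 : Ideal.absNorm J ≠ 0 := by
    rw [Ne, Ideal.absNorm_eq_zero_iff]
    exact hJ0
  have hNJ : ((Ideal.absNorm J : ℕ) : 𝓞 K) ∈ J := Ideal.absNorm_mem J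
  have hcop : Nat.Coprime (Ideal.absNorm J) q := by
    rw [Nat.coprime_iff_gcd_eq_one]
    by_contra hg
    obtain ⟨p, hp, hpd⟩ := Nat.exists_prime_and_dvd hg
    have h1 := hpq p hp (hpd.trans (Nat.gcd_dvd_right _ _))
    have h2 := Nat.le_of_dvd (Nat.pos_of_ne_zero hN0) (hpd.trans (Nat.gcd_dvd_left _ _))
    omega
  obtain ⟨a, b, hab⟩ := Nat.isCoprime_iff_coprime.2 hcop
  apply hJ
  rw [Ideal.eq_top_iff_one]
  have h3 : ((a : 𝓞 K) * ((Ideal.absNorm J : ℕ) : 𝓞 K) + (b : 𝓞 K) * (q : 𝓞 K)) = 1 := by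
    have h4 := congrArg (fun z : ℤ => (z : 𝓞 K)) hab
    simpa using h4
  rw [← h3]
  exact Ideal.add_mem _ (Ideal.mul_mem_left _ _ hNJ) (Ideal.mul_mem_left _ _ hqJ)

end

theorem thm_HMQ (hI : St_IDT) : St_HMQ := by
  classical
  intro K _ _ M hM1
  obtain ⟨C, hC, hT⟩ := hI K M hM1
  refine ⟨C, hC, ?_⟩
  intro p0 q hp0 hq hpq
  obtain ⟨I, hIq⟩ : ∃ I : Ideal (𝓞 K), I = Ideal.span {(q : 𝓞 K)} := ⟨_, rfl⟩
  rw [← hIq]
  have hqI : (q : 𝓞 K) ∈ I := by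
    rw [hIq]
    exact Ideal.mem_span_singleton_self _
  have hI0 : I ≠ ⊥ := by
    intro h
    rw [h] at hqI
    have h2 : (q : 𝓞 K) = 0 := hqI
    rw [Nat.cast_eq_zero] at h2
    omega
  have hfin : Finite (𝓞 K ⧸ I) := Ideal.finiteQuotientOfFreeOfNeBot I hI0
  have hfin2 : Finite (Ideal (𝓞 K ⧸ I)) :=
    Finite.of_injective (fun J : Ideal (𝓞 K ⧸ I) => (J : Set (𝓞 K ⧸ I))) SetLike.coe_injective
  let _ := Fintype.ofFinite {J : Ideal (𝓞 K ⧸ I) // J ≠ ⊤}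
  unfold hM
  rw [finsum_eq_sum_of_fintype]
  have hinj : Set.InjOn (fun J : {J : Ideal (𝓞 K ⧸ I) // J ≠ ⊤} =>
      J.1.comap (Ideal.Quotient.mk I))
      ((Finset.univ : Finset {J : Ideal (𝓞 K ⧸ I) // J ≠ ⊤}) : Set _) := by
    intro J _ J' _ h
    exact Subtype.ext (Ideal.comap_injective_of_surjective _ Ideal.Quotient.mk_surjective h)
  have hsum : ∑ J : {J : Ideal (𝓞 K ⧸ I) // J ≠ ⊤},
      (Nat.card ((𝓞 K ⧸ I) ⧸ J.1) : ℝ) ^ (-(1 : ℝ) - 1 / (M : ℝ)) =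
      ∑ J ∈ (Finset.univ : Finset {J : Ideal (𝓞 K ⧸ I) // J ≠ ⊤}).image
        (fun J => J.1.comap (Ideal.Quotient.mk I)),
        (Ideal.absNorm J : ℝ) ^ (-(1 : ℝ) - 1 / (M : ℝ)) := by
    rw [Finset.sum_image hinj]
    refine Finset.sum_congr rfl fun J _ => ?_
    rw [HMQ_card]
  rw [hsum]
  refine hT p0 _ hp0 ?_
  intro J hJ
  obtain ⟨J', -, rfl⟩ := Finset.mem_image.1 hJ
  refine HMQ_norm hp0 hq hpq _ ?_ ?_
  · intro h
    apply J'.2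
    rw [Ideal.eq_top_iff_one] at h ⊢
    rw [Ideal.mem_comap, map_one] at h
    exact h
  · rw [Ideal.mem_comap, Ideal.Quotient.eq_zero_iff_mem.2 hqI]
    exact J'.1.zero_mem

end Pool.Agent.RHCB
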