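import Pool.Agent.RHCB.StB
import Pool.Agent.RHK.StA

/-!
RHCB, IDT: tails of sums over ideals (dyadic sum).
-/

set_option autoImplicit false

namespace Pool.Agent.RHCB

open NumberField

theorem IDT_step {C0 x z M : ℝ} (hx : 0 < x) (hz : 0 < z) (hM : 0 < M) (hC : 0 ≤ C0) {c : ℝ}
    (hc : c ≤ C0 * (2 * x * z)) :
    c * (x * z) ^ (-(1 : ℝ) - 1 / M) ≤
      2 * C0 * z ^ (-(1 : ℝ) / M) * x ^ (-(1 : ℝ) / M) := by
  have h1 : 0 < x * z := by positivity
  have h2 : (x * z) ^ (-(1 : ℝ) - 1 / M) = (x * z) ^ (-(1 : ℝ) / M) / (x * z) := by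
    rw [show -(1 : ℝ) - 1 / M = -(1 : ℝ) / M - 1 by ring, Real.rpow_sub_one h1.ne']
  have h3 : 0 < (x * z) ^ (-(1 : ℝ) / M) := by positivity
  calc c * (x * z) ^ (-(1 : ℝ) - 1 / M) ≤ C0 * (2 * x * z) * (x * z) ^ (-(1 : ℝ) - 1 / M) :=
        mul_le_mul_of_nonneg_right hc (by positivity)
    _ = 2 * C0 * (x * z) ^ (-(1 : ℝ) / M) := by
        rw [h2]
        field_simp
    _ = 2 * C0 * z ^ (-(1 : ℝ) / M) * x ^ (-(1 : ℝ) / M) := by
        rw [Real.mul_rpow hx.le hz.le]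
        ring

theorem thm_IDT (hI : Pool.Agent.RHK.St_IDC) : St_IDT := by
  intro K _ _ M hM
  obtain ⟨C0, hC0, hC⟩ := hI K
  have hM' : (0 : ℝ) < M := by exact_mod_cast hM
  have hC0' : (0 : ℝ) < C0 := by exact_mod_cast hC0
  set ρ : ℝ := (2 : ℝ) ^ (-(1 : ℝ) / (M : ℝ)) with hρ
  have hρ0 : 0 < ρ := by positivity
  have hρ1 : ρ < 1 := by
    rw [hρ]
    refine Real.rpow_lt_one_of_one_lt_of_neg (by norm_num) ?_
    rw [neg_div]
    have : 0 < 1 / (M : ℝ) := by positivity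
    linarith
  have h1ρ : 0 < 1 - ρ := by linarith
  refine ⟨2 * C0 / (1 - ρ), by positivity, ?_⟩
  intro z S hz hS
  have hz' : (0 : ℝ) < z := by exact_mod_cast hz
  set g : Ideal (𝓞 K) → ℕ := fun I => Nat.log 2 ((Ideal.absNorm I - 1) / z) with hg
  have hg1 : ∀ I ∈ S, 2 ^ g I * z ≤ Ideal.absNorm I ∧ Ideal.absNorm I ≤ 2 * 2 ^ g I * z := by
    intro I hI
    have h1 := hS I hI
    have h2 : (Ideal.absNorm I - 1) / z ≠ 0 := by
      have : 1 ≤ (Ideal.absNorm I - 1) / z := by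
        rw [Nat.le_div_iff_mul_le hz]
        omega
      omega
    have h3 := Nat.pow_log_le_self 2 h2
    have h4 := Nat.lt_pow_succ_log_self (b := 2) (by norm_num) ((Ideal.absNorm I - 1) / z)
    rw [Nat.le_div_iff_mul_le hz] at h3
    rw [Nat.div_lt_iff_lt_mul hz, Nat.succ_eq_add_one, pow_succ] at h4
    change 2 ^ g I * z ≤ _ at h3
    change _ < 2 ^ g I * 2 * z at h4
    have h5 : 2 ^ g I * 2 * z = 2 * 2 ^ g I * z := by ring
    rw [h5] at h4
    constructor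
    · exact h3.trans (Nat.sub_le _ _)
    · omega
  set J : ℕ := S.sup g + 1 with hJ
  have hmaps : ∀ I ∈ S, g I ∈ Finset.range J := by
    intro I hI
    rw [Finset.mem_range, hJ]
    exact Nat.lt_succ_of_le (Finset.le_sup (f := g) hI)
  rw [← Finset.sum_fiberwise_of_maps_to hmaps]
  have hfib : ∀ j ∈ Finset.range J, ∑ I ∈ S.filter (fun I => g I = j),
      (Ideal.absNorm I : ℝ) ^ (-(1 : ℝ) - 1 / (M : ℝ)) ≤
        2 * C0 * (z : ℝ) ^ (-(1 : ℝ) / (M : ℝ)) * ρ ^ j := by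
    intro j _
    have h2j : (0 : ℝ) < 2 ^ j := by positivity
    have hcard : ((S.filter (fun I => g I = j)).card : ℝ) ≤ C0 * (2 * 2 ^ j * z) := by
      have h1 := hC (2 * 2 ^ j * z) (S.filter (fun I => g I = j)) (by
        intro I hI
        rw [Finset.mem_filter] at hI
        have h2 := hg1 I hI.1
        have h3 := hS I hI.1
        rw [hI.2] at h2
        refine ⟨?_, h2.2⟩
        rintro rfl
        rw [Ideal.absNorm_bot] at h3
        omega)
      exact_mod_cast h1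
    have hterm : ∀ I ∈ S.filter (fun I => g I = j),
        (Ideal.absNorm I : ℝ) ^ (-(1 : ℝ) - 1 / (M : ℝ)) ≤
          ((2 : ℝ) ^ j * z) ^ (-(1 : ℝ) - 1 / (M : ℝ)) := by
      intro I hI
      rw [Finset.mem_filter] at hI
      have h2 := (hg1 I hI.1).1
      rw [hI.2] at h2
      have h3 : (2 : ℝ) ^ j * z ≤ (Ideal.absNorm I : ℝ) := by exact_mod_cast h2
      refine Real.rpow_le_rpow_of_nonpos (by positivity) h3 ?_
      have : 0 < 1 / (M : ℝ) := by positivity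
      linarith
    refine (Finset.sum_le_sum hterm).trans ?_
    rw [Finset.sum_const, nsmul_eq_mul]
    have h4 := IDT_step h2j hz' hM' hC0'.le hcard
    have h5 : ((2 : ℝ) ^ j) ^ (-(1 : ℝ) / (M : ℝ)) = ρ ^ j := by
      rw [hρ, ← Real.rpow_natCast, ← Real.rpow_natCast, ← Real.rpow_mul (by norm_num),
        ← Real.rpow_mul (by norm_num), mul_comm]
    rwa [h5] at h4
  refine (Finset.sum_le_sum hfib).trans ?_
  rw [← Finset.mul_sum]
  have hgeo : ∑ j ∈ Finset.range J, ρ ^ j ≤ (1 - ρ)⁻¹ := by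
    rw [← tsum_geometric_of_lt_one hρ0.le hρ1]
    exact (summable_geometric_of_lt_one hρ0.le hρ1).sum_le_tsum _ fun _ _ => by positivity
  calc 2 * C0 * (z : ℝ) ^ (-(1 : ℝ) / (M : ℝ)) * ∑ j ∈ Finset.range J, ρ ^ j
      ≤ 2 * C0 * (z : ℝ) ^ (-(1 : ℝ) / (M : ℝ)) * (1 - ρ)⁻¹ :=
        mul_le_mul_of_nonneg_left hgeo (by positivity)
    _ = 2 * C0 / (1 - ρ) * (z : ℝ) ^ (-(1 : ℝ) / (M : ℝ)) := by ring

end Pool.Agent.RHCB
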