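import Pool.Agent.RHCB.StB
import Pool.Agent.RHP.IFT

/-!
RHCB, module IFTC: points near a nonsingular point of `w^k = f(x)` (helper38).
-/

set_option autoImplicit false

namespace Pool.Agent.RHCB

open scoped BigOperators
open Classical NumberField IsDedekindDomain Filter Topology
open Pool.Agent.RHP (Mon mono ev Sys Prim pd WB WW IFT_dir)
open Pool.Agent.RHK Pool.Agent.RHC

/-- the implicit function theorem for one equation `G(f, z) = 0` and the unknown `z_j` -/
theorem IFTC_gen {L : Type} [NontriviallyNormedField L] [CompleteSpace L] {ι : Type} [Fintype ι]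
    {n : ℕ} (G : (ι → L) → (Fin n → L) → L) (f₀ : ι → L) (z₀ : Fin n → L) (j : Fin n)
    (han : AnalyticAt L (fun p : (ι → L) × (Fin n → L) => G p.1 p.2) (f₀, z₀))
    (h0 : G f₀ z₀ = 0) {D : L} (hD : D ≠ 0)
    (hd : HasDerivAt (fun t : L => G f₀ (Function.update z₀ j (z₀ j + t))) D 0) (r : ℝ)
    (hr : 0 < r) : ∃ δ : ℝ, 0 < δ ∧ ∀ f : ι → L, (∀ μ, ‖f μ - f₀ μ‖ ≤ δ) →
      ∀ κ : Fin n → L, (∀ l, ‖κ l - z₀ l‖ ≤ δ) →
        ∃ z : Fin n → L, (∀ l, l ≠ j → z l = κ l) ∧ (∀ l, ‖z l - z₀ l‖ ≤ r) ∧ G f z = 0 := by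
  set a : (ι → L) × (Fin n → L) := (f₀, z₀) with ha
  set g : (ι → L) × (Fin n → L) → L := fun p => G p.1 p.2 with hg
  have hg' : HasStrictFDerivAt g (fderiv L g a) a := han.hasStrictFDerivAt
  -- the derivative in the direction `j`
  have hdj : fderiv L g a (0, Pi.single j 1) = D := by
    have h1 : HasDerivAt (fun t : L => a + t • ((0, Pi.single j 1) : (ι → L) × (Fin n → L)))
        (0, Pi.single j 1) 0 := by
      have h := ((hasDerivAt_id (0 : L)).smul_const
        ((0, Pi.single j 1) : (ι → L) × (Fin n → L))).const_add a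
      rw [one_smul] at h
      exact h
    have h2 : HasFDerivAt g (fderiv L g a)
        (a + (0 : L) • ((0, Pi.single j 1) : (ι → L) × (Fin n → L))) := by
      rw [zero_smul, add_zero]
      exact hg'.hasFDerivAt
    have h3 := h2.comp_hasDerivAt (0 : L) h1
    have h4 : (g ∘ fun t : L => a + t • ((0, Pi.single j 1) : (ι → L) × (Fin n → L))) =
        fun t => G f₀ (Function.update z₀ j (z₀ j + t)) := by
      funext t
      show G (f₀ + t • (0 : ι → L)) (z₀ + t • (Pi.single j 1 : Fin n → L)) = _
      rw [smul_zero, add_zero]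
      congr 1
      funext l
      show z₀ l + t * (Pi.single j 1 : Fin n → L) l = _
      by_cases hl : l = j
      · subst hl
        rw [Pi.single_eq_same, Function.update_self, mul_one]
      · rw [Pi.single_eq_of_ne hl, Function.update_of_ne hl, mul_zero, add_zero]
    rw [h4] at h3
    exact h3.unique hd
  set Φ : (ι → L) × (Fin n → L) → (ι → L) × (Fin n → L) :=
    fun p => (p.1, fun l => if l = j then g p else p.2 l) with hΦ
  set Φ' : ((ι → L) × (Fin n → L)) →L[L] (ι → L) × (Fin n → L) :=
    (ContinuousLinearMap.fst L (ι → L) (Fin n → L)).prod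
      (ContinuousLinearMap.pi fun l => if l = j then fderiv L g a else
        (ContinuousLinearMap.proj (R := L) (φ := fun _ : Fin n => L) l).comp
          (ContinuousLinearMap.snd L (ι → L) (Fin n → L))) with hΦ'
  have hst : HasStrictFDerivAt Φ Φ' a := by
    refine HasStrictFDerivAt.prodMk hasStrictFDerivAt_fst (hasStrictFDerivAt_pi.2 fun l => ?_)
    by_cases hl : l = j
    · simp only [if_pos hl]
      exact hg'
    · simp only [if_neg hl]
      exact ((ContinuousLinearMap.proj (R := L) (φ := fun _ : Fin n => L) l).comp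
          (ContinuousLinearMap.snd L (ι → L) (Fin n → L))).hasStrictFDerivAt
  have hsurj : Φ'.range = ⊤ := by
    rw [LinearMap.range_eq_top]
    rintro ⟨A, c⟩
    set c' : Fin n → L := Function.update c j 0 with hc'
    set w : L := (c j - fderiv L g a (A, c')) / D with hw
    refine ⟨(A, c' + w • Pi.single j 1), ?_⟩
    have hi : fderiv L g a (A, c' + w • Pi.single j 1) = c j := by
      have h1 : ((A, c' + w • Pi.single j 1) : (ι → L) × (Fin n → L)) =
          (A, c') + w • ((0, Pi.single j 1) : (ι → L) × (Fin n → L)) := by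
        refine Prod.ext ?_ rfl
        simp
      rw [h1, map_add, map_smul, hdj, smul_eq_mul, hw, div_mul_cancel₀ _ hD]
      ring
    refine Prod.ext rfl ?_
    funext l
    show (if l = j then fderiv L g a else
        (ContinuousLinearMap.proj (R := L) (φ := fun _ : Fin n => L) l).comp
          (ContinuousLinearMap.snd L (ι → L) (Fin n → L))) (A, c' + w • Pi.single j 1) = c l
    by_cases hl : l = j
    · rw [if_pos hl, hi, hl]
    · rw [if_neg hl]
      show c' l + w * (Pi.single j 1 : Fin n → L) l = c l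
      rw [Pi.single_eq_of_ne hl, mul_zero, add_zero, hc', Function.update_of_ne hl]
  have hmap := hst.map_nhds_eq_of_surj hsurj
  -- the neighbourhood
  have hΦa : Φ a = (f₀, Function.update z₀ j 0) := by
    refine Prod.ext rfl ?_
    funext l
    show (if l = j then G f₀ z₀ else z₀ l) = Function.update z₀ j 0 l
    by_cases hl : l = j
    · rw [if_pos hl, hl, Function.update_self, h0]
    · rw [if_neg hl, Function.update_of_ne hl]
  have hN : Metric.ball a r ∈ 𝓝 a := Metric.ball_mem_nhds a hr
  have h1 : Φ '' Metric.ball a r ∈ 𝓝 (Φ a) := by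
    rw [← hmap]
    exact image_mem_map hN
  rw [hΦa] at h1
  obtain ⟨ε, hε, h2⟩ := Metric.mem_nhds_iff.1 h1
  refine ⟨ε / 2, half_pos hε, fun f hf κ hκ => ?_⟩
  have hmem : ((f, Function.update κ j 0) : (ι → L) × (Fin n → L)) ∈
      Metric.ball ((f₀, Function.update z₀ j 0) : (ι → L) × (Fin n → L)) ε := by
    rw [Metric.mem_ball]
    refine lt_of_le_of_lt ?_ (half_lt_self hε)
    rw [Prod.dist_eq]
    refine max_le ?_ ?_
    · refine (dist_pi_le_iff (half_pos hε).le).2 fun m => ?_
      rw [dist_eq_norm]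
      exact hf m
    · refine (dist_pi_le_iff (half_pos hε).le).2 fun l => ?_
      show dist (Function.update κ j 0 l) (Function.update z₀ j 0 l) ≤ ε / 2
      by_cases hl : l = j
      · subst hl
        rw [Function.update_self, Function.update_self, dist_self]
        exact (half_pos hε).le
      · rw [Function.update_of_ne hl, Function.update_of_ne hl, dist_eq_norm]
        exact hκ l
  obtain ⟨⟨f', z⟩, h3, h4⟩ := h2 hmem
  have h5 : f' = f := congrArg Prod.fst h4
  have h6 : ∀ l, (if l = j then G f' z else z l) = Function.update κ j 0 l := fun l =>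
    congrFun (congrArg Prod.snd h4) l
  subst h5
  rw [Metric.mem_ball, Prod.dist_eq] at h3
  have h8 : dist z z₀ < r := lt_of_le_of_lt (le_max_right _ _) h3
  refine ⟨z, fun l hl => ?_, fun l => ?_, ?_⟩
  · have h7 := h6 l
    rw [if_neg hl, Function.update_of_ne hl] at h7
    exact h7
  · rw [← dist_eq_norm]
    exact (dist_le_pi_dist z z₀ l).trans h8.le
  · have h7 := h6 j
    rw [if_pos rfl, Function.update_self] at h7
    exact h7

theorem IFTC_an {L : Type} [NontriviallyNormedField L] {s d : ℕ} (k : ℕ)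
    (a : (Mon s d → L) × (Fin (s + 1) → L)) :
    AnalyticAt L (fun p : (Mon s d → L) × (Fin (s + 1) → L) =>
      ev p.1 (fun l => p.2 l.succ) - p.2 0 ^ k) a := by
  unfold ev mono
  refine AnalyticAt.sub (Finset.analyticAt_fun_sum _ fun m _ => ?_) (AnalyticAt.pow ?_ _)
  · refine AnalyticAt.mul ?_ (Finset.analyticAt_fun_prod _ fun l _ => AnalyticAt.pow ?_ _)
    · exact ((ContinuousLinearMap.proj (R := L) (φ := fun _ : Mon s d => L) m).comp
        (ContinuousLinearMap.fst L (Mon s d → L) (Fin (s + 1) → L))).analyticAt a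
    · exact ((ContinuousLinearMap.proj (R := L) (φ := fun _ : Fin (s + 1) => L) l.succ).comp
        (ContinuousLinearMap.snd L (Mon s d → L) (Fin (s + 1) → L))).analyticAt a
  · exact ((ContinuousLinearMap.proj (R := L) (φ := fun _ : Fin (s + 1) => L) 0).comp
        (ContinuousLinearMap.snd L (Mon s d → L) (Fin (s + 1) → L))).analyticAt a

theorem thm_IFTC : St_IFTC := by
  intro L _ _ s k m _ _ f₀ z₀ j h0 hj r hr
  have h0' : ev f₀ (fun l => z₀ l.succ) - z₀ 0 ^ k = 0 := sub_eq_zero.2 h0
  obtain ⟨D, hD, hd⟩ : ∃ D : L, D ≠ 0 ∧ HasDerivAt (fun t : L =>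
      ev f₀ (fun l => Function.update z₀ j (z₀ j + t) l.succ) -
        Function.update z₀ j (z₀ j + t) 0 ^ k) D 0 := by
    rcases hj with ⟨rfl, hk⟩ | ⟨l, rfl, hl⟩
    · refine ⟨-((k : L) * z₀ 0 ^ (k - 1)), neg_ne_zero.2 hk, ?_⟩
      have h1 : (fun t : L => ev f₀ (fun l => Function.update z₀ 0 (z₀ 0 + t) l.succ) -
          Function.update z₀ 0 (z₀ 0 + t) 0 ^ k) = fun t =>
          ev f₀ (fun l => z₀ l.succ) - (z₀ 0 + t) ^ k := by
        funext t
        rw [Function.update_self]
        have h2 : (fun l : Fin s => Function.update z₀ 0 (z₀ 0 + t) l.succ) =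
            fun l => z₀ l.succ := by
          funext l
          rw [Function.update_of_ne (Fin.succ_ne_zero l)]
        rw [h2]
      rw [h1]
      have h2 := (((hasDerivAt_id (0 : L)).const_add (z₀ 0)).pow k).const_sub
        (ev f₀ (fun l => z₀ l.succ))
      have h3 : -((k : L) * (z₀ 0 + 0) ^ (k - 1) * 1) = -((k : L) * z₀ 0 ^ (k - 1)) := by
        rw [add_zero, mul_one]
      rw [← h3]
      exact h2
    · refine ⟨pd l f₀ (fun l => z₀ l.succ), hl, ?_⟩
      have h1 : (fun t : L => ev f₀ (fun i => Function.update z₀ l.succ (z₀ l.succ + t) i.succ) -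
          Function.update z₀ l.succ (z₀ l.succ + t) 0 ^ k) = fun t =>
          ev f₀ (Function.update (fun i : Fin s => z₀ i.succ) l (z₀ l.succ + t)) - z₀ 0 ^ k := by
        funext t
        rw [Function.update_of_ne (Fin.succ_ne_zero l).symm]
        congr 2
        funext i
        by_cases hi : i = l
        · subst hi
          rw [Function.update_self, Function.update_self]
        · rw [Function.update_of_ne hi, Function.update_of_ne (fun h => hi (Fin.succ_injective _ h))]
      rw [h1]
      exact (IFT_dir f₀ (fun i => z₀ i.succ) l).sub_const _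
  obtain ⟨δ, hδ, h⟩ := IFTC_gen (fun f z => ev f (fun l => z l.succ) - z 0 ^ k) f₀ z₀ j
    (IFTC_an k (f₀, z₀)) h0' hD hd r hr
  refine ⟨δ, hδ, fun f hf κ hκ => ?_⟩
  obtain ⟨z, h1, h2, h3⟩ := h f hf κ hκ
  exact ⟨z, h1, h2, sub_eq_zero.1 h3⟩

end Pool.Agent.RHCB
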