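import Pool.Agent.RHCB.StB
import Pool.Agent.RHK.StA

/-!
RHCB, module NGCC (helper35): the points on hyperplanes of small height.
-/

set_option autoImplicit false

namespace Pool.Agent.RHCB

open scoped BigOperators
open Classical NumberField IsDedekindDomain
open Pool.Agent.RHP (Mon mono ev Sys Prim pd WB WW)
open Pool.Agent.RHK Pool.Agent.RHC

theorem thm_NGCC (hG : Pool.Agent.RHK.St_NG) : St_NGCC := by
  intro K _ _ s hs c hc
  obtain ⟨C1, hC1, hG⟩ := hG K s hs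
  have hC1' : (0 : ℝ) < C1 := by exact_mod_cast hC1
  refine ⟨C1, hC1', C1 + 1, fun t ht => ?_⟩
  have ht1 : 1 ≤ t := by omega
  have ht1' : (1 : ℝ) ≤ t := by exact_mod_cast ht1
  obtain ⟨n, hn⟩ : ∃ n : ℕ, s = n + 2 := ⟨s - 2, by omega⟩
  have h1 := hG (XC s c t) (t ^ c) (Nat.one_le_pow _ _ ht1) (by
    have h2 : c + 1 ≤ c * (s - 1) + 1 := by
      rw [hn]
      have : c * 1 ≤ c * (n + 2 - 1) := Nat.mul_le_mul_left c (by omega)
      omega
    calc C1 * t ^ c ≤ t * t ^ c := Nat.mul_le_mul_right _ (by omega)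
      _ = t ^ (c + 1) := by rw [pow_succ, mul_comm]
      _ ≤ t ^ (c * (s - 1) + 1) := Nat.pow_le_pow_right ht1 h2)
  obtain ⟨A0, hA0⟩ : ∃ A0 : Finset (Fin s → 𝓞 K), A0 =
    (bx K s ((XC s c t : ℕ) : ℝ)).filter fun x => ∃ l : Fin s → 𝓞 K, l ≠ 0 ∧
      (∀ v : InfinitePlace K, vs v l ≤ (t : ℝ) ^ c) ∧ dp l x = 0 := ⟨_, rfl⟩
  rw [← hA0]
  have h3 : (A0.card : ℝ) ≤ C1 * (((XC s c t : ℝ) ^ (s - 1) *
      ((t : ℝ) ^ c) ^ (s - 1)) ^ dg K) := by
    have h4 : A0.card ≤ C1 * ((XC s c t) ^ (s - 1) *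
        (t ^ c) ^ (s - 1)) ^ dg K := by
      refine le_trans (le_of_eq ?_) h1
      rw [hA0]
      congr 1
      push_cast
      rfl
    exact_mod_cast h4
  have hdg : 1 ≤ dg K := Nat.succ_le_of_lt Module.finrank_pos
  have h5 : (t : ℝ) ≤ (t : ℝ) ^ dg K := by
    have h6 : (t : ℝ) ^ 1 ≤ (t : ℝ) ^ dg K := pow_le_pow_right₀ ht1' hdg
    rwa [pow_one] at h6
  calc (A0.card : ℝ) * t ≤ C1 * (((XC s c t : ℝ) ^ (s - 1) *
      ((t : ℝ) ^ c) ^ (s - 1)) ^ dg K) * (t : ℝ) ^ dg K :=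
        mul_le_mul h3 h5 (by positivity) (by positivity)
    _ = C1 * ((XC s c t : ℝ) ^ s) ^ dg K := by
        rw [mul_assoc, ← mul_pow]
        congr 2
        unfold XC
        rw [hn]
        have e : n + 2 - 1 = n + 1 := rfl
        rw [e]
        push_cast
        ring

end Pool.Agent.RHCB
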