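import Pool.Agent.RHCB.StB

/-!
RHCB [PAIRC]: the number of forms with given values at two points of a finite ring (helper87).
-/

set_option autoImplicit false

namespace Pool.Agent.RHCB

open scoped BigOperators
open Classical NumberField IsDedekindDomain
open Pool.Agent.RHP (Mon mono ev Prim ev_sub)
open Pool.Agent.RHKB (mI)

theorem thm_PAIRC (hP : RHKB.St_PAIR) : St_PAIRC := by
  intro A _ _ s d hd ρ ρ' hρ hρ' a b
  refine le_trans ?_ (hP A s d hd ρ ρ' hρ hρ')
  refine Nat.mul_le_mul_right _ ?_
  by_cases h : Nonempty {f : Mon s d → A // ev f ρ = a ∧ ev f ρ' = b}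
  · obtain ⟨f0⟩ := h
    refine Nat.card_le_card_of_injective (fun f => ⟨fun m => f.1 m - f0.1 m, by
      rw [ev_sub, ev_sub, f.2.1, f.2.2, f0.2.1, f0.2.2, sub_self, sub_self]
      exact ⟨rfl, rfl⟩⟩) ?_
    intro f g hfg
    apply Subtype.ext
    funext m
    have h1 := congrFun (congrArg Subtype.val hfg) m
    exact sub_left_injective h1
  · rw [not_nonempty_iff] at h
    rw [Nat.card_of_isEmpty]
    exact Nat.zero_le _

end Pool.Agent.RHCB
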