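import Pool.Agent.RHCB.StB

/-!
RHCB, module SIGLOWC: the local densities are seldom small (helper94, adapting `RHKB/SIGLOW.lean`
of helper89 and helper7).
-/

set_option autoImplicit false

namespace Pool.Agent.RHCB

open scoped BigOperators
open Classical NumberField IsDedekindDomain
open Pool.Agent.RHP (Mon mono ev Sys Prim pd WB WW)
open Pool.Agent.RHK Pool.Agent.RHC
open Pool.Agent.RHKB (mI hh jj qv MK uu BadK)

theorem SIGLOWC_frac {K : Type} [Field K] [NumberField K] {s d : ℕ}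
    (I : Ideal (𝓞 K)) (hfin : Finite (𝓞 K ⧸ I)) (H : ℕ)
    (S : (Mon s d → 𝓞 K ⧸ I) → Prop)
    (hE : (((box K s d H).filter fun f => cred I f ∈ {G | S G}).card : ℝ) *
        (Nat.card (Mon s d → 𝓞 K ⧸ I) : ℝ) ≤
          2 * (({G | S G} : Set (Mon s d → 𝓞 K ⧸ I)).ncard : ℝ) *
          ((box K s d H).card : ℝ)) (M : ℝ)
    (hS : (Nat.card {G : Mon s d → 𝓞 K ⧸ I // S G} : ℝ) ≤
      M * (Nat.card (Mon s d → 𝓞 K ⧸ I) : ℝ)) :
    (((box K s d H).filter fun f => S (cred I f)).card : ℝ) ≤ 2 * M * ((box K s d H).card : ℝ) := by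
  have hN : (0 : ℝ) < (Nat.card (Mon s d → 𝓞 K ⧸ I) : ℝ) := by
    exact_mod_cast (Nat.card_pos : 0 < Nat.card (Mon s d → 𝓞 K ⧸ I))
  have h1 : Nat.card {G : Mon s d → 𝓞 K ⧸ I // S G} =
      ({G | S G} : Set (Mon s d → 𝓞 K ⧸ I)).ncard := Nat.card_coe_set_eq _
  rw [h1] at hS
  generalize (({G | S G} : Set (Mon s d → 𝓞 K ⧸ I)).ncard : ℝ) = n at hS hE
  generalize (Nat.card (Mon s d → 𝓞 K ⧸ I) : ℝ) = N at hS hE hN
  obtain ⟨b, hb⟩ : ∃ b : ℝ, b = ((box K s d H).card : ℝ) := ⟨_, rfl⟩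
  have hb0 : 0 ≤ b := hb ▸ Nat.cast_nonneg _
  rw [← hb] at hE ⊢
  have h2 : (((box K s d H).filter fun f => S (cred I f)).card : ℝ) * N ≤ 2 * n * b := hE
  generalize (((box K s d H).filter fun f => S (cred I f)).card : ℝ) = a at h2 ⊢
  have h3 : a * N ≤ 2 * M * b * N := by
    have h5 := mul_le_mul_of_nonneg_right hS hb0
    linarith
  exact le_of_mul_le_mul_right h3 hN

theorem SIGLOWC_finite {K : Type} [Field K] [NumberField K] (q : ℕ) (hq : 0 < q) :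
    Finite (𝓞 K ⧸ Ideal.span {(q : 𝓞 K)}) := by
  refine Ideal.finiteQuotientOfFreeOfNeBot _ ?_
  rw [Ne, Ideal.span_singleton_eq_bot]
  exact_mod_cast hq.ne'

/-- the lower bound at one finite place -/
theorem SIGLOWC_place (hU : St_UIFTC) (hP : St_PCNC) (hV : Pool.Agent.RHKB.St_PLV) {K : Type}
    [Field K] [NumberField K] (s k m : ℕ) (hk : 2 ≤ k) (hm : 1 ≤ m)
    (v : HeightOneSpectrum (𝓞 K)) (τ : ℝ) (hτ : 0 < τ) :
    ∃ c : ℝ, 0 < c ∧ ∀ f : Mon s (k * m) → 𝓞 K, HasZeroC f (v.adicCompletion K) →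
      ¬ BadC τ (cemb (1 : v.adicCompletion K) f) →
        ∀ j : ℕ, c ≤ csig k (cred (v.asIdeal ^ j) f) := by
  obtain ⟨hprop, hq1, hnt, hultra, hint, happ, hval⟩ := hV K v
  have hk0 : ((k : ℕ) : v.adicCompletion K) ≠ 0 := by
    have h1 : ((k : ℕ) : K) ≠ 0 := Nat.cast_ne_zero.2 (by omega)
    have h2 : algebraMap K (v.adicCompletion K) ((k : ℕ) : K) = ((k : ℕ) : v.adicCompletion K) :=
      map_natCast _ _
    rw [← h2]
    exact (map_ne_zero _).2 h1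
  obtain ⟨δ, hδ, h1⟩ := hU (v.adicCompletion K) hnt s k m hk hm hk0 1 one_ne_zero
    (le_of_eq norm_one) 1 τ (1 / 2) hτ (by norm_num)
  obtain ⟨c, hc, h2⟩ := hP K v s k (k * m) (by omega) δ hδ
  refine ⟨c, hc, fun f hz hb j =>
    h2 f (Fintype.card (Mon s (k * m)) * (1 : ℕ) + 1 : ℝ) ?_ j⟩
  have h3 := h1 (cemb (1 : v.adicCompletion K) f) (fun μ => ?_) hb ?_
  · rwa [norm_one] at h3
  · have h4 := (hint (f μ) 0).2 (by rw [pow_zero, Ideal.one_eq_top]; exact Submodule.mem_top)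
    rw [pow_zero, inv_one] at h4
    unfold cemb
    rw [one_mul, Nat.cast_one]
    exact h4
  · obtain ⟨x, hx0, w, hx⟩ := hz
    refine ⟨x, hx0, w, ?_⟩
    rw [← hx]
    congr 1
    funext μ
    unfold cemb jj
    rw [one_mul]
    rfl

theorem SIGLOWC_p0 (C C1 C2 ε : ℝ) (hε : 0 < ε) (M : ℕ) (hM : 1 ≤ M) :
    ∃ p0 : ℕ, 1 ≤ p0 ∧
      2 * (C * (C1 / (p0 : ℝ) + C2 * (p0 : ℝ) ^ (-(1 : ℝ) / (M : ℝ)))) ≤ ε := by
  have hM0 : (0 : ℝ) < 1 / (M : ℝ) := by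
    have : (0 : ℝ) < (M : ℝ) := by exact_mod_cast (show 0 < M by omega)
    positivity
  have h1 : Filter.Tendsto (fun n : ℕ => C1 / (n : ℝ)) Filter.atTop (nhds 0) :=
    tendsto_const_div_atTop_nhds_zero_nat C1
  have h2 : Filter.Tendsto (fun n : ℕ => (n : ℝ) ^ (-(1 : ℝ) / (M : ℝ))) Filter.atTop (nhds 0) := by
    have h3 := (tendsto_rpow_neg_atTop hM0).comp (tendsto_natCast_atTop_atTop (R := ℝ))
    rw [show (-(1 : ℝ) / (M : ℝ)) = -(1 / (M : ℝ)) from neg_div _ _]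
    exact h3
  have h3 : Filter.Tendsto (fun n : ℕ => 2 * (C * (C1 / (n : ℝ) +
      C2 * (n : ℝ) ^ (-(1 : ℝ) / (M : ℝ))))) Filter.atTop (nhds (2 * (C * (0 + C2 * 0)))) :=
    ((h1.add (h2.const_mul C2)).const_mul C).const_mul 2
  rw [mul_zero, add_zero, mul_zero, mul_zero] at h3
  obtain ⟨n, hn1, hn2⟩ := ((h3.eventually_lt_const hε).and (Filter.eventually_ge_atTop 1)).exists
  exact ⟨n, hn2, hn1.le⟩

theorem thm_SIGLOWC (hS : St_SIGC) (hH : Pool.Agent.RHKB.St_HSUM) (hQ : St_HMQ) (hA : St_WABC)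
    (hB : St_BADC) (hU : St_UIFTC) (hP : St_PCNC) (hE : St_EQUC)
    (hV : Pool.Agent.RHKB.St_PLV) : St_SIGLOWC := by
  intro K _ _ s k m hyp ε hε
  have hs3 := hyp.hs
  have hk2 := hyp.hk
  have hm1 := hyp.hm
  have hkm : 1 ≤ k * m := Nat.mul_pos (by omega) hm1
  have hM : 1 ≤ MM k := by
    unfold MM
    have : 2 * 1 ≤ k * (k + 1) := Nat.mul_le_mul hk2 (by omega)
    omega
  obtain ⟨C1, hC10, hC1⟩ := hH K
  obtain ⟨C2, hC20, hC2⟩ := hQ K (MM k) hM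
  obtain ⟨C, hC0, hC⟩ := hS K s k (k * m) hs3 (by omega) hkm
  obtain ⟨p0, hp01, hp0⟩ := SIGLOWC_p0 C C1 C2 (ε / 2) (by positivity) (MM k) hM
  obtain ⟨S, hS1, hS2⟩ := hA K p0
  obtain ⟨ε', hε', hεS⟩ : ∃ ε' : ℝ, 0 < ε' ∧ (S.card : ℝ) * ε' ≤ ε / 2 := by
    refine ⟨ε / (2 * ((S.card : ℝ) + 1)), by positivity, ?_⟩
    rw [mul_div_assoc', div_le_div_iff₀ (by positivity) (by norm_num)]
    have : (0 : ℝ) ≤ (S.card : ℝ) := Nat.cast_nonneg _
    nlinarith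
  choose τ hτ Hv hHv using (hB K s (k * m) (by omega) hkm ε' hε').1
  choose c hc hcF using fun v => SIGLOWC_place hU hP hV s k m hk2 hm1 v (τ v) (hτ v)
  refine ⟨(∏ v ∈ S, c v) * (1 / 2), by
    have : 0 < ∏ v ∈ S, c v := Finset.prod_pos fun v _ => hc v
    positivity, S, p0, fun m0 hm0 => ?_⟩
  obtain ⟨hWB0, hWBp, n, hWBs⟩ := hS2 m0 hm0
  obtain ⟨H1, hH1⟩ := hE K s (k * m) (Ideal.span {(WB p0 m0 : 𝓞 K)}) (by
    rw [Ne, Ideal.span_singleton_eq_bot]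
    exact_mod_cast hWB0.ne')
  refine ⟨max H1 (S.sup Hv), fun H hHH => ?_⟩
  have hHH1 : H1 ≤ H := (le_max_left _ _).trans hHH
  have hHHv : ∀ v ∈ S, Hv v ≤ H := fun v hv =>
    (Finset.le_sup hv).trans ((le_max_right _ _).trans hHH)
  have hfin := SIGLOWC_finite (K := K) (WB p0 m0) hWB0
  -- the bad forms
  obtain ⟨B1, hB1⟩ : ∃ B1 : HeightOneSpectrum (𝓞 K) → Finset (Mon s (k * m) → 𝓞 K), B1 = fun v =>
    (box K s (k * m) H).filter fun f => BadC (τ v) (cemb (1 : v.adicCompletion K) f) := ⟨_, rfl⟩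
  obtain ⟨B2, hB2⟩ : ∃ B2 : Finset (Mon s (k * m) → 𝓞 K), B2 = (box K s (k * m) H).filter fun f =>
    csig k (cred (Ideal.span {(WB p0 m0 : 𝓞 K)}) f) < 1 / 2 := ⟨_, rfl⟩
  have h1 : (B2.card : ℝ) ≤ ε / 2 * ((box K s (k * m) H).card : ℝ) := by
    have h3 := hC1 p0 (WB p0 m0) hp01 hWB0 hWBp
    have h3' := hC2 p0 (WB p0 m0) hp01 hWB0 hWBp
    have h2 := SIGLOWC_frac (Ideal.span {(WB p0 m0 : 𝓞 K)}) hfin H
      (fun G : Mon s (k * m) → 𝓞 K ⧸ Ideal.span {(WB p0 m0 : 𝓞 K)} => csig k G < 1 / 2)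
      (hH1 H hHH1 _) (C * (C1 / (p0 : ℝ) + C2 * (p0 : ℝ) ^ (-(1 : ℝ) / (MM k : ℝ)))) (by
        refine (hC (WB p0 m0) hWB0).trans ?_
        refine mul_le_mul_of_nonneg_right ?_ (Nat.cast_nonneg _)
        exact mul_le_mul_of_nonneg_left (add_le_add h3 h3') hC0.le)
    rw [hB2]
    exact h2.trans (mul_le_mul_of_nonneg_right hp0 (Nat.cast_nonneg _))
  have h2 : ∀ v ∈ S, ((B1 v).card : ℝ) ≤ ε' * ((box K s (k * m) H).card : ℝ) := by
    intro v hv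
    rw [hB1]
    exact hHv v H (hHHv v hv)
  have hsub : ((box K s (k * m) H).filter fun f =>
      (∀ v ∈ S, HasZeroC f (v.adicCompletion K)) ∧
      csig k (cred (Ideal.span {(WW m0 : 𝓞 K)}) f) < (∏ v ∈ S, c v) * (1 / 2)) ⊆
      S.biUnion B1 ∪ B2 := by
    intro F hF
    rw [Finset.mem_filter] at hF
    obtain ⟨hF1, hF2, hF3⟩ := hF
    by_contra hcon
    rw [Finset.mem_union, not_or, Finset.mem_biUnion] at hcon
    obtain ⟨hc1, hc2⟩ := hcon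
    have h3 : (1 : ℝ) / 2 ≤ csig k (cred (Ideal.span {(WB p0 m0 : 𝓞 K)}) F) := by
      by_contra h4
      apply hc2
      rw [hB2, Finset.mem_filter]
      exact ⟨hF1, not_le.1 h4⟩
    have h4 : ∏ v ∈ S, c v ≤ ∏ v ∈ S, csig k (cred (v.asIdeal ^ n v) F) := by
      refine Finset.prod_le_prod (fun v _ => (hc v).le) fun v hv => ?_
      apply hcF v F (hF2 v hv)
      intro h5
      apply hc1
      refine ⟨v, hv, ?_⟩
      rw [hB1]
      exact Finset.mem_filter.2 ⟨hF1, h5⟩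
    have h5 : 0 ≤ ∏ v ∈ S, c v := Finset.prod_nonneg fun v _ => (hc v).le
    rw [hWBs s k (k * m) F] at hF3
    have h6 : (∏ v ∈ S, c v) * (1 / 2) ≤
        (∏ v ∈ S, csig k (cred (v.asIdeal ^ n v) F)) *
          csig k (cred (Ideal.span {(WB p0 m0 : 𝓞 K)}) F) :=
      mul_le_mul h4 h3 (by norm_num) (h5.trans h4)
    exact absurd hF3 (not_lt.2 h6)
  have h3 : (((box K s (k * m) H).filter fun f =>
      (∀ v ∈ S, HasZeroC f (v.adicCompletion K)) ∧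
      csig k (cred (Ideal.span {(WW m0 : 𝓞 K)}) f) < (∏ v ∈ S, c v) * (1 / 2)).card : ℝ) ≤
      ∑ v ∈ S, ((B1 v).card : ℝ) + (B2.card : ℝ) := by
    have h4 := (Finset.card_le_card hsub).trans ((Finset.card_union_le _ _).trans
      (Nat.add_le_add_right Finset.card_biUnion_le _))
    exact_mod_cast h4
  have h4 := Finset.sum_le_sum h2
  rw [Finset.sum_const, nsmul_eq_mul] at h4
  have h6 : (S.card : ℝ) * (ε' * ((box K s (k * m) H).card : ℝ)) ≤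
      ε / 2 * ((box K s (k * m) H).card : ℝ) := by
    rw [← mul_assoc]
    exact mul_le_mul_of_nonneg_right hεS (Nat.cast_nonneg _)
  linarith

end Pool.Agent.RHCB
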