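import Pool.Agent.RHCB.StB

/-!
RHCB, module WABC: the product over the prime ideals (helper35, port of RHKB/WAB.lean).
-/

set_option autoImplicit false

namespace Pool.Agent.RHCB

open scoped BigOperators
open Classical NumberField IsDedekindDomain
open Pool.Agent.RHP (Mon mono ev Sys Prim WB WW)
open Pool.Agent.RHK

theorem WABC_one {K : Type} [Field K] [NumberField K] {s d : ℕ} (k : ℕ)
    (f : Mon s d → 𝓞 K) : csig k (cred (⊤ : Ideal (𝓞 K)) f) = 1 := by
  have hs : Subsingleton (𝓞 K ⧸ (⊤ : Ideal (𝓞 K))) := Ideal.Quotient.subsingleton_iff.2 rfl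
  have h1 : ccnt k (cred (⊤ : Ideal (𝓞 K)) f) = 1 := by
    unfold ccnt
    rw [Nat.card_eq_one_iff_unique]
    refine ⟨⟨fun a b => Subtype.ext (Subsingleton.elim _ _)⟩,
      ⟨⟨(fun _ => 0, 0), ⟨fun _ => 0, ?_⟩, ?_⟩⟩⟩
    · exact Subsingleton.elim _ _
    · exact Subsingleton.elim _ _
  have h2 : Nat.card (𝓞 K ⧸ (⊤ : Ideal (𝓞 K))) = 1 := Nat.card_unique
  unfold csig
  rw [h1, h2]
  simp

theorem WABC_prod (h : St_CRTC) {K : Type} [Field K] [NumberField K]
    (n : HeightOneSpectrum (𝓞 K) → ℕ) (S : Finset (HeightOneSpectrum (𝓞 K))) (s k d : ℕ)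
    (f : Mon s d → 𝓞 K) :
    csig k (cred (∏ v ∈ S, v.asIdeal ^ n v) f) = ∏ v ∈ S, csig k (cred (v.asIdeal ^ n v) f) := by
  induction S using Finset.induction_on with
  | empty =>
    rw [Finset.prod_empty, Finset.prod_empty, Ideal.one_eq_top]
    exact WABC_one k f
  | insert p S hp ih =>
    rw [Finset.prod_insert hp, Finset.prod_insert hp, ← ih]
    apply h
    · exact pow_ne_zero _ p.ne_bot
    · exact Finset.prod_ne_zero_iff.2 fun q _ => pow_ne_zero _ q.ne_bot
    · refine IsCoprime.prod_right fun q hq => ?_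
      refine HeightOneSpectrum.isCoprime_pow_of_ne p q ?_ _ _
      rintro rfl
      exact hp hq

/-- a prime ideal containing a product of powers contains a factor -/
theorem WABC_mem {K : Type} [Field K] [NumberField K] (v : HeightOneSpectrum (𝓞 K))
    (S : Finset ℕ) (k : ℕ) (h : ((∏ p ∈ S, p ^ k : ℕ) : 𝓞 K) ∈ v.asIdeal) :
    ∃ p ∈ S, (p : 𝓞 K) ∈ v.asIdeal := by
  rw [Nat.cast_prod] at h
  obtain ⟨p, hp, h1⟩ := (v.isPrime.prod_mem_iff).1 h
  rw [Nat.cast_pow] at h1
  exact ⟨p, hp, v.isPrime.mem_of_pow_mem _ h1⟩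

theorem thm_WABC (h : St_CRTC) : St_WABC := by
  intro K _ _ p0
  set Q : Finset ℕ := (Finset.range (p0 + 1)).filter Nat.Prime with hQ
  have hP0 : ∀ k : ℕ, (∏ p ∈ Q, p ^ k : ℕ) ≠ 0 := fun k =>
    Finset.prod_ne_zero_iff.2 fun p hp => pow_ne_zero _ (Finset.mem_filter.1 hp).2.ne_zero
  have hI0 : ∀ k : ℕ, Ideal.span {((∏ p ∈ Q, p ^ k : ℕ) : 𝓞 K)} ≠ 0 := by
    intro k h0
    rw [Ideal.zero_eq_bot, Ideal.span_singleton_eq_bot, Nat.cast_eq_zero] at h0
    exact hP0 k h0
  have hfin := Ideal.finite_factors (hI0 1)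
  set S : Finset (HeightOneSpectrum (𝓞 K)) := hfin.toFinset with hS
  have hmemS : ∀ v : HeightOneSpectrum (𝓞 K), v ∈ S ↔
      ((∏ p ∈ Q, p ^ 1 : ℕ) : 𝓞 K) ∈ v.asIdeal := by
    intro v
    rw [hS, Set.Finite.mem_toFinset]
    show v.asIdeal ∣ _ ↔ _
    rw [Ideal.dvd_iff_le, Ideal.span_singleton_le_iff_mem]
  refine ⟨S, fun v hv => ?_, fun m0 hle => ?_⟩
  · obtain ⟨p, hp, h1⟩ := WABC_mem v Q 1 ((hmemS v).1 hv)
    obtain ⟨h2, h3⟩ := Finset.mem_filter.1 hp
    exact ⟨p, h3, by have := Finset.mem_range.1 h2; omega, h1⟩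
  have hW : 0 < WB p0 m0 := Finset.prod_pos fun q hq => pow_pos (Finset.mem_filter.1 hq).2.pos _
  refine ⟨hW, ?_, ?_⟩
  · intro p hp hd
    unfold WB at hd
    obtain ⟨q, hq, hd'⟩ := (hp.prime.dvd_finsetProd_iff _).1 hd
    obtain ⟨h1, h2⟩ := Finset.mem_filter.1 hq
    have h3 := (Nat.prime_dvd_prime_iff_eq hp h2).1 (hp.dvd_of_dvd_pow hd')
    rw [h3]
    exact (Finset.mem_Ioc.1 h1).1
  · set I1 : Ideal (𝓞 K) := Ideal.span {((∏ p ∈ Q, p ^ m0 : ℕ) : 𝓞 K)} with hI1
    refine ⟨fun v => (Associates.mk v.asIdeal).count (Associates.mk I1).factors,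
      fun s k d f => ?_⟩
    have hprod : ∏ v ∈ S, v.asIdeal ^ (Associates.mk v.asIdeal).count (Associates.mk I1).factors =
        I1 := by
      have h1 := Ideal.finprod_heightOneSpectrum_factorization (hI0 m0)
      rw [finprod_eq_prod_of_mulSupport_subset (s := S)] at h1
      · exact h1
      · intro v hv
        rw [Finset.mem_coe, hmemS]
        have h2 : v.asIdeal ∣ I1 := by
          rw [← Associates.count_ne_zero_iff_dvd (hI0 m0) v.irreducible]
          intro h0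
          apply hv
          show v.asIdeal ^ (Associates.mk v.asIdeal).count (Associates.mk I1).factors = 1
          rw [h0, pow_zero]
        rw [hI1, Ideal.dvd_iff_le, Ideal.span_singleton_le_iff_mem] at h2
        obtain ⟨p, hp, h3⟩ := WABC_mem v Q m0 h2
        have h4 : ((∏ p ∈ Q, p ^ 1 : ℕ) : 𝓞 K) = (p : 𝓞 K) * ((∏ q ∈ Q.erase p, q ^ 1 : ℕ) : 𝓞 K) := by
          rw [← Nat.cast_mul, ← Finset.mul_prod_erase Q (fun p => p ^ 1) hp, pow_one]
        rw [h4]
        exact Ideal.mul_mem_right _ _ h3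
    have h1 : WW m0 = (∏ p ∈ Q, p ^ m0) * WB p0 m0 := by
      unfold WW WB
      rw [← Finset.prod_union]
      · refine Finset.prod_congr ?_ fun _ _ => rfl
        ext p
        simp only [hQ, Finset.mem_filter, Finset.mem_range, Finset.mem_union, Finset.mem_Ioc]
        constructor
        · rintro ⟨h1, h2⟩
          rcases Nat.lt_or_ge p (p0 + 1) with h3 | h3
          · exact Or.inl ⟨h3, h2⟩
          · exact Or.inr ⟨⟨by omega, by omega⟩, h2⟩
        · rintro (⟨h1, h2⟩ | ⟨⟨h1, h3⟩, h2⟩)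
          · exact ⟨by omega, h2⟩
          · exact ⟨by omega, h2⟩
      · rw [Finset.disjoint_left]
        intro p h1 h2
        simp only [hQ, Finset.mem_filter, Finset.mem_range, Finset.mem_Ioc] at h1 h2
        omega
    have hcop : Nat.Coprime (∏ p ∈ Q, p ^ m0) (WB p0 m0) := by
      unfold WB
      refine Nat.Coprime.prod_left fun p hp => Nat.Coprime.prod_right fun q hq => ?_
      obtain ⟨h1, h2⟩ := Finset.mem_filter.1 hp
      obtain ⟨h3, h4⟩ := Finset.mem_filter.1 hq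
      refine Nat.Coprime.pow _ _ ?_
      rw [Nat.coprime_primes h2 h4]
      rintro rfl
      have := Finset.mem_range.1 h1
      have := (Finset.mem_Ioc.1 h3).1
      omega
    have hco : IsCoprime I1 (Ideal.span {(WB p0 m0 : 𝓞 K)}) := by
      rw [hI1, Ideal.isCoprime_span_singleton_iff]
      have h2 := (Nat.isCoprime_iff_coprime.2 hcop).map (Int.castRingHom (𝓞 K))
      simpa using h2
    have hspan : Ideal.span {(WW m0 : 𝓞 K)} = I1 * Ideal.span {(WB p0 m0 : 𝓞 K)} := by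
      rw [hI1, Ideal.span_singleton_mul_span_singleton, ← Nat.cast_mul, ← h1]
    have hB0 : Ideal.span {(WB p0 m0 : 𝓞 K)} ≠ ⊥ := by
      intro h0
      rw [Ideal.span_singleton_eq_bot, Nat.cast_eq_zero] at h0
      omega
    rw [hspan, h K I1 _ (hI0 m0) hB0 hco s k d f, ← WABC_prod h, hprod]

end Pool.Agent.RHCB
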