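import Pool.Agent.RHK.BlockA
import Pool.Agent.RHKB.AsmB
import Pool.Agent.RHCB.VDQ
import Pool.Agent.RHCB.IDT
import Pool.Agent.RHCB.HMQ
import Pool.Agent.RHCB.PAIRC
import Pool.Agent.RHCB.SIGC
import Pool.Agent.RHCB.CRTC
import Pool.Agent.RHCB.WABC
import Pool.Agent.RHCB.IFTC
import Pool.Agent.RHCB.UIFTC
import Pool.Agent.RHCB.NZ0C
import Pool.Agent.RHCB.PCNC
import Pool.Agent.RHCB.NPRC
import Pool.Agent.RHCB.CENC
import Pool.Agent.RHCB.SMLC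
import Pool.Agent.RHCB.RCC
import Pool.Agent.RHCB.BADC
import Pool.Agent.RHCB.EQUC
import Pool.Agent.RHCB.EQLC
import Pool.Agent.RHCB.SIGLOWC
import Pool.Agent.RHCB.SIGPOSC
import Pool.Agent.RHCB.NGCC
import Pool.Agent.RHCB.NLOWC
import Pool.Agent.RHCB.DETC
import Pool.Agent.RHCB.LLSC
import Pool.Agent.RHCB.LPCB

/-!
RHCB, block B for cyclic covers: assembly (helper7).
-/

set_option autoImplicit false

namespace Pool.Agent.RHCB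

theorem blockBC : St_LLSC ∧ St_LLCB ∧ St_LPCB := by
  have hHSUM := RHKB.thm_HSUM RHKB.thm_PRS
  have hCUP := RHKB.thm_CUP RHKB.thm_LAT2 RHKB.thm_LAT3
  have hNPRB := RHKB.thm_NPRB hCUP RHKB.thm_LAT3 RHKB.thm_PRS RHKB.thm_PLW
  have hCLOW := RHKB.thm_CLOW RHKB.thm_LAT1
  have hIDT := thm_IDT RHK.thm_IDC
  have hHMQ := thm_HMQ hIDT
  have hPAIR := thm_PAIRC RHKB.thm_PAIR
  have hSIG := thm_SIGC RHKB.thm_UNI hPAIR RHKB.thm_CNTH RHKB.thm_PRM thm_VDQ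
  have hWAB := thm_WABC thm_CRTC
  have hUIFT := thm_UIFTC thm_IFTC RHKB.thm_LIPK
  have hNZ0 := thm_NZ0C thm_IFTC
  have hPCN := thm_PCNC RHKB.thm_PLV
  have hNPR := thm_NPRC hNPRB hCUP
  have hCEN := thm_CENC RHKB.thm_SEP
  have hSML := thm_SMLC RHKB.thm_LIPK RHKB.thm_LAT2 RHKB.thm_PLW
  have hRC := thm_RCC hCEN hSML hCLOW hNPR RHKB.thm_PLW
  have hBADG := RHKB.thm_BADG RHKB.thm_TRIG RHKB.thm_LIPK
  have hBADVW := RHKB.thm_BADVW hBADG (RHKB.thm_NETV RHKB.thm_PLV)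
    (RHKB.thm_DISCV RHKB.thm_PLV RHKB.thm_EQU)
    (RHKB.thm_NETW RHKB.thm_PLW) (RHKB.thm_DISCW RHKB.thm_PLW) RHKB.thm_PLV RHKB.thm_PLW
  have hBAD := thm_BADC hBADVW
  have hEQU := thm_EQUC RHKB.thm_EQU
  have hEQL := thm_EQLC RHKB.thm_EQL
  have hSIGLOW := thm_SIGLOWC hSIG hHSUM hHMQ hWAB hBAD hUIFT hPCN hEQU RHKB.thm_PLV
  have hSIGPOS := thm_SIGPOSC hSIG hHSUM hHMQ hWAB thm_CRTC hNZ0 hPCN hEQL RHKB.thm_PLV
  have hNG := thm_NGCC RHK.block_NG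
  have hNLOW := thm_NLOWC hNG hCUP
  have hDET := thm_DETC hRC hNLOW
  have hLLS := thm_LLSC hSIGLOW hBAD hUIFT RHKB.thm_PLW hDET
  exact ⟨hLLS, thm_LLCB hLLS, thm_LPCB hSIGPOS hNZ0 RHKB.thm_PLW hDET⟩

end Pool.Agent.RHCB
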