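import Pool.Agent.RHC.BlockA
import Pool.Agent.RHC.Final
import Pool.Agent.RHCB.AsmC
import Pool.Agent.RHCB.FinC

/-!
RHC: the Hasse principle for one hundred percent of the Fano cyclic covers `w^k = f(x)` of dimension at
least two of projective spaces over a number field (helper50, helper7).
-/

set_option autoImplicit false

namespace Pool.Agent.RHCB

open scoped BigOperators
open Classical NumberField IsDedekindDomain
open Pool.Agent.RHP (Mon)
open Pool.Agent.RHK Pool.Agent.RHC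

/-- the theorem for coefficient vectors -/
theorem cmain_thm (K : Type) [Field K] [NumberField K] (s k m : ℕ) (hyp : CHyp s k m) :
    CMain K s k m := by
  obtain ⟨-, hLL, hLP⟩ := blockBC
  refine cmain_all block_CSM (fun K _ _ s k m hyp => ?_) K s k m hyp
  exact ⟨Fintype.card (Mon s (k * m)) * (Pool.Agent.RHKB.MK K * 2 ^ k) + 2, fun A hA c v hc hv =>
    ⟨hLL K s k m hyp A c v hA hc hv, hLP K s k m hyp A c v (by omega) hc hv⟩⟩

/-- the theorem for polynomials -/
theorem main_polyC (K : Type) [Field K] [NumberField K] (n k m : ℕ) (hn : 2 ≤ n) (hk : 2 ≤ k)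
    (hm : 1 ≤ m) (hF : m * (k - 1) ≤ n) :
    (∃ c : ℝ, 0 < c ∧ ∀ᶠ H : ℕ in Filter.atTop,
      c * (({f | InC (k * m) H f} : Set (MvPolynomial (Fin (n + 1)) (𝓞 K))).ncard : ℝ) ≤
      (({f | InC (k * m) H f ∧ (SmoC k f ∧ LocC k f)} :
        Set (MvPolynomial (Fin (n + 1)) (𝓞 K))).ncard : ℝ)) ∧
    Filter.Tendsto (fun H : ℕ =>
      (({f | InC (k * m) H f ∧ (SmoC k f ∧ PtC k f K)} :
        Set (MvPolynomial (Fin (n + 1)) (𝓞 K))).ncard : ℝ) /
      (({f | InC (k * m) H f ∧ (SmoC k f ∧ LocC k f)} :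
        Set (MvPolynomial (Fin (n + 1)) (𝓞 K))).ncard : ℝ)) Filter.atTop (nhds 1) :=
  finC_poly K n k m hk hm (cmain_thm K (n + 1) k m ⟨by omega, hk, hm, by omega⟩)

end Pool.Agent.RHCB
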