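import Pool.Agent.RHC.Defs
import Pool.Agent.RHKB.StB

/-!
RHCB: block B (the local lower bound) for the cyclic covers `w^k = f(x)` over a number field:
definitions and statements (helper7).  The proofs are in the docstrings; most modules are ports of the
modules of `Pool.Agent.RHKB` (statements in `RHKB/StB.lean`) or `Pool.Agent.RHMB`.  `K` is a number field
of degree `r = dg K`.  A point `(x, w)` over a field `L` is a vector `z : Fin (s + 1) → L` with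
`w = z 0` and `x = fun l => z l.succ`.
-/

set_option autoImplicit false

namespace Pool.Agent.RHCB

open scoped BigOperators
open Classical NumberField IsDedekindDomain
open Pool.Agent.RHP (Mon mono ev Sys Prim pd WB WW)
open Pool.Agent.RHK Pool.Agent.RHC
open Pool.Agent.RHKB (mI hh jj qv MK uu BadK)

/-! ### Definitions -/

/-- the exponent in the bound for the number of solutions of `ω^k = a` -/
def MM (k : ℕ) : ℕ := k * (k + 1) / 2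

section fin

variable {A : Type} [CommRing A] {s d : ℕ}

/-- the number of the points `(ρ, ω)` with `ρ` primitive and `f(ρ) = ω^k` in the finite ring `A` -/
noncomputable def ccnt (k : ℕ) (f : Mon s d → A) : ℕ :=
  Nat.card {p : (Fin s → A) × A // Prim p.1 ∧ ev f p.1 = p.2 ^ k}

/-- the normalised number of these points -/
noncomputable def csig (k : ℕ) (f : Mon s d → A) : ℝ := (ccnt k f : ℝ) / (Nat.card A : ℝ) ^ s

variable (A) in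
/-- the sum of `|A/J|^(-1-1/M)` over the ideals `J ≠ A` -/
noncomputable def hM (M : ℕ) : ℝ :=
  ∑ᶠ J : {J : Ideal A // J ≠ ⊤}, (Nat.card (A ⧸ J.1) : ℝ) ^ (-(1 : ℝ) - 1 / (M : ℝ))

/-- the explicit form `x_last ^ d` -/
noncomputable def f00 (A : Type) [CommRing A] (s d : ℕ) : Mon s d → A := fun μ =>
  if ∀ l : Fin s, μ.1 l = if l.1 = s - 1 then d else 0 then 1 else 0

end fin

section loc

variable {L : Type} [NormedField L] {s d : ℕ}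

/-- forms with an almost singular zero -/
def BadC (τ : ℝ) (f : Mon s d → L) : Prop := BadK τ (R := 1) (d := fun _ => d) fun _ => f

/-- There is a point `z₀ = (w₀, x₀)` with `x₀` of size `ρ`, `w₀` of size at most `B`, and a coordinate `j`
such that the other coordinates can be prescribed arbitrarily near `z₀`, and there is a point of
`f(x) = w^k` with these coordinates near `z₀`. -/
def NZC (k : ℕ) (f : Mon s d → L) (ρ B δ r : ℝ) : Prop :=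
  ∃ (z₀ : Fin (s + 1) → L) (j : Fin (s + 1)), ‖fun l : Fin s => z₀ l.succ‖ = ρ ∧ ‖z₀ 0‖ ≤ B ∧
    ∀ κ : Fin (s + 1) → L, (∀ l, ‖κ l - z₀ l‖ ≤ δ) →
      ∃ z : Fin (s + 1) → L, (∀ l, l ≠ j → z l = κ l) ∧ (∀ l, ‖z l - z₀ l‖ ≤ r) ∧
        ev f (fun l => z l.succ) = z 0 ^ k

end loc

section field

variable {K : Type} [Field K] [NumberField K] {s d : ℕ}

/-- the form modulo the ideal `I` -/
def cred (I : Ideal (𝓞 K)) (f : Mon s d → 𝓞 K) : Mon s d → 𝓞 K ⧸ I :=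
  fun μ => Ideal.Quotient.mk I (f μ)

/-- the form over `L`, multiplied by `u` -/
noncomputable def cemb {L : Type} [Field L] [Algebra K L] (u : L) (f : Mon s d → 𝓞 K) :
    Mon s d → L := fun μ => u * jj L (f μ)

/-- the scaling factor `1 / V^k` at the infinite place `v` -/
noncomputable def uk (v : InfinitePlace K) (k V : ℕ) : v.Completion := ((V ^ k : ℕ) : v.Completion)⁻¹

/-- the coordinates of the explicit form, divided by the size of `1` -/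
noncomputable def w00C (K : Type) [Field K] [NumberField K] (s d : ℕ) (μ : Mon s d) (j : IX K) : ℝ :=
  (co (f00 (𝓞 K) s d μ) j : ℝ) / (cz (1 : 𝓞 K) : ℝ)

/-- the number of the points `(x, w)`, `x` primitive of size between `X/2` and `X` and `w` of size at
most `A X^m V` at all infinite places, in the residue class of `(ρ, ω)` modulo `W`, with
`f(x) - w^k` small -/
noncomputable def RCnC {k m : ℕ} (A X V H κ W : ℕ) (f : Mon s (k * m) → 𝓞 K) (ρ : Fin s → 𝓞 K)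
    (ω : 𝓞 K) : ℕ :=
  ((bx K s (X : ℝ) ×ˢ pb K ((A * X ^ m * V : ℕ) : ℝ)).filter fun p =>
    Prim p.1 ∧ (∀ v : InfinitePlace K, (X : ℝ) < 2 * vs v p.1) ∧
      (∀ l, (W : 𝓞 K) ∣ p.1 l - ρ l) ∧ (W : 𝓞 K) ∣ p.2 - ω ∧
      cz (ev f p.1 - p.2 ^ k) * κ ≤ H * X ^ (k * m)).card

/-- `ρ` is primitive modulo `W` -/
def PrC (W : ℕ) (ρ : Fin s → 𝓞 K) : Prop :=
  Prim (fun l => Ideal.Quotient.mk (Ideal.span {(W : 𝓞 K)}) (ρ l))

end field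

/-! ### Finite rings -/

/-- [VDQ] (Vandermonde).  PROOF.  `h` = the kernel of `φ`, `N = absNorm h = |B|`, `M = MM k`.  Let `n ≥ 1` be an
integer with `(MK K * n)^(r M) < N` (if there is none with `n = 1`, then `N ≤ MK^(r M)` and the trivial
bound `|B|` is enough, since `N^(1/M) ≤ MK^r`; else take the largest `n`, so `(MK (2n))^(rM) ≥ N`).  Let
`Q > 0` be an integer in `h`, a multiple of `n` (so `φ` of the elements with coordinates in `[0, Q)` takes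
every value the same number `Q^r/N` of times).  Divide this cube into `(Q/n)^r` cubes of side `n`.  In
every cube there are at most `k` elements `w` with `φ(w)^k = a`: for `k + 1` different ones `w_0, ..., w_k`
the Vandermonde determinant `det (w_i^j)_(0 ≤ i, j ≤ k) = ∏_(i<j) (w_j - w_i)` (`Matrix.det_vandermonde`) is not
zero, it lies in `h` (modulo `h` the last column is `a` times the first one, `k ≥ 1`), and its value at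
every infinite place is at most `(MK n)^M` (PLW: the differences have coordinates in `[-n, n]`);
contradiction to LAT3 (`m = (MK n)^M + tiny`, or directly: some `v` has
`av v (det) ≥ N^(1/r) > (MK n)^M`).  So `#solutions * Q^r/N ≤ k (Q/n)^r`, `#solutions ≤ k N/n^r ≤
k N (2 MK)^r / N^(1/M)`. -/
def St_VDQ : Prop :=
  ∀ (K : Type) [Field K] [NumberField K] (k : ℕ), 1 ≤ k → ∃ C : ℝ, 0 < C ∧
    ∀ (B : Type) [CommRing B] [Finite B] (φ : 𝓞 K →+* B), Function.Surjective φ → ∀ a : B,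
      (Nat.card {ω : B // ω ^ k = a} : ℝ) * (Nat.card B : ℝ) ^ ((1 : ℝ) / MM k) ≤
        C * (Nat.card B : ℝ)

/-- [IDT] (tails of sums over ideals, from `RHK.St_IDC`: at most `C N` nonzero ideals of norm `≤ N`).
PROOF.  Dyadic: the ideals of `S` with `2^j z < absNorm I ≤ 2^(j+1) z` are at most `C 2^(j+1) z`, each
term is at most `(2^j z)^(-1-1/M)`; geometric series with the ratio `2^(-1/M)`. -/
def St_IDT : Prop :=
  ∀ (K : Type) [Field K] [NumberField K] (M : ℕ), 1 ≤ M → ∃ C : ℝ, 0 < C ∧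
    ∀ (z : ℕ) (S : Finset (Ideal (𝓞 K))), 1 ≤ z → (∀ I ∈ S, z < Ideal.absNorm I) →
      ∑ I ∈ S, (Ideal.absNorm I : ℝ) ^ (-(1 : ℝ) - 1 / (M : ℝ)) ≤
        C * (z : ℝ) ^ (-(1 : ℝ) / (M : ℝ))

/-- [HMQ], from IDT.  PROOF.  The ideals `J ≠ ⊤` of `O/(q)` are the ideals `I ∋ q`, `I ≠ ⊤` of `O` (finitely
many), with the same quotients, `absNorm I = |O/I|`.  A maximal ideal containing `I` contains a prime
`p | q`, `p > p0`, and its norm is at least `p`; so `absNorm I > p0`.  Compare `RHKB/HSUM.lean`. -/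
def St_HMQ : Prop :=
  ∀ (K : Type) [Field K] [NumberField K] (M : ℕ), 1 ≤ M → ∃ C : ℝ, 0 < C ∧ ∀ p0 q : ℕ, 1 ≤ p0 →
    0 < q → (∀ p : ℕ, p.Prime → p ∣ q → p0 < p) →
    hM (𝓞 K ⧸ Ideal.span {(q : 𝓞 K)}) M ≤ C * (p0 : ℝ) ^ (-(1 : ℝ) / (M : ℝ))

/-- [PAIRC], from `RHKB.St_PAIR`.  PROOF.  The set is empty or a translate of the set of the `f` with
`ev f ρ = ev f ρ' = 0`. -/
def St_PAIRC : Prop :=
  ∀ (A : Type) [CommRing A] [Finite A] (s d : ℕ), 1 ≤ d → ∀ ρ ρ' : Fin s → A, Prim ρ → Prim ρ' →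
    ∀ a b : A, Nat.card {f : Mon s d → A // ev f ρ = a ∧ ev f ρ' = b} * Nat.card A ^ 2 ≤
      Nat.card (A ⧸ mI ρ ρ') * Nat.card A ^ Fintype.card (Mon s d)

/-- [SIGC], from UNI, PAIRC, CNTH, PRM, VDQ.  PROOF.  `A = O/(q)`, `Q = #{f}`.  First moment (UNI, translates):
`∑_f csig f = Q #{ρ primitive} / |A|^s ≥ (1 - hh A) Q`.  Second moment:
`|A|^(2s) ∑_f csig f ^ 2 = ∑_((ρ,ω),(ρ',ω')) #{f : f(ρ) = ω^k, f(ρ') = ω'^k}`.  Let `J = mI ρ ρ'` and let `λ` be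
such that `ρ' = λ ρ` modulo `J` (`λ = ∑ c_i ρ'_i`, `∑ c_i ρ_i = 1`): `f(ρ') = λ^d f(ρ)` modulo `J` for
all `f`, so the number is zero unless `ω'^k = λ^d ω^k` modulo `J`, and at most `|A/J| Q/|A|^2` by PAIRC.
For given `ω` the number of these `ω'` is at most `|A| C |A/J|^(-1/M)` (VDQ for `A/J`), and at most `|A|`
if `J = ⊤`.  By CNTH the number of the `ρ'` with `mI ρ ρ' ≤ J` is at most `|A|^s |A/J|^(1-s)`, `s ≥ 3`:
`∑_f csig f ^ 2 ≤ Q (1 + C ∑_(J ≠ ⊤) |A/J|^(1 - s + 1 - 1/M)) ≤ Q (1 + C hM A M)`.  So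
`∑_f (csig f - 1)^2 ≤ (2 hh A + C hM A M) Q`, and `(csig f - 1)^2 ≥ 1/4` if `csig f < 1/2`.  Compare
`RHKB/SIG.lean`. -/
def St_SIGC : Prop :=
  ∀ (K : Type) [Field K] [NumberField K] (s k d : ℕ), 3 ≤ s → 1 ≤ k → 1 ≤ d → ∃ C : ℝ, 0 < C ∧
    ∀ q : ℕ, 0 < q →
    (Nat.card {f : Mon s d → 𝓞 K ⧸ Ideal.span {(q : 𝓞 K)} // csig k f < 1 / 2} : ℝ) ≤
      C * (hh (𝓞 K ⧸ Ideal.span {(q : 𝓞 K)}) + hM (𝓞 K ⧸ Ideal.span {(q : 𝓞 K)}) (MM k)) *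
        (Nat.card (Mon s d → 𝓞 K ⧸ Ideal.span {(q : 𝓞 K)}) : ℝ)

/-- [CRTC].  Port of `RHKB/CRT.lean`. -/
def St_CRTC : Prop :=
  ∀ (K : Type) [Field K] [NumberField K] (I J : Ideal (𝓞 K)), I ≠ ⊥ → J ≠ ⊥ → IsCoprime I J →
    ∀ (s k d : ℕ) (f : Mon s d → 𝓞 K),
      csig k (cred (I * J) f) = csig k (cred I f) * csig k (cred J f)

/-- [WABC].  Port of `RHKB/WAB.lean`. -/
def St_WABC : Prop :=
  ∀ (K : Type) [Field K] [NumberField K] (p0 : ℕ), ∃ S : Finset (HeightOneSpectrum (𝓞 K)),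
    (∀ v ∈ S, ∃ p : ℕ, p.Prime ∧ p ≤ p0 ∧ (p : 𝓞 K) ∈ v.asIdeal) ∧
    ∀ m0 : ℕ, p0 ≤ m0 → 0 < WB p0 m0 ∧ (∀ p : ℕ, p.Prime → p ∣ WB p0 m0 → p0 < p) ∧
      ∃ n : HeightOneSpectrum (𝓞 K) → ℕ, ∀ (s k d : ℕ) (f : Mon s d → 𝓞 K),
        csig k (cred (Ideal.span {(WW m0 : 𝓞 K)}) f) =
          (∏ v ∈ S, csig k (cred (v.asIdeal ^ n v) f)) *
            csig k (cred (Ideal.span {(WB p0 m0 : 𝓞 K)}) f)

/-! ### Points near a nonsingular point, over a locally compact field -/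

/-- [IFTC], from `RHP.thm_IFT`.  PROOF.  `RHP.thm_IFT` for one form (`R = 1`) of degree `k * m` in the
`s + 2` variables `(u, w, x)`: `f(x) - u^(k m - k) w^k`, at the point `(1, z₀)`; the coordinate `j` of
`(w, x)` is the one which is not prescribed, so `u = 1` stays.  Its derivative with respect to `w` at
the point is `- k w^(k-1)`, with respect to `x_l` it is `pd l f₀`. -/
def St_IFTC : Prop :=
  ∀ (L : Type) [NontriviallyNormedField L] [CompleteSpace L] (s k m : ℕ), 1 ≤ k → 1 ≤ m →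
    ∀ (f₀ : Mon s (k * m) → L) (z₀ : Fin (s + 1) → L) (j : Fin (s + 1)),
    ev f₀ (fun l => z₀ l.succ) = z₀ 0 ^ k →
    ((j = 0 ∧ (k : L) * z₀ 0 ^ (k - 1) ≠ 0) ∨
      ∃ l : Fin s, j = l.succ ∧ pd l f₀ (fun l => z₀ l.succ) ≠ 0) →
    ∀ r : ℝ, 0 < r → ∃ δ : ℝ, 0 < δ ∧ ∀ f : Mon s (k * m) → L, (∀ μ, ‖f μ - f₀ μ‖ ≤ δ) →
      ∀ κ : Fin (s + 1) → L, (∀ l, ‖κ l - z₀ l‖ ≤ δ) →
        ∃ z : Fin (s + 1) → L, (∀ l, l ≠ j → z l = κ l) ∧ (∀ l, ‖z l - z₀ l‖ ≤ r) ∧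
          ev f (fun l => z l.succ) = z 0 ^ k

/-- [UIFTC], from IFTC.  PROOF.  Compactness as in `RHKB/UIFT.lean`: the set of the `(f, z)` with
coefficients of norm at most `B0`, `‖x‖ = ‖c‖`, `‖w‖ ≤ N B0 + 1` (`N` = number of the monomials),
`f(x) = w^k`, not `BadC τ f`.  At such `(f₀, z₀)` some derivative is not zero: otherwise
`k w₀^(k-1) = 0`, so `w₀ = 0` (`k ≥ 2`, `k ≠ 0` in `L`), `f₀(x₀) = w₀^k = 0` and all `pd l f₀ x₀ = 0`, so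
`BadC τ f₀` (scale `x₀` to norm one; `lam = 1`).  A point `(x, w)`, `x ≠ 0`, gives the point
`(λ x, λ^m w)` with `λ = c / x_l`, `|x_l|` maximal; then `‖w‖^k = ‖f(x)‖ ≤ N B0` (`‖c‖ ≤ 1`, LIPK), so
`‖w‖ ≤ N B0 + 1`. -/
def St_UIFTC : Prop :=
  ∀ (L : Type) [NormedField L] [ProperSpace L], (∃ x : L, 1 < ‖x‖) →
    ∀ (s k m : ℕ), 2 ≤ k → 1 ≤ m → (k : L) ≠ 0 → ∀ c : L, c ≠ 0 → ‖c‖ ≤ 1 →
    ∀ (B0 : ℕ) (τ r : ℝ), 0 < τ → 0 < r →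
      ∃ δ : ℝ, 0 < δ ∧ ∀ f : Mon s (k * m) → L, (∀ μ, ‖f μ‖ ≤ B0) → ¬ BadC τ f →
        (∃ x : Fin s → L, x ≠ 0 ∧ ∃ w : L, ev f x = w ^ k) →
        NZC k f ‖c‖ (Fintype.card (Mon s (k * m)) * B0 + 1 : ℝ) δ r

/-- [NZ0C], from IFTC.  PROOF.  At the point `x₀ = c e_last` (`RHP.eL`, `RHP.lst`), `w₀ = a c^m` of
`f₀ = a^k f00`: the derivative with respect to `w` is `k w₀^(k-1) ≠ 0`. -/
def St_NZ0C : Prop :=
  ∀ (L : Type) [NormedField L] [ProperSpace L], (∃ x : L, 1 < ‖x‖) →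
    ∀ (s k m : ℕ), 1 ≤ s → 1 ≤ k → 1 ≤ m → (k : L) ≠ 0 → ∀ a c : L, a ≠ 0 → c ≠ 0 →
    ∀ r : ℝ, 0 < r → ∃ δ : ℝ, 0 < δ ∧ ∀ f : Mon s (k * m) → L,
      (∀ μ, ‖f μ - a ^ k * f00 L s (k * m) μ‖ ≤ δ) → NZC k f ‖c‖ (‖a‖ * ‖c‖ ^ m) δ r

/-! ### Finite places -/

/-- [PCNC].  PROOF.  As PCN (port of `RHKB/PCN.lean`), with `s` free coordinates of `(w, x)`: `q^(-b) ≤ δ`,
`b ≥ 1`, `c = q^(-b s)`.  The points `z` of NZC have `‖x‖ = 1` (ultrametric) and `‖w‖^k = ‖f(x)‖ ≤ 1`, so they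
are integral, in particular `‖z₀‖ ≤ 1` (take `κ = z₀`); the approximation of `z` modulo `v^j` gives
`(ρ, ω)` with `ρ` primitive and `f(ρ) = ω^k`. -/
def St_PCNC : Prop :=
  ∀ (K : Type) [Field K] [NumberField K] (v : HeightOneSpectrum (𝓞 K)) (s k d : ℕ), 1 ≤ k →
    ∀ δ : ℝ, 0 < δ → ∃ c : ℝ, 0 < c ∧ ∀ (f : Mon s d → 𝓞 K) (B : ℝ),
      NZC k (cemb (1 : v.adicCompletion K) f) 1 B δ (1 / 2) →
        ∀ j : ℕ, c ≤ csig k (cred (v.asIdeal ^ j) f)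

/-! ### Infinite places -/

/-- [NPRC] (the points with nonprimitive `x` in a union of boxes).  PROOF.  For a fixed `w` let `I(w)` be the
set of the `i` such that `w` is in the disc of `i`.  `RHKB.thm_NPRB` for `x` with `T = θ X` and the centres
of the `i ∈ I(w)`: at most `C (#I(w)/m0) (θ X/W)^(r s) + C X^r (W/θ)^(r s)`.  Sum over `w`: `∑_w #I(w) ≤
#ι (C θ Q/W)^r` (`RHKB.thm_CUP` with the ideal `(W)`, `m = W`, `θ Q/W ≥ 1`), and the number of the `w` is at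
most `(C A Q)^r` (CUP with the ideal `⊤`, `m = 1`, `A Q ≥ 1`).  `X^r ≤ X^(r s)/X` (`s ≥ 2`).  Compare
`RHMB/NPRM.lean`. -/
def St_NPRC : Prop :=
  ∀ (K : Type) [Field K] [NumberField K] (s : ℕ), 2 ≤ s → ∃ C : ℝ, 0 < C ∧
    ∀ W m0 : ℕ, 0 < W → 1 ≤ m0 → (∀ h : ℕ, 1 < h → h ≤ m0 → ¬ h.Coprime W) →
    ∀ (ρ : Fin s → 𝓞 K) (ω : 𝓞 K), PrC W ρ → ∀ (A X Q : ℕ) (θ : ℝ), 0 < A → 0 < X → 0 < Q →
      0 < θ → θ ≤ 1 → (W : ℝ) ≤ θ * X → (W : ℝ) ≤ θ * Q → ∀ (ι : Type) [Fintype ι]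
      (y : ι → (v : InfinitePlace K) → Fin (s + 1) → v.Completion),
      (((bx K s (X : ℝ) ×ˢ pb K ((A * Q : ℕ) : ℝ)).filter fun p => p.1 ≠ 0 ∧ ¬ Prim p.1 ∧
        (∀ l, (W : 𝓞 K) ∣ p.1 l - ρ l) ∧ (W : 𝓞 K) ∣ p.2 - ω ∧
        ∃ i, ∀ v : InfinitePlace K, (∀ l : Fin s,
          ‖jj v.Completion (p.1 l) - y i v l.succ‖ ≤ θ * X) ∧
          ‖jj v.Completion p.2 - y i v 0‖ ≤ θ * Q).card : ℝ) ≤
        (C * (Fintype.card ι / m0) * (θ / W) ^ (dg K * (s + 1)) +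
          C * (A : ℝ) ^ dg K / X * (W / θ) ^ (dg K * s)) * ((X : ℝ) ^ s * Q) ^ dg K

/-- [CENC] (the centres).  Port of `RHKB/CEN.lean`: `RHKB.thm_SEP` for the `s` coordinates of `(w, x)`
different from `j`. -/
def St_CENC : Prop :=
  ∀ (K : Type) [Field K] [NumberField K] (s k d : ℕ) (δ : ℝ), 0 < δ →
    ∃ θ₀ c : ℝ, 0 < θ₀ ∧ 0 < c ∧ ∀ (F : (v : InfinitePlace K) → Mon s d → v.Completion) (B : ℝ),
      (∀ v, NZC k (F v) (3 / 4) B δ (1 / 16)) → ∀ θ : ℝ, 0 < θ → θ ≤ θ₀ →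
      ∃ (ι : Type) (_ : Fintype ι) (y : ι → (v : InfinitePlace K) → Fin (s + 1) → v.Completion),
        (∀ i v, ev (F v) (fun l => y i v l.succ) = y i v 0 ^ k) ∧
        (∀ i v, 11 / 16 ≤ ‖fun l : Fin s => y i v l.succ‖ ∧
          ‖fun l : Fin s => y i v l.succ‖ ≤ 13 / 16 ∧ ‖y i v 0‖ ≤ B + 1 / 16) ∧
        (∀ i i', i ≠ i' → ∃ v l, 2 * θ < ‖y i v l - y i' v l‖) ∧
        c * (1 / θ) ^ (dg K * s) ≤ (Fintype.card ι : ℝ)

/-- [SMLC] (the points near a centre).  PROOF.  Let `x' = jj x / X`, `w' = jj w / (X^m V)`, at distance at most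
`θ` from `y v`.  `5/8 ≤ ‖x'‖ ≤ 7/8`, `‖w'‖ ≤ B + 1`.  `φ = cemb (uk v k V) f` has coefficients of norm at
most `MK H/V^k ≤ MK 2^k` (PLW, `H ≤ (V+1)^k ≤ (2V)^k`), so (LIPK)
`‖φ(x') - w'^k‖ ≤ ‖φ(x') - φ(y)‖ + ‖y_0^k - w'^k‖ ≤ Λ₁ θ`, and
`f(x) - w^k = X^(km) V^k (φ(x') - w'^k)`, `V^k ≤ H`.  LAT2.  Compare `RHKB/SML.lean`. -/
def St_SMLC : Prop :=
  ∀ (K : Type) [Field K] [NumberField K] (s k m : ℕ), 1 ≤ s → ∀ B : ℕ, ∃ Λ : ℝ, 0 < Λ ∧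
    ∀ V H X : ℕ, 0 < V → 0 < X → V ^ k ≤ H → H ≤ (V + 1) ^ k →
    ∀ f : Mon s (k * m) → 𝓞 K, f ∈ box K s (k * m) H →
    ∀ θ : ℝ, 0 < θ → θ ≤ 1 / 16 → ∀ y : (v : InfinitePlace K) → Fin (s + 1) → v.Completion,
      (∀ v, ev (cemb (uk v k V) f) (fun l => y v l.succ) = y v 0 ^ k) →
      (∀ v, 11 / 16 ≤ ‖fun l : Fin s => y v l.succ‖ ∧ ‖fun l : Fin s => y v l.succ‖ ≤ 13 / 16 ∧
        ‖y v 0‖ ≤ (B : ℝ) + 1 / 16) →
      ∀ (x : Fin s → 𝓞 K) (w : 𝓞 K), (∀ v : InfinitePlace K, (∀ l : Fin s,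
        ‖jj v.Completion (x l) - (X : v.Completion) * y v l.succ‖ ≤ θ * X) ∧
        ‖jj v.Completion w - ((X ^ m * V : ℕ) : v.Completion) * y v 0‖ ≤
          θ * ((X ^ m * V : ℕ) : ℝ)) →
        x ∈ bx K s (X : ℝ) ∧ (∀ v : InfinitePlace K, (X : ℝ) < 2 * vs v x) ∧
        (∀ v : InfinitePlace K, av v w ≤ ((B : ℝ) + 1) * ((X ^ m * V : ℕ) : ℝ)) ∧
        (cz (ev f x - w ^ k) : ℝ) ≤ Λ * θ * H * (X : ℝ) ^ (k * m)

/-- [RCC].  Port of `RHKB/RC.lean` (compare `RHMB/RCM.lean`).  `θ = c₁/κ` with `c₁ ≤ θ₀` (CENC),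
`c₁ ≤ 1/16`, `Λ c₁ ≤ 1` (SMLC); `Q = X^m V`.  The boxes `|jj (x_l) - X y_(l+1)| ≤ θ X`,
`|jj w - Q y_0| ≤ θ Q` around the centres are disjoint, every box contains at least
`(c (θ X/W)^r)^s c (θ Q/W)^r` points in the residue class (`RHKB.thm_CLOW`), and there are at least
`c (κ/c₁)^(r s)` centres.  The points with nonprimitive `x`: NPRC; its second term is small for large
`X`.  (`x = 0` is excluded by `X < 2 vs v x`.) -/
def St_RCC : Prop :=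
  ∀ (K : Type) [Field K] [NumberField K] (s k m : ℕ), 2 ≤ s → 1 ≤ k → ∀ A B : ℕ, B + 1 ≤ A →
    ∀ δ : ℝ, 0 < δ →
    ∃ c C : ℝ, 0 < c ∧ 0 < C ∧ ∀ W κ m0 : ℕ, 0 < W → 0 < κ → 0 < m0 →
      (∀ h : ℕ, 1 < h → h ≤ m0 → ¬ h.Coprime W) →
      ∃ X0 : ℕ, ∀ X V H : ℕ, X0 ≤ X → X0 ≤ V → V ^ k ≤ H → H ≤ (V + 1) ^ k →
        ∀ f : Mon s (k * m) → 𝓞 K, f ∈ box K s (k * m) H →
        (∀ v : InfinitePlace K, NZC k (cemb (uk v k V) f) (3 / 4) B δ (1 / 16)) →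
        ∀ (ρ : Fin s → 𝓞 K) (ω : 𝓞 K), PrC W ρ →
          (c - C / m0) * ((X : ℝ) ^ s * ((X : ℝ) ^ m * V)) ^ dg K /
            ((κ : ℝ) ^ dg K * (W : ℝ) ^ (dg K * (s + 1))) ≤ (RCnC A X V H κ W f ρ ω : ℝ)

/-! ### Counting forms in the box (from RHKB with `R = 1`) -/

/-- [BADC], from `RHKB.St_BADVW` with `R = 1`.  PROOF.  `f ↦ fun _ : Fin 1 => f` is a bijection from
`box K s d H` to `Box K s (fun _ : Fin 1 => d) H`. -/
def St_BADC : Prop :=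
  ∀ (K : Type) [Field K] [NumberField K] (s d : ℕ), 1 ≤ s → 1 ≤ d → ∀ ε : ℝ, 0 < ε →
    (∀ v : HeightOneSpectrum (𝓞 K), ∃ τ : ℝ, 0 < τ ∧ ∃ H0 : ℕ, ∀ H ≥ H0,
      (((box K s d H).filter fun f => BadC τ (cemb (1 : v.adicCompletion K) f)).card : ℝ) ≤
        ε * ((box K s d H).card : ℝ)) ∧
    (∀ v : InfinitePlace K, ∃ τ : ℝ, 0 < τ ∧ ∃ H0 : ℕ, ∀ H ≥ H0,
      (((box K s d H).filter fun f => BadC τ (cemb (uu v H) f)).card : ℝ) ≤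
        ε * ((box K s d H).card : ℝ))

/-- [EQUC], from `RHKB.St_EQU` with `R = 1`. -/
def St_EQUC : Prop :=
  ∀ (K : Type) [Field K] [NumberField K] (s d : ℕ) (I : Ideal (𝓞 K)), I ≠ ⊥ →
    ∃ H0 : ℕ, ∀ H ≥ H0, ∀ S : Set (Mon s d → 𝓞 K ⧸ I),
      (((box K s d H).filter fun f => cred I f ∈ S).card : ℝ) *
        (Nat.card (Mon s d → 𝓞 K ⧸ I) : ℝ) ≤ 2 * (S.ncard : ℝ) * ((box K s d H).card : ℝ)

/-- [EQLC], from `RHKB.St_EQL` with `R = 1`. -/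
def St_EQLC : Prop :=
  ∀ (K : Type) [Field K] [NumberField K] (s d : ℕ) (δ : ℝ), 0 < δ →
    ∃ η : ℝ, 0 < η ∧ ∀ φ₀ : Mon s d → IX K → ℝ, (∀ μ j, |φ₀ μ j| ≤ 1) →
    ∀ I : Ideal (𝓞 K), I ≠ ⊥ → ∃ H0 : ℕ, ∀ H ≥ H0, ∀ S : Set (Mon s d → 𝓞 K ⧸ I),
      η * (S.ncard : ℝ) * ((box K s d H).card : ℝ) ≤
        (((box K s d H).filter fun f => (∀ μ j, |(co (f μ) j : ℝ) / H - φ₀ μ j| ≤ δ) ∧
          cred I f ∈ S).card : ℝ) * (Nat.card (Mon s d → 𝓞 K ⧸ I) : ℝ)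

/-! ### Assembly -/

/-- [SIGLOWC].  Port of `RHKB/SIGLOW.lean`.  `p0` with `2 C (C' / p0 + C'' p0^(-1/M)) ≤ ε/2` (SIGC, HSUM, HMQ);
`S` from WABC; for `v ∈ S`: BADC: `τ_v`; UIFTC for `v.adicCompletion K`, `c = 1`, `B0 = 1`, `r = 1/2`
(`(k : L) ≠ 0`: characteristic zero); PCNC. -/
def St_SIGLOWC : Prop :=
  ∀ (K : Type) [Field K] [NumberField K] (s k m : ℕ), CHyp s k m → ∀ ε : ℝ, 0 < ε →
    ∃ σ₀ : ℝ, 0 < σ₀ ∧ ∃ S : Finset (HeightOneSpectrum (𝓞 K)), ∃ m2 : ℕ, ∀ m0 ≥ m2, ∃ H0 : ℕ,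
      ∀ H ≥ H0, (((box K s (k * m) H).filter fun f =>
        (∀ v ∈ S, HasZeroC f (v.adicCompletion K)) ∧
        csig k (cred (Ideal.span {(WW m0 : 𝓞 K)}) f) < σ₀).card : ℝ) ≤
          ε * ((box K s (k * m) H).card : ℝ)

/-- [SIGPOSC].  Port of `RHKB/SIGPOS.lean` with the explicit form `f00` (NZ0C with `a = c = 1`). -/
def St_SIGPOSC : Prop :=
  ∀ (K : Type) [Field K] [NumberField K] (s k m : ℕ), CHyp s k m →
    ∃ σ₀ : ℝ, 0 < σ₀ ∧ ∃ m2 : ℕ, ∀ δ : ℝ, 0 < δ → ∃ c' : ℝ, 0 < c' ∧ ∀ m0 ≥ m2, ∃ H0 : ℕ,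
      ∀ H ≥ H0, c' * ((box K s (k * m) H).card : ℝ) ≤ (((box K s (k * m) H).filter fun f =>
        (∀ μ j, |(co (f μ) j : ℝ) / H - w00C K s (k * m) μ j| ≤ δ) ∧
          σ₀ ≤ csig k (cred (Ideal.span {(WW m0 : 𝓞 K)}) f)).card : ℝ)

/-- [NGC]: the points on hyperplanes of small height, from `RHK.St_NG` with `X = t^(c n + 1)`, `L = t^c`
(`X^n L^n = X^(n+1)/t`; `C L ≤ X` for large `t`).  Compare `RHK/NGC.lean`, `RHMB/NGM.lean`. -/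
def St_NGCC : Prop :=
  ∀ (K : Type) [Field K] [NumberField K] (s : ℕ), 2 ≤ s → ∀ c : ℕ, 1 ≤ c → ∃ C : ℝ, 0 < C ∧
    ∃ t0 : ℕ, ∀ t ≥ t0,
    (((bx K s ((XC s c t : ℕ) : ℝ)).filter fun x => ∃ l : Fin s → 𝓞 K, l ≠ 0 ∧
      (∀ v : InfinitePlace K, vs v l ≤ (t : ℝ) ^ c) ∧ dp l x = 0).card : ℝ) * t ≤
      C * ((XC s c t : ℝ) ^ s) ^ dg K

/-- [NLOWC].  Port of `RHKB/NLOW.lean`.  Sum of the hypothesis over the points `(ρ, ω)` of `f(ρ) = ω^k`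
modulo `W`, `ρ` primitive: at least `csig W^(r s) c₁ (X^s X^m V)^r / (κ^r W^(r (s+1)))` points `(x, w)` with
`W | f(x) - w^k`, `cz (f(x) - w^k) κ ≤ H X^(km)`.  The `x` on hyperplanes of small height: at most
`C X^(rs)/t` by NGCC, times the number of the `w`, at most `(C A X^m V)^r` (`RHKB.St_CUP` with `⊤`).  Every
other point contributes `1/TC ≥ (κ W/(3 H X^(km)))^r` for large `t`. -/
def St_NLOWC : Prop :=
  ∀ (K : Type) [Field K] [NumberField K] (s k m : ℕ), CHyp s k m → ∀ A c v : ℕ, 1 ≤ A → 1 ≤ c →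
    1 ≤ v → ∀ c₁ σ₀ : ℝ, 0 < c₁ → 0 < σ₀ → ∀ κ W : ℕ, 0 < κ → 0 < W → ∃ t0 : ℕ, ∀ t ≥ t0,
    ∀ V H : ℕ, CR k v t V H → ∀ f : Mon s (k * m) → 𝓞 K,
    σ₀ ≤ csig k (cred (Ideal.span {(W : 𝓞 K)}) f) →
    (∀ (ρ : Fin s → 𝓞 K) (ω : 𝓞 K), PrC W ρ →
      c₁ * ((XC s c t : ℝ) ^ s * ((XC s c t : ℝ) ^ m * V)) ^ dg K /
        ((κ : ℝ) ^ dg K * (W : ℝ) ^ (dg K * (s + 1))) ≤
        (RCnC A (XC s c t) V H κ W f ρ ω : ℝ)) →
      σ₀ * c₁ / (2 * 3 ^ dg K) * EC (dg K) s k m c t V H ≤ NLC A c t V H κ W f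

/-- [DETC].  Port of `RHKB/DET.lean`. -/
def St_DETC : Prop :=
  ∀ (K : Type) [Field K] [NumberField K] (s k m : ℕ), CHyp s k m → ∀ A B c v : ℕ, B + 1 ≤ A →
    1 ≤ c → 1 ≤ v → ∀ δ σ₀ : ℝ, 0 < δ → 0 < σ₀ → ∃ γ : ℝ, 0 < γ ∧ ∃ m2 : ℕ, ∀ m0 ≥ m2,
    ∀ κ : ℕ, 0 < κ → ∃ t0 : ℕ, ∀ t ≥ t0, ∀ V H : ℕ, CR k v t V H →
    ∀ f : Mon s (k * m) → 𝓞 K, f ∈ box K s (k * m) H →
      σ₀ ≤ csig k (cred (Ideal.span {(WW m0 : 𝓞 K)}) f) →
      (∀ v : InfinitePlace K, NZC k (cemb (uk v k V) f) (3 / 4) B δ (1 / 16)) →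
      γ * EC (dg K) s k m c t V H ≤ NLC A c t V H κ (WW m0) f

/-- [LLSC] (stronger than `LLC`: only finitely many places are used).  Port of `RHKB/LLS.lean`.  For
every infinite `v`: BADC with `ε/(2 (number of the infinite places))`: `τ_v`; `φ = cemb (uk v k V) f =
λ cemb (uu v H) f` with `λ = MK H/V^k`, `1 ≤ λ ≤ MK 2^k`, so `BadC τ_v φ` implies `BadC τ_v (cemb (uu v H) f)`;
UIFTC with `B0 = MK 2^k`, `c = 3/4`, `r = 1/16` gives `NZC` with `B = N B0 + 1 ≤ A - 1`.  DETC.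
`A0 = Fintype.card (Mon s (k * m)) * (MK K * 2 ^ k) + 2`. -/
def St_LLSC : Prop :=
  ∀ (K : Type) [Field K] [NumberField K] (s k m : ℕ), CHyp s k m → ∀ A c v : ℕ,
    Fintype.card (Mon s (k * m)) * (MK K * 2 ^ k) + 2 ≤ A → 1 ≤ c → 1 ≤ v → ∀ ε : ℝ, 0 < ε →
    ∃ γ : ℝ, 0 < γ ∧ ∃ S : Finset (HeightOneSpectrum (𝓞 K)), ∃ m2 : ℕ, ∀ m0 ≥ m2, ∀ κ : ℕ,
      0 < κ → ∃ t0 : ℕ, ∀ t ≥ t0, ∀ V H : ℕ, CR k v t V H →
      (((box K s (k * m) H).filter fun f => (∀ v : InfinitePlace K, HasZeroC f v.Completion) ∧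
        (∀ v ∈ S, HasZeroC f (v.adicCompletion K)) ∧
        NLC A c t V H κ (WW m0) f < γ * EC (dg K) s k m c t V H).card : ℝ) ≤
          ε * ((box K s (k * m) H).card : ℝ)

/-- [LLCB].  PROOF.  From LLSC. -/
def St_LLCB : Prop :=
  ∀ (K : Type) [Field K] [NumberField K] (s k m : ℕ), CHyp s k m → ∀ A c v : ℕ,
    Fintype.card (Mon s (k * m)) * (MK K * 2 ^ k) + 2 ≤ A → 1 ≤ c → 1 ≤ v → LLC K s k m A c v

/-- [LPCB].  Port of `RHKB/LP.lean`.  PROOF.  For every infinite `v`: `a` in `v.Completion` with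
`a^k = 1 / cz 1` (the completion contains the real numbers: `RHKB/SEP.lean`, `RHKB/NETW.lean` for the
isometry), `‖a‖ ≤ 1`; NZ0C with this `a`, `c = 3/4`, `r = 1/16`: `δ_v`.  If all coordinates of `f` are near
`H w00C` then `cemb (uk v k V) f` is near `(H/V^k) a^k f00`, and `H/V^k → 1` (`H ≤ (V+1)^k`, `V ≥ t`).  `NZC`
with `‖a‖ ‖c‖^m ≤ 1 = B`.  SIGPOSC and DETC (`A ≥ 2`). -/
def St_LPCB : Prop :=
  ∀ (K : Type) [Field K] [NumberField K] (s k m : ℕ), CHyp s k m → ∀ A c v : ℕ, 2 ≤ A →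
    1 ≤ c → 1 ≤ v → LPC K s k m A c v

end Pool.Agent.RHCB
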